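import Pool.Agent.Work.MP_5c4cbf_co.Potential

/-! Binomial estimates and the upper bound for large `n`. -/

namespace Pool.Agent.Work.MP_5c4cbf_co

open Finset

lemma choose_upper (a c m : ℕ) :
    ((a + c) * m).choose (a * m) * (a ^ a * c ^ c) ^ m ≤ ((a + c) ^ (a + c)) ^ m := by
  have h := add_pow (a : ℕ) c ((a + c) * m)
  have h1 : a ^ (a * m) * c ^ ((a + c) * m - a * m) * ((a + c) * m).choose (a * m)
      ≤ (a + c) ^ ((a + c) * m) := by
    rw [h]
    exact Finset.single_le_sum (f := fun i => a ^ i * c ^ ((a + c) * m - i) *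
      ((a + c) * m).choose i) (fun i _ => Nat.zero_le _)
      (Finset.mem_range.2 (Nat.lt_succ_of_le (Nat.mul_le_mul_right m (Nat.le_add_right a c))))
  have h2 : (a + c) * m - a * m = c * m := by
    rw [add_mul]; omega
  rw [h2] at h1
  calc ((a + c) * m).choose (a * m) * (a ^ a * c ^ c) ^ m
      = a ^ (a * m) * c ^ (c * m) * ((a + c) * m).choose (a * m) := by
        rw [mul_pow, ← pow_mul, ← pow_mul]; ring
    _ ≤ (a + c) ^ ((a + c) * m) := h1
    _ = ((a + c) ^ (a + c)) ^ m := by rw [← pow_mul]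

/-- binomial terms -/
def bt (a b N i : ℕ) : ℕ := N.choose i * a ^ i * b ^ (N - i)

lemma bt_succ (a b N i : ℕ) (hi : i < N) :
    bt a b N (i + 1) * ((i + 1) * b) = bt a b N i * ((N - i) * a) := by
  unfold bt
  have h1 := Nat.choose_succ_right_eq N i
  have h2 : N - i = (N - (i + 1)) + 1 := by omega
  have h3 : b ^ (N - i) = b ^ (N - (i + 1)) * b := by
    rw [h2, pow_succ]
  rw [h3, pow_succ]
  calc N.choose (i + 1) * (a ^ i * a) * b ^ (N - (i + 1)) * ((i + 1) * b)
      = (N.choose (i + 1) * (i + 1)) * (a ^ i * a) * b ^ (N - (i + 1)) * b := by ring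
    _ = (N.choose i * (N - i)) * (a ^ i * a) * b ^ (N - (i + 1)) * b := by rw [h1]
    _ = N.choose i * a ^ i * (b ^ (N - (i + 1)) * b) * ((N - i) * a) := by ring

lemma bt_mode {a b m : ℕ} (hb : 0 < b) (i : ℕ) (hi : i ≤ (a + b) * m) :
    bt a b ((a + b) * m) i ≤ bt a b ((a + b) * m) (a * m) := by
  have hN : (a + b) * m = a * m + b * m := add_mul a b m
  rcases le_total i (a * m) with h | h
  · -- increasing part
    have key : ∀ j, i ≤ j → j ≤ a * m →
        bt a b ((a + b) * m) i ≤ bt a b ((a + b) * m) j := by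
      intro j hij
      induction j, hij using Nat.le_induction with
      | base => intro _; exact le_rfl
      | succ j hij ih =>
        intro hj
        refine (ih (by omega)).trans ?_
        have h1 := bt_succ a b ((a + b) * m) j (by omega)
        have h2 : (j + 1) * b ≤ ((a + b) * m - j) * a := by
          have h3 : b * m ≤ (a + b) * m - j := by omega
          calc (j + 1) * b ≤ (a * m) * b := Nat.mul_le_mul_right _ hj
            _ = (b * m) * a := by ring
            _ ≤ _ := Nat.mul_le_mul_right _ h3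
        have h3 : bt a b ((a + b) * m) j * ((j + 1) * b) ≤
            bt a b ((a + b) * m) (j + 1) * ((j + 1) * b) := by
          rw [h1]
          exact Nat.mul_le_mul_left _ h2
        exact Nat.le_of_mul_le_mul_right h3 (by positivity)
    exact key _ h le_rfl
  · -- decreasing part
    have key : ∀ j, a * m ≤ j → j ≤ (a + b) * m →
        bt a b ((a + b) * m) j ≤ bt a b ((a + b) * m) (a * m) := by
      intro j hij
      induction j, hij using Nat.le_induction with
      | base => intro _; exact le_rfl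
      | succ j hij ih =>
        intro hj
        refine le_trans ?_ (ih (by omega))
        have h1 := bt_succ a b ((a + b) * m) j (by omega)
        have h2 : ((a + b) * m - j) * a ≤ (j + 1) * b := by
          have h3 : (a + b) * m - j ≤ b * m := by omega
          calc ((a + b) * m - j) * a ≤ (b * m) * a := Nat.mul_le_mul_right _ h3
            _ = (a * m) * b := by ring
            _ ≤ (j + 1) * b := Nat.mul_le_mul_right _ (by omega)
        have h3 : bt a b ((a + b) * m) (j + 1) * ((j + 1) * b) ≤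
            bt a b ((a + b) * m) j * ((j + 1) * b) := by
          rw [h1]
          exact Nat.mul_le_mul_left _ h2
        exact Nat.le_of_mul_le_mul_right h3 (by positivity)
    exact key _ h hi

lemma choose_lower (a b m : ℕ) (hb : 0 < b) :
    ((a + b) ^ (a + b)) ^ m ≤
      ((a + b) * m + 1) * (((a + b) * m).choose (a * m) * (a ^ a * b ^ b) ^ m) := by
  have h := add_pow (a : ℕ) b ((a + b) * m)
  have h1 : (a + b) ^ ((a + b) * m) ≤ ∑ i ∈ range ((a + b) * m + 1),
      bt a b ((a + b) * m) (a * m) := by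
    rw [h]
    apply Finset.sum_le_sum
    intro i hi
    have := bt_mode (a := a) (b := b) (m := m) hb i (by
      have := Finset.mem_range.1 hi
      omega)
    refine le_trans (le_of_eq ?_) this
    unfold bt
    simp only [Nat.cast_id]
    ring
  have h2 : (a + b) * m - a * m = b * m := by
    rw [add_mul]; omega
  calc ((a + b) ^ (a + b)) ^ m = (a + b) ^ ((a + b) * m) := by rw [← pow_mul]
    _ ≤ _ := h1
    _ = ((a + b) * m + 1) * bt a b ((a + b) * m) (a * m) := by simp
    _ = _ := by
      unfold bt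
      rw [h2, mul_pow, ← pow_mul, ← pow_mul]
      ring

lemma choose_shift (N s j : ℕ) (h : 2 * s ≤ N + 1) :
    (N + j).choose s ≤ 2 ^ j * N.choose s := by
  induction j with
  | zero => simp
  | succ j ih =>
    rcases s with _ | s
    · simp
      exact Nat.one_le_two_pow
    · have h1 : (N + (j + 1)).choose (s + 1) = (N + j).choose s + (N + j).choose (s + 1) := by
        rw [← Nat.choose_succ_succ]
        rfl
      have h2 : (N + j).choose s ≤ (N + j).choose (s + 1) := by
        have h3 := Nat.choose_succ_right_eq (N + j) s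
        have h4 : (N + j).choose s * (s + 1) ≤ (N + j).choose (s + 1) * (s + 1) := by
          rw [h3]
          apply Nat.mul_le_mul_left
          omega
        exact Nat.le_of_mul_le_mul_right h4 (by omega)
      rw [h1, pow_succ]
      calc _ ≤ (N + j).choose (s + 1) + (N + j).choose (s + 1) := by omega
        _ ≤ 2 ^ j * N.choose (s + 1) + 2 ^ j * N.choose (s + 1) := by omega
        _ = _ := by ring

lemma eventually_small (C : ℝ) : ∃ m0 : ℕ, ∀ m : ℕ, m0 ≤ m → C * m ^ 3 * 10 ^ m ≤ 14 ^ m := by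
  have h := tendsto_pow_const_mul_const_pow_of_abs_lt_one 3 (r := (10 / 14 : ℝ))
    (by rw [abs_of_pos] <;> norm_num)
  have h2 := h.const_mul C
  rw [mul_zero] at h2
  have h3 := h2.eventually (gt_mem_nhds (show (0:ℝ) < 1 by norm_num))
  rw [Filter.eventually_atTop] at h3
  obtain ⟨m0, hm0⟩ := h3
  refine ⟨m0, fun m hm => ?_⟩
  have := (hm0 m hm).le
  rw [div_pow] at this
  have h14 : (0 : ℝ) < 14 ^ m := by positivity
  calc C * m ^ 3 * 10 ^ m = C * (m ^ 3 * (10 ^ m / 14 ^ m)) * 14 ^ m := by
        field_simp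
    _ ≤ 1 * 14 ^ m := mul_le_mul_of_nonneg_right this h14.le
    _ = 14 ^ m := one_mul _

/-- The core comparison of binomial coefficients. -/
lemma core_ineq (a b c m P : ℕ) (ha : 0 < a) (hb : 0 < b) (hc : 0 < c)
    (hnum : 14 * ((a + c) ^ (a + c) * b ^ b) ≤ 10 * ((a + b) ^ (a + b) * 2 ^ a * c ^ c))
    (hP : P * ((a + b) * m + 1) * 10 ^ m ≤ 14 ^ m) :
    P * ((a + c) * m).choose (a * m) ≤ ((a + b) * m).choose (a * m) * 2 ^ (a * m) := by
  have h1 := choose_upper a c m
  have h2 := choose_lower a b m hb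
  set C1 := ((a + c) * m).choose (a * m)
  set C2 := ((a + b) * m).choose (a * m)
  set U := (a + c) ^ (a + c)
  set W := (a + b) ^ (a + b)
  set X := a ^ a with hX
  set Y := c ^ c with hY
  set Z := b ^ b with hZ
  have hXpos : 0 < X := by positivity
  have hYpos : 0 < Y := by positivity
  have hZpos : 0 < Z := by positivity
  have hpow : 14 ^ m * (U ^ m * Z ^ m) ≤ 10 ^ m * (W ^ m * (2 ^ a) ^ m * Y ^ m) := by
    have := Nat.pow_le_pow_left hnum m
    simpa only [mul_pow] using this
  have key : (P * C1) * (14 ^ m * X ^ m * Z ^ m * (X ^ m * Y ^ m)) ≤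
      (C2 * 2 ^ (a * m)) * (14 ^ m * X ^ m * Z ^ m * (X ^ m * Y ^ m)) := by
    calc (P * C1) * (14 ^ m * X ^ m * Z ^ m * (X ^ m * Y ^ m))
        = P * (14 ^ m * Z ^ m * X ^ m) * (C1 * (X * Y) ^ m) := by rw [mul_pow]; ring
      _ ≤ P * (14 ^ m * Z ^ m * X ^ m) * U ^ m := Nat.mul_le_mul_left _ h1
      _ = P * X ^ m * (14 ^ m * (U ^ m * Z ^ m)) := by ring
      _ ≤ P * X ^ m * (10 ^ m * (W ^ m * (2 ^ a) ^ m * Y ^ m)) := Nat.mul_le_mul_left _ hpow
      _ = P * 10 ^ m * X ^ m * (2 ^ a) ^ m * Y ^ m * W ^ m := by ring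
      _ ≤ P * 10 ^ m * X ^ m * (2 ^ a) ^ m * Y ^ m *
          (((a + b) * m + 1) * (C2 * (X * Z) ^ m)) := Nat.mul_le_mul_left _ h2
      _ = (P * ((a + b) * m + 1) * 10 ^ m) * (X ^ m * (2 ^ a) ^ m * Y ^ m * C2 *
          (X ^ m * Z ^ m)) := by rw [mul_pow]; ring
      _ ≤ 14 ^ m * (X ^ m * (2 ^ a) ^ m * Y ^ m * C2 * (X ^ m * Z ^ m)) :=
          Nat.mul_le_mul_right _ hP
      _ = (C2 * 2 ^ (a * m)) * (14 ^ m * X ^ m * Z ^ m * (X ^ m * Y ^ m)) := by
          rw [pow_mul]; ring
  exact Nat.le_of_mul_le_mul_right key (by positivity)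

end Pool.Agent.Work.MP_5c4cbf_co
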