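import Pool.Agent.Work.MP_5c4cbf_co.Defs

/-! Basic facts on maximal intersecting families and the lower bound. -/

namespace Pool.Agent.Work.MP_5c4cbf_co

open Finset

variable {n : ℕ}

lemma max_upset {F : Finset (Finset (Fin n))} (hF : IsMaxIntersecting F)
    {A B : Finset (Fin n)} (hA : A ∈ F) (hAB : A ⊆ B) : B ∈ F := by
  by_contra hB
  apply hF.2 B hB
  intro C hC D hD
  rcases Finset.mem_insert.1 hC with rfl | hC
  · rcases Finset.mem_insert.1 hD with rfl | hD
    · obtain ⟨x, hx⟩ := hF.1 A hA A hA
      have : x ∈ A := (Finset.mem_inter.1 hx).1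
      exact ⟨x, Finset.mem_inter.2 ⟨hAB this, hAB this⟩⟩
    · obtain ⟨x, hx⟩ := hF.1 A hA D hD
      rw [Finset.mem_inter] at hx
      exact ⟨x, Finset.mem_inter.2 ⟨hAB hx.1, hx.2⟩⟩
  · rcases Finset.mem_insert.1 hD with rfl | hD
    · obtain ⟨x, hx⟩ := hF.1 C ‹C ∈ F› A hA
      rw [Finset.mem_inter] at hx
      exact ⟨x, Finset.mem_inter.2 ⟨hx.1, hAB hx.2⟩⟩
    · exact hF.1 C ‹C ∈ F› D hD

lemma univ_mem_of_max (hn : 1 ≤ n) {F : Finset (Finset (Fin n))} (hF : IsMaxIntersecting F) :
    (Finset.univ : Finset (Fin n)) ∈ F := by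
  by_contra hB
  apply hF.2 _ hB
  have h0 : (Finset.univ : Finset (Fin n)).Nonempty := ⟨⟨0, hn⟩, Finset.mem_univ _⟩
  intro C hC D hD
  rcases Finset.mem_insert.1 hC with rfl | hC
  · rcases Finset.mem_insert.1 hD with rfl | hD
    · simpa using h0
    · obtain ⟨x, hx⟩ := hF.1 D hD D hD
      exact ⟨x, by simp at hx ⊢; exact hx⟩
  · rcases Finset.mem_insert.1 hD with rfl | hD
    · obtain ⟨x, hx⟩ := hF.1 C hC C hC
      exact ⟨x, by simp at hx ⊢; exact hx⟩
    · exact hF.1 C hC D hD

lemma compl_mem_of_not_mem (hn : 1 ≤ n) {F : Finset (Finset (Fin n))}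
    (hF : IsMaxIntersecting F) {S : Finset (Fin n)} (hS : S ∉ F) : Sᶜ ∈ F := by
  by_contra hc
  apply hF.2 S hS
  have key : ∀ C ∈ F, (C ∩ S).Nonempty := by
    intro C hC
    by_contra h
    rw [Finset.not_nonempty_iff_eq_empty] at h
    apply hc
    apply max_upset hF hC
    intro x hx
    rw [Finset.mem_compl]
    intro hxS
    have : x ∈ C ∩ S := Finset.mem_inter.2 ⟨hx, hxS⟩
    rw [h] at this
    simp at this
  have hSne : S.Nonempty := by
    have := key _ (univ_mem_of_max hn hF)
    simpa using this
  intro C hC D hD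
  rcases Finset.mem_insert.1 hC with rfl | hC
  · rcases Finset.mem_insert.1 hD with rfl | hD
    · simpa using hSne
    · rw [Finset.inter_comm]; exact key D hD
  · rcases Finset.mem_insert.1 hD with rfl | hD
    · exact key C ‹C ∈ F›
    · exact hF.1 C ‹C ∈ F› D hD

/-- Every intersecting family extends to a maximal one. -/
lemma exists_max_extension {G : Finset (Finset (Fin n))} (hG : IsIntersecting G) :
    ∃ F, G ⊆ F ∧ IsMaxIntersecting F := by
  obtain ⟨F, hF1, hF2⟩ := (Set.toFinite
    {F : Finset (Finset (Fin n)) | IsIntersecting F}).exists_le_maximal hG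
  refine ⟨F, hF1, hF2.1, ?_⟩
  intro S hS hI
  exact hS (hF2.2 hI (Finset.subset_insert S F) (Finset.mem_insert_self S F))

/-- A set `t` is a transversal of `M`. -/
def IsTransversal (M : Finset (Finset (Fin n))) (t : Finset (Fin n)) : Prop :=
  t ⊆ M.biUnion id ∧ ∀ e ∈ M, (t ∩ e).card = 1

lemma opp_transversal {M : Finset (Finset (Fin n))} (hM : IsMatching M) {t : Finset (Fin n)}
    (ht : IsTransversal M t) : IsTransversal M (M.biUnion id \ t) := by
  refine ⟨Finset.sdiff_subset, ?_⟩
  intro e he
  have h1 : (M.biUnion id \ t) ∩ e = e \ (t ∩ e) := by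
    ext x
    simp only [Finset.mem_inter, Finset.mem_sdiff, Finset.mem_biUnion, id]
    constructor
    · rintro ⟨⟨_, h2⟩, h3⟩
      exact ⟨h3, fun h => h2 h.1⟩
    · rintro ⟨h1, h2⟩
      exact ⟨⟨⟨e, he, h1⟩, fun h => h2 ⟨h, h1⟩⟩, h1⟩
  rw [h1, Finset.card_sdiff_of_subset Finset.inter_subset_right, hM.1 e he, ht.2 e he]

lemma shatters_of_no_transversal (hn : 1 ≤ n) {F M : Finset (Finset (Fin n))}
    (hF : IsMaxIntersecting F) (hM : IsMatching M)
    (h : ∀ t, IsTransversal M t → t ∉ F) : Shatters F M := by
  intro c hc1 hc2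
  have h1 := opp_transversal hM ⟨hc1, hc2⟩
  refine ⟨_, compl_mem_of_not_mem hn hF (h _ h1), ?_⟩
  ext x
  simp only [Finset.mem_inter, Finset.mem_compl, Finset.mem_sdiff]
  constructor
  · rintro ⟨h2, h3⟩
    by_contra h4
    exact h2 ⟨h3, h4⟩
  · intro hx
    exact ⟨fun h => h.2 hx, hc1 hx⟩

lemma not_shatters_of_transversal {F M : Finset (Finset (Fin n))}
    (hF : IsIntersecting F) (hM : IsMatching M) {t : Finset (Fin n)}
    (ht : IsTransversal M t) (htF : t ∈ F) : ¬ Shatters F M := by
  intro h
  obtain ⟨A, hA, hA2⟩ := h _ (opp_transversal hM ht).1 (opp_transversal hM ht).2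
  obtain ⟨x, hx⟩ := hF A hA t htF
  rw [Finset.mem_inter] at hx
  have h1 : x ∈ A ∩ M.biUnion id := Finset.mem_inter.2 ⟨hx.1, ht.1 hx.2⟩
  rw [hA2, Finset.mem_sdiff] at h1
  exact h1.2 hx.2

/-- The matching given by an injective labelling. -/
def mt {k : ℕ} (m : Fin k × Bool ↪ Fin n) : Finset (Finset (Fin n)) :=
  Finset.univ.image (fun i : Fin k => {m (i, false), m (i, true)})

lemma mt_injective {k : ℕ} (m : Fin k × Bool ↪ Fin n) :
    Function.Injective (fun i : Fin k => ({m (i, false), m (i, true)} : Finset (Fin n))) := by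
  intro i j hij
  have h1 : m (i, false) ∈ ({m (j, false), m (j, true)} : Finset (Fin n)) := by
    simp only at hij
    rw [← hij]; simp
  simp only [Finset.mem_insert, Finset.mem_singleton, EmbeddingLike.apply_eq_iff_eq,
    Prod.mk.injEq] at h1
  rcases h1 with h1 | h1
  · exact h1.1
  · exact h1.1

lemma mt_card {k : ℕ} (m : Fin k × Bool ↪ Fin n) : (mt m).card = k := by
  rw [mt, Finset.card_image_of_injective _ (mt_injective m)]
  simp

lemma mt_isMatching {k : ℕ} (m : Fin k × Bool ↪ Fin n) : IsMatching (mt m) := by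
  constructor
  · intro e he
    simp only [mt, Finset.mem_image, Finset.mem_univ, true_and] at he
    obtain ⟨i, rfl⟩ := he
    apply Finset.card_pair
    intro h
    simpa using m.injective h
  · intro e he e' he' hne
    simp only [mt, Finset.mem_image, Finset.mem_univ, true_and] at he he'
    obtain ⟨i, rfl⟩ := he
    obtain ⟨j, rfl⟩ := he'
    have hij : i ≠ j := by
      rintro rfl
      exact hne rfl
    rw [Finset.disjoint_left]
    intro x hx hx'
    simp only [Finset.mem_insert, Finset.mem_singleton] at hx hx'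
    rcases hx with hx | hx <;> rcases hx' with hx' | hx' <;>
    · rw [hx] at hx'
      have := m.injective hx'
      simp only [Prod.mk.injEq] at this
      exact hij this.1

/-- The transversal of `mt m` given by a choice function. -/
def tr {k : ℕ} (m : Fin k × Bool ↪ Fin n) (b : Fin k → Bool) : Finset (Fin n) :=
  Finset.univ.image (fun i : Fin k => m (i, b i))

lemma mem_tr {k : ℕ} {m : Fin k × Bool ↪ Fin n} {b : Fin k → Bool} {x : Fin n} :
    x ∈ tr m b ↔ ∃ i, m (i, b i) = x := by
  simp [tr]

lemma m_mem_tr {k : ℕ} {m : Fin k × Bool ↪ Fin n} {b : Fin k → Bool} {i : Fin k} {β : Bool} :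
    m (i, β) ∈ tr m b ↔ b i = β := by
  rw [mem_tr]
  constructor
  · rintro ⟨j, hj⟩
    have := m.injective hj
    simp only [Prod.mk.injEq] at this
    obtain ⟨rfl, h⟩ := this
    exact h
  · rintro rfl
    exact ⟨i, rfl⟩

lemma card_tr {k : ℕ} (m : Fin k × Bool ↪ Fin n) (b : Fin k → Bool) : (tr m b).card = k := by
  rw [tr, Finset.card_image_of_injective]
  · simp
  · intro i j hij
    have := m.injective hij
    simp only [Prod.mk.injEq] at this
    exact this.1

lemma tr_isTransversal {k : ℕ} (m : Fin k × Bool ↪ Fin n) (b : Fin k → Bool) :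
    IsTransversal (mt m) (tr m b) := by
  constructor
  · intro x hx
    rw [mem_tr] at hx
    obtain ⟨i, rfl⟩ := hx
    rw [Finset.mem_biUnion]
    refine ⟨{m (i, false), m (i, true)}, by simp [mt], ?_⟩
    cases b i <;> simp
  · intro e he
    simp only [mt, Finset.mem_image, Finset.mem_univ, true_and] at he
    obtain ⟨i, rfl⟩ := he
    rw [Finset.card_eq_one]
    refine ⟨m (i, b i), ?_⟩
    ext x
    simp only [Finset.mem_inter, Finset.mem_insert, Finset.mem_singleton]
    constructor
    · rintro ⟨h1, h2 | h2⟩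
      · subst h2
        rw [m_mem_tr] at h1
        rw [h1]
      · subst h2
        rw [m_mem_tr] at h1
        rw [h1]
    · rintro rfl
      refine ⟨m_mem_tr.2 rfl, ?_⟩
      cases b i <;> simp

/-- Transversals have exactly one element per pair. -/
lemma transversal_card {M : Finset (Finset (Fin n))} (hM : IsMatching M) {t : Finset (Fin n)}
    (ht : IsTransversal M t) : t.card = M.card := by
  have h1 : t = M.biUnion (fun e => t ∩ e) := by
    ext x
    simp only [Finset.mem_biUnion, Finset.mem_inter]
    constructor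
    · intro hx
      have := ht.1 hx
      simp only [Finset.mem_biUnion, id] at this
      obtain ⟨e, he, hxe⟩ := this
      exact ⟨e, he, hx, hxe⟩
    · rintro ⟨e, _, hx, _⟩
      exact hx
  rw [h1, Finset.card_biUnion]
  · rw [Finset.sum_congr rfl ht.2]
    simp
  · intro e he e' he' hne
    have := hM.2 e he e' he' hne
    exact Finset.disjoint_of_subset_left Finset.inter_subset_right
      (Finset.disjoint_of_subset_right Finset.inter_subset_right this)

/-- Inside a set with at least `2k` elements there is a labelled `k`-matching. -/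
lemma exists_label {k : ℕ} {Y : Finset (Fin n)} (hY : 2 * k ≤ Y.card) :
    ∃ m : Fin k × Bool ↪ Fin n, ∀ p, m p ∈ Y := by
  have h : Fintype.card (Fin k × Bool) ≤ Fintype.card Y := by
    simp [Fintype.card_prod]
    omega
  obtain ⟨f⟩ := Function.Embedding.nonempty_of_card_le h
  exact ⟨f.trans (Function.Embedding.subtype _), fun p => (f p).2⟩

/-- Every matching with `k` pairs has a labelling. -/
lemma exists_labelling {M : Finset (Finset (Fin n))} (hM : IsMatching M) {k : ℕ}
    (hk : M.card = k) : ∃ m : Fin k × Bool ↪ Fin n, mt m = M := by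
  classical
  have e : Fin k ≃ M := (Finset.equivFinOfCardEq hk).symm
  have h2 : ∀ i : Fin k, ∃ p : Fin n × Fin n, p.1 ≠ p.2 ∧ (e i : Finset (Fin n)) = {p.1, p.2} := by
    intro i
    obtain ⟨x, y, hxy, h⟩ := Finset.card_eq_two.1 (hM.1 (e i) (e i).2)
    exact ⟨(x, y), hxy, h⟩
  choose p hp1 hp2 using h2
  let g : Fin k × Bool → Fin n := fun q => if q.2 then (p q.1).2 else (p q.1).1
  have hg : ∀ q, g q ∈ (e q.1 : Finset (Fin n)) := by
    intro q
    rw [hp2]
    simp only [g]
    split_ifs <;> simp
  have hinj : Function.Injective g := by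
    rintro ⟨i, β⟩ ⟨j, γ⟩ h
    have hij : i = j := by
      by_contra hne
      have h1 : (e i : Finset (Fin n)) ≠ e j := by
        intro h
        exact hne (e.injective (Subtype.ext h))
      have h3 := hM.2 _ (e i).2 _ (e j).2 h1
      rw [Finset.disjoint_left] at h3
      have := hg (i, β)
      rw [h] at this
      exact h3 this (hg (j, γ))
    subst hij
    have := hp1 i
    cases β <;> cases γ <;> simp_all [g]
    exact absurd h.symm (hp1 i)
  refine ⟨⟨g, hinj⟩, ?_⟩
  ext s
  simp only [mt, Finset.mem_image, Finset.mem_univ, true_and]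
  constructor
  · rintro ⟨i, hi⟩
    have : s = (e i : Finset (Fin n)) := by
      rw [← hi, hp2]
      simp [g]
    rw [this]
    exact (e i).2
  · intro hs
    refine ⟨e.symm ⟨s, hs⟩, ?_⟩
    have := hp2 (e.symm ⟨s, hs⟩)
    simp only [Equiv.apply_symm_apply] at this
    simpa [g] using this.symm

/-- The set over which the maximum in `kStar` is taken. -/
def good (n : ℕ) : Set ℕ :=
  {k : ℕ | ∀ F : Finset (Finset (Fin n)), IsMaxIntersecting F →
    ∃ M : Finset (Finset (Fin n)), IsMatching M ∧ M.card = k ∧ Shatters F M}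

lemma third_good (hn : 1 ≤ n) : n / 3 ∈ good n := by
  intro F hF
  by_cases h : ∃ A ∈ F, A.card ≤ n / 3
  · obtain ⟨A, hA, hAc⟩ := h
    have h1 : 2 * (n / 3) ≤ Aᶜ.card := by
      rw [Finset.card_compl, Fintype.card_fin]
      omega
    obtain ⟨m, hm⟩ := exists_label h1
    refine ⟨mt m, mt_isMatching m, mt_card m, ?_⟩
    apply shatters_of_no_transversal hn hF (mt_isMatching m)
    intro t ht htF
    obtain ⟨x, hx⟩ := hF.1 A hA t htF
    rw [Finset.mem_inter] at hx
    have := ht.1 hx.2
    simp only [Finset.mem_biUnion, mt, Finset.mem_image, Finset.mem_univ, true_and, id] at this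
    obtain ⟨e, ⟨i, rfl⟩, hxe⟩ := this
    simp only [Finset.mem_insert, Finset.mem_singleton] at hxe
    rcases hxe with rfl | rfl
    · exact (Finset.mem_compl.1 (hm _)) hx.1
    · exact (Finset.mem_compl.1 (hm _)) hx.1
  · push Not at h
    obtain ⟨m, -⟩ := exists_label (n := n) (k := n / 3) (Y := Finset.univ) (by simp; omega)
    refine ⟨mt m, mt_isMatching m, mt_card m, ?_⟩
    apply shatters_of_no_transversal hn hF (mt_isMatching m)
    intro t ht htF
    have h1 := h t htF
    rw [transversal_card (mt_isMatching m) ht, mt_card] at h1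
    exact lt_irrefl _ h1

lemma exists_max (n : ℕ) : ∃ F : Finset (Finset (Fin n)), IsMaxIntersecting F := by
  obtain ⟨F, -, hF⟩ := exists_max_extension (n := n) (G := ∅) (by intro A hA; simp at hA)
  exact ⟨F, hF⟩

lemma matching_card_le {M : Finset (Finset (Fin n))} (hM : IsMatching M) : 2 * M.card ≤ n := by
  obtain ⟨m, hm⟩ := exists_labelling hM rfl
  have := Fintype.card_le_of_embedding m
  simp [Fintype.card_prod] at this
  omega

lemma good_bdd (n : ℕ) : BddAbove (good n) := by
  refine ⟨n, ?_⟩
  intro k hk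
  obtain ⟨F, hF⟩ := exists_max n
  obtain ⟨M, hM, hMc, -⟩ := hk F hF
  have := matching_card_le hM
  omega

theorem lower (hn : 1 ≤ n) : n / 3 ≤ kStar n :=
  le_csSup (good_bdd n) (third_good hn)

/-- Criterion for upper bounds. -/
lemma kStar_lt {K : ℕ} (hn : 1 ≤ n) {G : Finset (Finset (Fin n))} (hG : IsIntersecting G)
    (h : ∀ m : Fin K × Bool ↪ Fin n, ∃ b : Fin K → Bool, tr m b ∈ G) : kStar n < K := by
  obtain ⟨F, hGF, hF⟩ := exists_max_extension hG
  have key : ∀ k ∈ good n, k < K := by
    intro k hk
    by_contra hlt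
    push Not at hlt
    obtain ⟨M, hM, hMc, hS⟩ := hk F hF
    obtain ⟨M', hM'M, hM'c⟩ := Finset.exists_subset_card_eq (hlt.trans hMc.ge)
    have hM' : IsMatching M' := ⟨fun e he => hM.1 e (hM'M he),
      fun e he e' he' => hM.2 e (hM'M he) e' (hM'M he')⟩
    obtain ⟨m, hm⟩ := exists_labelling hM' hM'c
    obtain ⟨b, hb⟩ := h m
    have ht := tr_isTransversal m b
    rw [hm] at ht
    -- extend to a transversal of M
    have : ∃ t, IsTransversal M t ∧ tr m b ⊆ t := by
      have h2 : ∀ e : Finset (Fin n), ∃ x, e ∈ M → x ∈ e := by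
        intro e
        by_cases he : e ∈ M
        · have : e.Nonempty := by
            rw [← Finset.card_pos, hM.1 e he]; norm_num
          obtain ⟨x, hx⟩ := this
          exact ⟨x, fun _ => hx⟩
        · exact ⟨⟨0, hn⟩, fun h => absurd h he⟩
      choose x hx using h2
      refine ⟨tr m b ∪ (M \ M').image x, ⟨?_, ?_⟩, Finset.subset_union_left⟩
      · intro y hy
        rw [Finset.mem_union] at hy
        rcases hy with hy | hy
        · have := ht.1 hy
          rw [Finset.mem_biUnion] at this ⊢
          obtain ⟨e, he, hye⟩ := this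
          exact ⟨e, hM'M he, hye⟩
        · rw [Finset.mem_image] at hy
          obtain ⟨e, he, rfl⟩ := hy
          rw [Finset.mem_sdiff] at he
          rw [Finset.mem_biUnion]
          exact ⟨e, he.1, hx e he.1⟩
      · intro e he
        by_cases heM' : e ∈ M'
        · have : (tr m b ∪ (M \ M').image x) ∩ e = tr m b ∩ e := by
            ext y
            simp only [Finset.mem_inter, Finset.mem_union, Finset.mem_image, Finset.mem_sdiff]
            constructor
            · rintro ⟨h1 | ⟨e', ⟨he', he''⟩, rfl⟩, h2⟩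
              · exact ⟨h1, h2⟩
              · exfalso
                have hne : e' ≠ e := by
                  rintro rfl
                  exact he'' heM'
                exact (Finset.disjoint_left.1 (hM.2 e' he' e he hne)) (hx e' he') h2
            · rintro ⟨h1, h2⟩
              exact ⟨Or.inl h1, h2⟩
          rw [this]
          exact ht.2 e heM'
        · have : (tr m b ∪ (M \ M').image x) ∩ e = {x e} := by
            ext y
            simp only [Finset.mem_inter, Finset.mem_union, Finset.mem_image, Finset.mem_sdiff,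
              Finset.mem_singleton]
            constructor
            · rintro ⟨h1 | ⟨e', ⟨he', he''⟩, rfl⟩, h2⟩
              · exfalso
                have h3 := ht.1 h1
                rw [Finset.mem_biUnion] at h3
                obtain ⟨e', he', hye⟩ := h3
                have hne : e' ≠ e := by
                  rintro rfl
                  exact heM' he'
                exact (Finset.disjoint_left.1 (hM.2 e' (hM'M he') e he hne)) hye h2
              · by_contra hne
                have hne' : e' ≠ e := by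
                  rintro rfl
                  exact hne rfl
                exact (Finset.disjoint_left.1 (hM.2 e' he' e he hne')) (hx e' he') h2
            · rintro rfl
              exact ⟨Or.inr ⟨e, ⟨he, heM'⟩, rfl⟩, hx e he⟩
          rw [this]
          simp
    obtain ⟨t, ht1, ht2⟩ := this
    exact not_shatters_of_transversal hF.1 hM ht1 (max_upset hF (hGF hb) ht2) hS
  have h0 : n / 3 ∈ good n := third_good hn
  have hmem : kStar n ∈ good n := Nat.sSup_mem ⟨_, h0⟩ (good_bdd n)
  exact key _ hmem

end Pool.Agent.Work.MP_5c4cbf_co
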