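import Mathlib

/-! Definitions for MP_5c4cbf_co. -/

namespace Pool.Agent.Work.MP_5c4cbf_co

open Finset

/-- A family of subsets of an `n`-element set is intersecting if any two members
(a member and itself included) have a common element. -/
def IsIntersecting {n : ℕ} (F : Finset (Finset (Fin n))) : Prop :=
  ∀ A ∈ F, ∀ B ∈ F, (A ∩ B).Nonempty

/-- A maximal intersecting family: intersecting, and no further subset can be added. -/
def IsMaxIntersecting {n : ℕ} (F : Finset (Finset (Fin n))) : Prop :=
  IsIntersecting F ∧ ∀ S : Finset (Fin n), S ∉ F → ¬ IsIntersecting (insert S F)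

/-- A matching: a set of pairwise disjoint two-element sets. -/
def IsMatching {n : ℕ} (M : Finset (Finset (Fin n))) : Prop :=
  (∀ e ∈ M, e.card = 2) ∧ ∀ e ∈ M, ∀ e' ∈ M, e ≠ e' → Disjoint e e'

/-- The matching `M` is shattered by `F`: every set `c` consisting of exactly one element of each
pair of `M` is the trace of a member of `F` on the union of the pairs. -/
def Shatters {n : ℕ} (F M : Finset (Finset (Fin n))) : Prop :=
  ∀ c : Finset (Fin n), c ⊆ M.biUnion id → (∀ e ∈ M, (c ∩ e).card = 1) →
    ∃ A ∈ F, A ∩ M.biUnion id = c

/-- `k*(n)`: the largest `k` such that every maximal intersecting family of subsets of an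
`n`-element set shatters some matching of size `k`. -/
noncomputable def kStar (n : ℕ) : ℕ :=
  sSup {k : ℕ | ∀ F : Finset (Finset (Fin n)), IsMaxIntersecting F →
    ∃ M : Finset (Finset (Fin n)), IsMatching M ∧ M.card = k ∧ Shatters F M}

end Pool.Agent.Work.MP_5c4cbf_co
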