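import Pool.Agent.Work.MP_5c4cbf_co.Basic

/-! The potential function argument for the upper bound. -/

namespace Pool.Agent.Work.MP_5c4cbf_co

open Finset

variable {n K : ℕ}

lemma card_containing (m : Fin K × Bool ↪ Fin n) (H : Finset (Fin n)) :
    (univ.filter (fun b : Fin K → Bool => H ⊆ tr m b)).card * 2 ^ H.card ≤ 2 ^ K := by
  rcases (univ.filter (fun b : Fin K → Bool => H ⊆ tr m b)).eq_empty_or_nonempty with h | ⟨b0, hb0⟩
  · rw [h]; simp
  · rw [Finset.mem_filter] at hb0
    have hb0 := hb0.2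
    set J : Finset (Fin K) := univ.filter (fun i => m (i, b0 i) ∈ H) with hJdef
    have hHJ : H = J.image (fun i => m (i, b0 i)) := by
      ext x
      simp only [hJdef, Finset.mem_image, Finset.mem_filter, Finset.mem_univ, true_and]
      constructor
      · intro hx
        obtain ⟨i, hi⟩ := mem_tr.1 (hb0 hx)
        exact ⟨i, by rw [hi]; exact hx, hi⟩
      · rintro ⟨i, hi, rfl⟩
        exact hi
    have hJ : J.card = H.card := by
      conv_rhs => rw [hHJ]
      rw [Finset.card_image_of_injective]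
      intro i j hij
      have := m.injective hij
      simp only [Prod.mk.injEq] at this
      exact this.1
    have hsub : (univ.filter (fun b : Fin K → Bool => H ⊆ tr m b)) ⊆
        Fintype.piFinset (fun i => if i ∈ J then ({b0 i} : Finset Bool) else univ) := by
      intro b hb
      rw [Finset.mem_filter] at hb
      rw [Fintype.mem_piFinset]
      intro i
      split_ifs with hi
      · rw [hJdef, Finset.mem_filter] at hi
        have := hb.2 hi.2
        rw [m_mem_tr] at this
        rw [Finset.mem_singleton]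
        exact this
      · exact Finset.mem_univ _
    have hcard : (Fintype.piFinset
        (fun i => if i ∈ J then ({b0 i} : Finset Bool) else univ)).card = 2 ^ (K - J.card) := by
      rw [Fintype.card_piFinset]
      have : ∀ i : Fin K, (if i ∈ J then ({b0 i} : Finset Bool) else univ).card
          = if i ∈ J then 1 else 2 := by
        intro i
        split_ifs <;> simp
      simp only [this]
      rw [Finset.prod_ite]
      simp only [Finset.prod_const_one, one_mul, Finset.prod_const]
      congr 1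
      rw [Finset.filter_not, Finset.card_sdiff_of_subset (Finset.filter_subset _ _)]
      simp
    have hJK : J.card ≤ K := by
      have := Finset.card_le_univ J
      simpa using this
    calc (univ.filter (fun b : Fin K → Bool => H ⊆ tr m b)).card * 2 ^ H.card
        ≤ 2 ^ (K - J.card) * 2 ^ H.card :=
          Nat.mul_le_mul_right _ (hcard ▸ Finset.card_le_card hsub)
      _ = 2 ^ K := by
          rw [← hJ, ← pow_add]
          congr 1
          omega

/-- number of transversals disjoint from `H` -/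
def D (m : Fin K × Bool ↪ Fin n) (H : Finset (Fin n)) : ℕ :=
  (univ.filter (fun b : Fin K → Bool => Disjoint (tr m b) H)).card

lemma D_le (m : Fin K × Bool ↪ Fin n) (H : Finset (Fin n)) {d : ℕ}
    (hd : n + d ≤ H.card + 2 * K) : D m H * 2 ^ d ≤ 2 ^ K := by
  classical
  set V : Finset (Fin n) := univ.map m with hV
  have hVc : V.card = 2 * K := by
    rw [hV, Finset.card_map]
    simp [Fintype.card_prod]
    omega
  have h1 : d ≤ (H ∩ V).card := by
    have h2 := Finset.card_union_add_card_inter H V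
    have h3 : (H ∪ V).card ≤ n := by
      have := Finset.card_le_univ (H ∪ V)
      simpa using this
    omega
  have h2 : D m H ≤ (univ.filter (fun b : Fin K → Bool => H ∩ V ⊆ tr m b)).card := by
    apply Finset.card_le_card_of_injOn (fun b i => !(b i))
    · intro b hb
      simp only [Finset.coe_filter, Finset.mem_univ, true_and, Set.mem_ofPred_eq] at hb ⊢
      intro x hx
      rw [Finset.mem_inter, hV, Finset.mem_map] at hx
      obtain ⟨hxH, ⟨i, β⟩, -, rfl⟩ := hx
      rw [m_mem_tr]
      have h3 : b i ≠ β := by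
        intro h
        exact (Finset.disjoint_left.1 hb) (m_mem_tr.2 h) hxH
      cases hb' : b i <;> cases β <;> simp_all
    · intro b _ b' _ h
      funext i
      have := congrFun h i
      simpa using this
  calc D m H * 2 ^ d ≤ (univ.filter (fun b : Fin K → Bool => H ∩ V ⊆ tr m b)).card
        * 2 ^ (H ∩ V).card := Nat.mul_le_mul h2 (Nat.pow_le_pow_right (by norm_num) h1)
    _ ≤ 2 ^ K := card_containing m _

lemma sum_D (m : Fin K × Bool ↪ Fin n) (s : ℕ) :
    ∑ H ∈ (univ : Finset (Fin n)).powersetCard s, D m H = 2 ^ K * (n - K).choose s := by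
  classical
  simp only [D, Finset.card_filter]
  rw [Finset.sum_comm]
  have : ∀ b : Fin K → Bool, ∑ H ∈ (univ : Finset (Fin n)).powersetCard s,
      (if Disjoint (tr m b) H then 1 else 0) = (n - K).choose s := by
    intro b
    rw [← Finset.card_filter]
    have h1 : ((univ : Finset (Fin n)).powersetCard s).filter (fun H => Disjoint (tr m b) H)
        = (tr m b)ᶜ.powersetCard s := by
      ext H
      simp only [Finset.mem_filter, Finset.mem_powersetCard, Finset.subset_univ, true_and]
      constructor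
      · rintro ⟨h1, h2⟩
        exact ⟨fun x hx => Finset.mem_compl.2 (fun h => (Finset.disjoint_left.1 h2) h hx), h1⟩
      · rintro ⟨h1, h2⟩
        refine ⟨h2, Finset.disjoint_left.2 (fun x hx hx' => ?_)⟩
        exact (Finset.mem_compl.1 (h1 hx')) hx
    rw [h1, Finset.card_powersetCard, Finset.card_compl, card_tr, Fintype.card_fin]
  rw [Finset.sum_congr rfl (fun b _ => this b)]
  simp

/-- the family generated by an ordered list (newest set first) -/
def Gen : List (Finset (Fin n)) → Finset (Fin n) → Prop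
  | [], _ => False
  | H :: L, c => Gen L c ∨ (H ⊆ c ∧ ∀ H' ∈ L, ¬ Disjoint c H')

lemma gen_contains {L : List (Finset (Fin n))} {c : Finset (Fin n)} (h : Gen L c) :
    ∃ H ∈ L, H ⊆ c := by
  induction L with
  | nil => exact h.elim
  | cons H L ih =>
    rcases h with h | h
    · obtain ⟨H', h1, h2⟩ := ih h
      exact ⟨H', List.mem_cons_of_mem _ h1, h2⟩
    · exact ⟨H, List.mem_cons_self, h.1⟩

lemma gen_inter {L : List (Finset (Fin n))} (hL : ∀ H ∈ L, H.Nonempty) {c c' : Finset (Fin n)}
    (h : Gen L c) (h' : Gen L c') : (c ∩ c').Nonempty := by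
  induction L with
  | nil => exact h.elim
  | cons H L ih =>
    have hL' : ∀ H ∈ L, H.Nonempty := fun H hH => hL H (List.mem_cons_of_mem _ hH)
    have aux : ∀ {a b : Finset (Fin n)}, Gen L a → (∀ H' ∈ L, ¬ Disjoint b H') →
        (a ∩ b).Nonempty := by
      intro a b ha hb
      obtain ⟨H', h1, h2⟩ := gen_contains ha
      have := hb H' h1
      rw [Finset.not_disjoint_iff] at this
      obtain ⟨x, hx1, hx2⟩ := this
      exact ⟨x, Finset.mem_inter.2 ⟨h2 hx2, hx1⟩⟩
    rcases h with h | h <;> rcases h' with h' | h'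
    · exact ih hL' h h'
    · exact aux h h'.2
    · rw [Finset.inter_comm]
      exact aux h' h.2
    · obtain ⟨x, hx⟩ := hL H List.mem_cons_self
      exact ⟨x, Finset.mem_inter.2 ⟨h.1 hx, h'.1 hx⟩⟩

/-- the matching labelled by `m` has a transversal in the generated family -/
def Sat (m : Fin K × Bool ↪ Fin n) (L : List (Finset (Fin n))) : Prop :=
  ∃ b, Gen L (tr m b)

noncomputable def sg (m : Fin K × Bool ↪ Fin n) (L : List (Finset (Fin n))) : ℝ :=
  (L.map (fun H => (D m H : ℝ))).sum / 2 ^ K

lemma sg_cons (m : Fin K × Bool ↪ Fin n) (H : Finset (Fin n)) (L : List (Finset (Fin n))) :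
    sg m (H :: L) = D m H / 2 ^ K + sg m L := by
  simp [sg, add_div]

lemma bad_le (m : Fin K × Bool ↪ Fin n) (L : List (Finset (Fin n))) :
    ((univ.filter (fun b : Fin K → Bool => ∃ H ∈ L, Disjoint (tr m b) H)).card : ℝ)
      ≤ sg m L * 2 ^ K := by
  classical
  induction L with
  | nil => simp [sg]
  | cons H L ih =>
    have h1 : (univ.filter (fun b : Fin K → Bool => ∃ H' ∈ H :: L, Disjoint (tr m b) H')) ⊆
        (univ.filter (fun b : Fin K → Bool => Disjoint (tr m b) H)) ∪
        (univ.filter (fun b : Fin K → Bool => ∃ H ∈ L, Disjoint (tr m b) H)) := by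
      intro b hb
      simp only [Finset.mem_filter, Finset.mem_univ, true_and, List.mem_cons,
        exists_eq_or_imp, Finset.mem_union] at hb ⊢
      exact hb
    have h2 := (Finset.card_le_card h1).trans (Finset.card_union_le _ _)
    have h3 : ((univ.filter (fun b : Fin K → Bool =>
        ∃ H' ∈ H :: L, Disjoint (tr m b) H')).card : ℝ) ≤ (D m H : ℝ) +
        ((univ.filter (fun b : Fin K → Bool => ∃ H ∈ L, Disjoint (tr m b) H)).card : ℝ) := by
      exact_mod_cast h2
    rw [sg_cons, add_mul, div_mul_cancel₀ _ (by positivity)]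
    linarith

open Classical in
lemma many_sat (m : Fin K × Bool ↪ Fin n) (L : List (Finset (Fin n))) (s : ℕ)
    (h : sg m L ≤ 1 / 2) :
    K.choose s * 2 ^ s ≤
      2 * (((univ : Finset (Fin n)).powersetCard s).filter (fun H => Sat m (H :: L))).card := by
  set B := univ.filter (fun b : Fin K → Bool => ∀ H ∈ L, ¬ Disjoint (tr m b) H) with hB
  set T := ((univ : Finset (Fin n)).powersetCard s).filter (fun H => Sat m (H :: L)) with hT
  have h1 : 2 ^ K ≤ 2 * B.card := by
    have h2 : B = (univ.filter (fun b : Fin K → Bool => ∃ H ∈ L, Disjoint (tr m b) H))ᶜ := by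
      ext b
      simp [hB]
    have h3 := bad_le m L
    have h4 := Finset.card_add_card_compl
      (univ.filter (fun b : Fin K → Bool => ∃ H ∈ L, Disjoint (tr m b) H))
    rw [← h2] at h4
    simp only [Fintype.card_pi, Fintype.card_bool, Finset.prod_const, Finset.card_univ,
      Fintype.card_fin] at h4
    have h5 : ((univ.filter (fun b : Fin K → Bool => ∃ H ∈ L, Disjoint (tr m b) H)).card : ℝ)
        ≤ 2 ^ K / 2 := by
      refine h3.trans ?_
      have : (0 : ℝ) < 2 ^ K := by positivity
      nlinarith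
    have h6 : ((univ.filter (fun b : Fin K → Bool => ∃ H ∈ L, Disjoint (tr m b) H)).card : ℝ)
        + B.card = 2 ^ K := by exact_mod_cast h4
    have h7 : (2 : ℝ) ^ K ≤ 2 * B.card := by linarith
    exact_mod_cast h7
  have h2 : B.card * K.choose s * 2 ^ s ≤ T.card * 2 ^ K := by
    have h3 : B.card * K.choose s = ∑ b ∈ B, ((tr m b).powersetCard s).card := by
      simp [card_tr]
    have h4 : ∑ b ∈ B, ((tr m b).powersetCard s).card
        = ∑ H ∈ T, (B.filter (fun b => H ⊆ tr m b)).card := by
      have h5 : ∀ b ∈ B, ((tr m b).powersetCard s) = T.filter (fun H => H ⊆ tr m b) := by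
        intro b hb
        ext H
        simp only [hT, Finset.mem_filter, Finset.mem_powersetCard, Finset.subset_univ, true_and]
        constructor
        · rintro ⟨h1, h2⟩
          refine ⟨⟨h2, ⟨b, Or.inr ⟨h1, ?_⟩⟩⟩, h1⟩
          rw [hB, Finset.mem_filter] at hb
          exact hb.2
        · rintro ⟨⟨h1, -⟩, h2⟩
          exact ⟨h2, h1⟩
      rw [Finset.sum_congr rfl (fun b hb => by rw [h5 b hb])]
      simp only [Finset.card_filter]
      rw [Finset.sum_comm]
    rw [h3, h4, Finset.sum_mul]
    calc ∑ H ∈ T, (B.filter (fun b => H ⊆ tr m b)).card * 2 ^ s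
        ≤ ∑ H ∈ T, 2 ^ K := by
          apply Finset.sum_le_sum
          intro H hH
          have hHs : H.card = s := by
            rw [hT, Finset.mem_filter, Finset.mem_powersetCard] at hH
            exact hH.1.2
          rw [← hHs]
          refine le_trans (Nat.mul_le_mul_right _ (Finset.card_le_card ?_)) (card_containing m H)
          exact Finset.filter_subset_filter _ (Finset.subset_univ _)
      _ = T.card * 2 ^ K := by simp
  have h3 : 2 ^ K * (K.choose s * 2 ^ s) ≤ 2 ^ K * (2 * T.card) := by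
    calc 2 ^ K * (K.choose s * 2 ^ s) ≤ (2 * B.card) * (K.choose s * 2 ^ s) :=
          Nat.mul_le_mul_right _ h1
      _ = 2 * (B.card * K.choose s * 2 ^ s) := by ring
      _ ≤ 2 * (T.card * 2 ^ K) := Nat.mul_le_mul_left _ h2
      _ = 2 ^ K * (2 * T.card) := by ring
  exact Nat.le_of_mul_le_mul_left h3 (by positivity)

open Classical in
noncomputable def uu (m : Fin K × Bool ↪ Fin n) (L : List (Finset (Fin n))) : ℝ :=
  if ¬ Sat m L ∧ sg m L ≤ 1 / 2 then 1 else 0

lemma uu_nonneg (m : Fin K × Bool ↪ Fin n) (L : List (Finset (Fin n))) : 0 ≤ uu m L := by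
  unfold uu; split_ifs <;> norm_num

lemma sg_mono (m : Fin K × Bool ↪ Fin n) (H : Finset (Fin n)) (L : List (Finset (Fin n))) :
    sg m L ≤ sg m (H :: L) := by
  rw [sg_cons]
  have : (0 : ℝ) ≤ D m H / 2 ^ K := by positivity
  linarith

lemma step_uu (m : Fin K × Bool ↪ Fin n) (L : List (Finset (Fin n))) {s : ℕ} {ρ : ℝ}
    (hρ : ρ * (n.choose s : ℝ) ≤ K.choose s * 2 ^ s / 2) :
    ∑ H ∈ (univ : Finset (Fin n)).powersetCard s, uu m (H :: L)
      ≤ (n.choose s : ℝ) * (Real.exp (-ρ) * uu m L) := by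
  classical
  by_cases h : ¬ Sat m L ∧ sg m L ≤ 1 / 2
  · have h1 : uu m L = 1 := by unfold uu; rw [if_pos h]
    have h2 : ∑ H ∈ (univ : Finset (Fin n)).powersetCard s, uu m (H :: L)
        ≤ ∑ H ∈ (univ : Finset (Fin n)).powersetCard s, (1 - if Sat m (H :: L) then (1:ℝ) else 0) := by
      apply Finset.sum_le_sum
      intro H _
      unfold uu
      split_ifs <;> simp_all
    have h3 := many_sat m L s h.2
    have h3' : (K.choose s * 2 ^ s : ℝ) ≤ 2 * ((((univ : Finset (Fin n)).powersetCard s).filter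
        (fun H => Sat m (H :: L))).card : ℝ) := by exact_mod_cast h3
    rw [Finset.sum_sub_distrib] at h2
    simp only [Finset.sum_const, Finset.card_powersetCard, Finset.card_univ, Fintype.card_fin,
      nsmul_eq_mul, mul_one, Finset.sum_boole] at h2
    rw [h1, mul_one]
    have h4 : 1 - ρ ≤ Real.exp (-ρ) := by
      have := Real.add_one_le_exp (-ρ)
      linarith
    have h5 : (0 : ℝ) ≤ n.choose s := by positivity
    have h6 := mul_le_mul_of_nonneg_left h4 h5
    linarith
  · have h1 : uu m L = 0 := by simp only [uu, h, if_false]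
    have h2 : ∀ H ∈ (univ : Finset (Fin n)).powersetCard s, uu m (H :: L) = 0 := by
      intro H _
      unfold uu
      rw [if_neg]
      rintro ⟨h3, h4⟩
      apply h
      refine ⟨fun ⟨b, hb⟩ => h3 ⟨b, Or.inl hb⟩, (sg_mono m H L).trans h4⟩
    rw [Finset.sum_congr rfl h2, h1]
    simp

lemma exp_le_of_unit {x : ℝ} (h0 : 0 ≤ x) (h1 : x ≤ 1) : Real.exp x ≤ 1 + 2 * x := by
  have h2 := Real.abs_exp_sub_one_sub_id_le (x := x) (by rw [abs_le]; constructor <;> linarith)
  have h3 := (abs_le.1 h2).2
  nlinarith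

lemma step_exp (m : Fin K × Bool ↪ Fin n) (L : List (Finset (Fin n))) {s d : ℕ} {q : ℝ}
    (hd : n + d ≤ s + 2 * K)
    (hq : ((n - K).choose s : ℝ) ≤ q * n.choose s) :
    ∑ H ∈ (univ : Finset (Fin n)).powersetCard s, Real.exp (2 ^ d * sg m (H :: L))
      ≤ (n.choose s : ℝ) * (Real.exp (2 * 2 ^ d * q) * Real.exp (2 ^ d * sg m L)) := by
  classical
  have h1 : ∀ H ∈ (univ : Finset (Fin n)).powersetCard s,
      Real.exp (2 ^ d * sg m (H :: L)) ≤
        (1 + 2 * (2 ^ d * (D m H / 2 ^ K))) * Real.exp (2 ^ d * sg m L) := by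
    intro H hH
    rw [Finset.mem_powersetCard] at hH
    rw [sg_cons, mul_add, Real.exp_add]
    apply mul_le_mul_of_nonneg_right _ (Real.exp_pos _).le
    apply exp_le_of_unit
    · positivity
    · have h2 := D_le m H (d := d) (by rw [hH.2]; exact hd)
      have h3 : (D m H : ℝ) * 2 ^ d ≤ 2 ^ K := by exact_mod_cast h2
      rw [mul_div_assoc', div_le_one (by positivity)]
      linarith
  refine (Finset.sum_le_sum h1).trans ?_
  rw [← Finset.sum_mul, ← mul_assoc]
  apply mul_le_mul_of_nonneg_right _ (Real.exp_pos _).le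
  rw [Finset.sum_add_distrib, ← Finset.mul_sum, ← Finset.mul_sum, ← Finset.sum_div]
  have h2 : ∑ H ∈ (univ : Finset (Fin n)).powersetCard s, (D m H : ℝ)
      = 2 ^ K * (n - K).choose s := by exact_mod_cast sum_D m s
  rw [h2]
  simp only [Finset.sum_const, Finset.card_powersetCard, Finset.card_univ, Fintype.card_fin,
      nsmul_eq_mul, mul_one]
  rw [mul_div_assoc, mul_comm ((2:ℝ)^K), div_mul_cancel₀ _ (by positivity)]
  have h3 : 1 + 2 * 2 ^ d * q ≤ Real.exp (2 * 2 ^ d * q) := by
    have := Real.add_one_le_exp (2 * 2 ^ d * q)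
    linarith
  have h5 : (0 : ℝ) ≤ n.choose s := by positivity
  have h6 := mul_le_mul_of_nonneg_left h3 h5
  have h7 : (2:ℝ) * (2 ^ d * ((n - K).choose s : ℝ)) ≤ 2 * (2 ^ d * (q * n.choose s)) := by
    have : (0:ℝ) ≤ 2 ^ d := by positivity
    nlinarith [mul_le_mul_of_nonneg_left hq this]
  linarith

noncomputable def Phi (K : ℕ) (ρ q : ℝ) (d : ℕ) (L : List (Finset (Fin n))) : ℝ :=
  ∑ m : Fin K × Bool ↪ Fin n, (uu m L * Real.exp (ρ * L.length) +
    Real.exp (2 ^ d * sg m L) * Real.exp (-(2 * 2 ^ d * q * L.length)))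

lemma Phi_step (L : List (Finset (Fin n))) {s d : ℕ} {ρ q : ℝ}
    (hd : n + d ≤ s + 2 * K) (hs : s ≤ n)
    (hρ : ρ * (n.choose s : ℝ) ≤ K.choose s * 2 ^ s / 2)
    (hq : ((n - K).choose s : ℝ) ≤ q * n.choose s) :
    ∃ H ∈ (univ : Finset (Fin n)).powersetCard s, Phi K ρ q d (H :: L) ≤ Phi K ρ q d L := by
  classical
  apply Finset.exists_le_of_sum_le
  · apply Finset.powersetCard_nonempty.2
    simpa using hs
  · rw [Finset.sum_const, Finset.card_powersetCard, Finset.card_univ, Fintype.card_fin,
      nsmul_eq_mul]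
    unfold Phi
    rw [Finset.sum_comm, Finset.mul_sum]
    apply Finset.sum_le_sum
    intro m _
    simp only [List.length_cons, Nat.cast_add, Nat.cast_one]
    rw [Finset.sum_add_distrib, ← Finset.sum_mul, ← Finset.sum_mul]
    have h1 := step_uu m L hρ
    have h2 := step_exp m L hd hq
    have e1 : Real.exp (ρ * (L.length + 1)) = Real.exp ρ * Real.exp (ρ * L.length) := by
      rw [← Real.exp_add]; ring_nf
    have e2 : Real.exp (-(2 * 2 ^ d * q * (L.length + 1))) =
        Real.exp (-(2 * 2 ^ d * q)) * Real.exp (-(2 * 2 ^ d * q * L.length)) := by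
      rw [← Real.exp_add]; ring_nf
    have e3 : Real.exp (-ρ) * Real.exp ρ = 1 := by
      rw [← Real.exp_add]; simp
    have e4 : Real.exp (2 * 2 ^ d * q) * Real.exp (-(2 * 2 ^ d * q)) = 1 := by
      rw [← Real.exp_add]; simp
    rw [e1, e2, mul_add]
    apply add_le_add
    · calc _ ≤ (n.choose s : ℝ) * (Real.exp (-ρ) * uu m L) *
            (Real.exp ρ * Real.exp (ρ * L.length)) :=
            mul_le_mul_of_nonneg_right h1 (by positivity)
        _ = (n.choose s : ℝ) * (uu m L * Real.exp (ρ * L.length)) *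
            (Real.exp (-ρ) * Real.exp ρ) := by ring
        _ = _ := by rw [e3, mul_one]
    · calc _ ≤ (n.choose s : ℝ) * (Real.exp (2 * 2 ^ d * q) * Real.exp (2 ^ d * sg m L)) *
            (Real.exp (-(2 * 2 ^ d * q)) * Real.exp (-(2 * 2 ^ d * q * L.length))) :=
            mul_le_mul_of_nonneg_right h2 (by positivity)
        _ = (n.choose s : ℝ) * (Real.exp (2 ^ d * sg m L) *
            Real.exp (-(2 * 2 ^ d * q * L.length))) *
            (Real.exp (2 * 2 ^ d * q) * Real.exp (-(2 * 2 ^ d * q))) := by ring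
        _ = _ := by rw [e4, mul_one]

lemma Phi_nil {ρ q : ℝ} {d : ℕ} : Phi K ρ q d ([] : List (Finset (Fin n))) ≤
    2 * Fintype.card (Fin K × Bool ↪ Fin n) := by
  unfold Phi
  have : ∀ m ∈ (univ : Finset (Fin K × Bool ↪ Fin n)),
      (uu m [] * Real.exp (ρ * ([] : List (Finset (Fin n))).length) +
      Real.exp (2 ^ d * sg m []) *
        Real.exp (-(2 * 2 ^ d * q * ([] : List (Finset (Fin n))).length))) ≤ 2 := by
    intro m _
    have h1 : uu m [] ≤ 1 := by unfold uu; split_ifs <;> norm_num
    simp [sg]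
    linarith
  refine (Finset.sum_le_sum this).trans ?_
  simp
  linarith

lemma Phi_exists {s d : ℕ} {ρ q : ℝ}
    (hd : n + d ≤ s + 2 * K) (hs : s ≤ n)
    (hρ : ρ * (n.choose s : ℝ) ≤ K.choose s * 2 ^ s / 2)
    (hq : ((n - K).choose s : ℝ) ≤ q * n.choose s) (N : ℕ) :
    ∃ L : List (Finset (Fin n)), L.length = N ∧ (∀ H ∈ L, H.card = s) ∧
      Phi K ρ q d L ≤ 2 * Fintype.card (Fin K × Bool ↪ Fin n) := by
  induction N with
  | zero => exact ⟨[], rfl, by simp, Phi_nil⟩
  | succ N ih =>
    obtain ⟨L, h1, h2, h3⟩ := ih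
    obtain ⟨H, hH, hle⟩ := Phi_step (K := K) (d := d) L hd hs hρ hq
    refine ⟨H :: L, by simp [h1], ?_, hle.trans h3⟩
    intro H' hH'
    rcases List.mem_cons.1 hH' with rfl | hH'
    · exact (Finset.mem_powersetCard.1 hH).2
    · exact h2 H' hH'

theorem criterion {s d : ℕ} {ρ q ℓ : ℝ} (hn : 1 ≤ n) (hs1 : 1 ≤ s)
    (hd : n + d ≤ s + 2 * K) (hs : s ≤ n)
    (hρ : ρ * (n.choose s : ℝ) ≤ K.choose s * 2 ^ s / 2)
    (hq : ((n - K).choose s : ℝ) ≤ q * n.choose s)
    (hQ : (2 * Fintype.card (Fin K × Bool ↪ Fin n) : ℝ) ≤ Real.exp ℓ)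
    (hℓ : 4 * ℓ ≤ 2 ^ d) (N : ℕ) (hN1 : 8 * q * N ≤ 1) (hN2 : ℓ < ρ * N) :
    kStar n < K := by
  classical
  obtain ⟨L, h1, h2, h3⟩ := Phi_exists (K := K) hd hs hρ hq N
  have hnn : ∀ m ∈ (univ : Finset (Fin K × Bool ↪ Fin n)), 0 ≤ (uu m L * Real.exp (ρ * L.length) +
      Real.exp (2 ^ d * sg m L) * Real.exp (-(2 * 2 ^ d * q * L.length))) := by
    intro m _
    have := uu_nonneg m L
    positivity
  have hsat : ∀ m : Fin K × Bool ↪ Fin n, Sat m L := by
    intro m
    have h4 := (Finset.single_le_sum hnn (Finset.mem_univ m)).trans (h3.trans hQ)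
    have hu := uu_nonneg m L
    have h5 : Real.exp (2 ^ d * sg m L) * Real.exp (-(2 * 2 ^ d * q * L.length)) ≤ Real.exp ℓ := by
      have : 0 ≤ uu m L * Real.exp (ρ * L.length) := by positivity
      linarith
    rw [← Real.exp_add, Real.exp_le_exp, h1] at h5
    have h6 : sg m L ≤ 1 / 2 := by
      have h7 : (2:ℝ) ^ d * (2 * q * N) ≤ 2 ^ d * (1 / 4) :=
        mul_le_mul_of_nonneg_left (by linarith) (by positivity)
      have h8 : (2:ℝ) ^ d * sg m L ≤ 2 ^ d * (1 / 2) := by
        nlinarith
      exact le_of_mul_le_mul_left h8 (by positivity)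
    by_contra hns
    have h7 : uu m L = 1 := by
      unfold uu
      rw [if_pos ⟨hns, h6⟩]
    rw [h7, one_mul, h1] at h4
    have h8 : Real.exp (ρ * N) ≤ Real.exp ℓ := by
      have : 0 < Real.exp (2 ^ d * sg m L) * Real.exp (-(2 * 2 ^ d * q * N)) := by positivity
      linarith
    rw [Real.exp_le_exp] at h8
    linarith
  apply kStar_lt hn (G := univ.filter (fun c => Gen L c))
  · intro A hA B hB
    rw [Finset.mem_filter] at hA hB
    apply gen_inter _ hA.2 hB.2
    intro H hH
    rw [← Finset.card_pos, h2 H hH]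
    exact hs1
  · intro m
    obtain ⟨b, hb⟩ := hsat m
    exact ⟨b, Finset.mem_filter.2 ⟨Finset.mem_univ _, hb⟩⟩

end Pool.Agent.Work.MP_5c4cbf_co
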