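import Mathlib

/-! Counting lemmas (product spaces, binomial coefficients). -/

set_option autoImplicit false

namespace Pool.Agent.Work.MP_5c4cbf_co

open Finset

lemma few_outside2_term {n K s e : ℕ} (hs : 2 * s ≤ K) (hn : n ≤ 4 * (K - s)) (he : e ≤ s) :
    n.choose e * K.choose (s - e) ≤ 4 ^ e * (s.choose e * K.choose s) := by
  have h1 : n.choose e ≤ 4 ^ e * (K - s + e).choose e := by
    have h2 : n.descFactorial e ≤ 4 ^ e * (K - s + e).descFactorial e := by
      have hgen : ∀ t, t ≤ e → n.descFactorial t ≤ 4 ^ t * (K - s + e).descFactorial t := by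
        intro t
        induction t with
        | zero => intro _; simp
        | succ t ih =>
          intro ht
          have h3 := ih (by omega)
          rw [Nat.descFactorial_succ, Nat.descFactorial_succ, pow_succ]
          have h4 : n - t ≤ 4 * (K - s + e - t) := by omega
          calc (n - t) * n.descFactorial t
              ≤ (4 * (K - s + e - t)) * (4 ^ t * (K - s + e).descFactorial t) :=
                Nat.mul_le_mul h4 h3
            _ = 4 ^ t * 4 * ((K - s + e - t) * (K - s + e).descFactorial t) := by ring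
      exact hgen e le_rfl
    rw [Nat.descFactorial_eq_factorial_mul_choose, Nat.descFactorial_eq_factorial_mul_choose] at h2
    have h3 : e.factorial * n.choose e ≤ e.factorial * (4 ^ e * (K - s + e).choose e) := by
      calc _ ≤ _ := h2
        _ = _ := by ring
    exact Nat.le_of_mul_le_mul_left h3 e.factorial_pos
  have h2 : K.choose s * s.choose e = K.choose (s - e) * (K - s + e).choose e := by
    have h3 := Nat.choose_mul (n := K) (k := s) (s := s - e) (Nat.sub_le _ _)
    have h4 : s.choose (s - e) = s.choose e := Nat.choose_symm he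
    have h5 : K - (s - e) = K - s + e := by omega
    have h6 : s - (s - e) = e := by omega
    rw [h4, h5, h6] at h3
    exact h3
  calc n.choose e * K.choose (s - e) ≤ (4 ^ e * (K - s + e).choose e) * K.choose (s - e) :=
        Nat.mul_le_mul_right _ h1
    _ = 4 ^ e * (K.choose (s - e) * (K - s + e).choose e) := by ring
    _ = 4 ^ e * (s.choose e * K.choose s) := by rw [← h2]; ring

lemma few_outside2 {n K : ℕ} (Y : Finset (Fin n)) {s d : ℕ} (hY : Y.card ≤ K) (hs : 2 * s ≤ K)
    (hn : n ≤ 4 * (K - s)) (hd : d ≤ s) :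
    ((((univ : Finset (Fin n)).powersetCard s).filter (fun H => (H \ Y).card < d)).card : ℝ)
      ≤ 16 ^ d * (5 / 4) ^ s * K.choose s := by
  classical
  have hsub : ((univ : Finset (Fin n)).powersetCard s).filter (fun H => (H \ Y).card < d) ⊆
      (Finset.range d).biUnion (fun e => ((univ : Finset (Fin n)).powersetCard s).filter
        (fun H => (H \ Y).card = e)) := by
    intro H hH
    rw [Finset.mem_filter] at hH
    rw [Finset.mem_biUnion]
    exact ⟨(H \ Y).card, Finset.mem_range.2 hH.2, Finset.mem_filter.2 ⟨hH.1, rfl⟩⟩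
  have hterm : ∀ e ∈ Finset.range d, (((univ : Finset (Fin n)).powersetCard s).filter
        (fun H => (H \ Y).card = e)).card ≤ 4 ^ e * (s.choose e * K.choose s) := by
    intro e he
    rw [Finset.mem_range] at he
    have h1 : ((univ : Finset (Fin n)).powersetCard s).filter (fun H => (H \ Y).card = e) ⊆
        ((univ : Finset (Fin n)).powersetCard e ×ˢ Y.powersetCard (s - e)).image
          (fun p => p.1 ∪ p.2) := by
      intro H hH
      rw [Finset.mem_filter, Finset.mem_powersetCard] at hH
      rw [Finset.mem_image]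
      refine ⟨(H \ Y, H ∩ Y), ?_, Finset.sdiff_union_inter H Y⟩
      rw [Finset.mem_product, Finset.mem_powersetCard, Finset.mem_powersetCard]
      have h2 := Finset.card_sdiff_add_card_inter H Y
      refine ⟨⟨Finset.subset_univ _, hH.2⟩, Finset.inter_subset_right, ?_⟩
      simp only
      omega
    refine (Finset.card_le_card h1).trans (Finset.card_image_le.trans ?_)
    rw [Finset.card_product, Finset.card_powersetCard, Finset.card_powersetCard,
      Finset.card_univ, Fintype.card_fin]
    refine (Nat.mul_le_mul_left _ (Nat.choose_le_choose _ hY)).trans ?_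
    exact few_outside2_term hs hn (by omega)
  have h1 : (((univ : Finset (Fin n)).powersetCard s).filter (fun H => (H \ Y).card < d)).card ≤
      ∑ e ∈ Finset.range d, 4 ^ e * (s.choose e * K.choose s) :=
    (Finset.card_le_card hsub).trans (Finset.card_biUnion_le.trans (Finset.sum_le_sum hterm))
  have h2 : ((((univ : Finset (Fin n)).powersetCard s).filter
      (fun H => (H \ Y).card < d)).card : ℝ) ≤
      ∑ e ∈ Finset.range d, (4 : ℝ) ^ e * ((s.choose e : ℝ) * (K.choose s : ℝ)) := by
    exact_mod_cast h1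
  refine h2.trans ?_
  have h3 : ∀ e ∈ Finset.range d, (4 : ℝ) ^ e * ((s.choose e : ℝ) * (K.choose s : ℝ)) ≤
      (16 ^ d * (K.choose s : ℝ)) * ((1 / 4 : ℝ) ^ e * 1 ^ (s - e) * (s.choose e : ℝ)) := by
    intro e he
    rw [Finset.mem_range] at he
    have h4 : (4 : ℝ) ^ e = 16 ^ e * (1 / 4 : ℝ) ^ e := by
      rw [← mul_pow]; norm_num
    have h5 : (16 : ℝ) ^ e ≤ 16 ^ d := pow_le_pow_right₀ (by norm_num) he.le
    rw [h4, one_pow, mul_one]
    calc (16 : ℝ) ^ e * (1 / 4 : ℝ) ^ e * ((s.choose e : ℝ) * (K.choose s : ℝ))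
        = 16 ^ e * ((1 / 4 : ℝ) ^ e * ((s.choose e : ℝ) * (K.choose s : ℝ))) := by ring
      _ ≤ 16 ^ d * ((1 / 4 : ℝ) ^ e * ((s.choose e : ℝ) * (K.choose s : ℝ))) :=
          mul_le_mul_of_nonneg_right h5 (by positivity)
      _ = _ := by ring
  refine (Finset.sum_le_sum h3).trans ?_
  rw [← Finset.mul_sum]
  have h4 : ∑ e ∈ Finset.range d, ((1 / 4 : ℝ) ^ e * 1 ^ (s - e) * (s.choose e : ℝ)) ≤
      (5 / 4 : ℝ) ^ s := by
    have h5 : (5 / 4 : ℝ) ^ s = ∑ e ∈ Finset.range (s + 1),
        ((1 / 4 : ℝ) ^ e * 1 ^ (s - e) * (s.choose e : ℝ)) := by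
      rw [← add_pow]; norm_num
    rw [h5]
    refine Finset.sum_le_sum_of_subset_of_nonneg ?_ (fun i _ _ => by positivity)
    intro e he
    rw [Finset.mem_range] at he ⊢
    omega
  calc _ ≤ (16 ^ d * (K.choose s : ℝ)) * (5 / 4 : ℝ) ^ s :=
        mul_le_mul_of_nonneg_left h4 (by positivity)
    _ = _ := by ring

lemma half_count {n q : ℕ} (B : Finset (Fin n)) (hB : 5 * B.card ≤ 2 * n) :
    (((univ : Finset (Fin (2 * q) → Fin n)).filter
      (fun ω => q ≤ (univ.filter (fun a => ω a ∈ B)).card)).card : ℝ)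
      ≤ (24 / 25) ^ q * (n : ℝ) ^ (2 * q) := by
  classical
  set w : Fin n → ℝ := fun x => if x ∈ B then 3 / 2 else 1 with hw
  have hw0 : ∀ x, 0 ≤ w x := by
    intro x; simp only [hw]; split_ifs <;> norm_num
  have hprod : ∀ ω : Fin (2 * q) → Fin n, ∏ a, w (ω a) =
      (3 / 2 : ℝ) ^ (univ.filter (fun a => ω a ∈ B)).card := by
    intro ω
    simp only [hw]
    rw [Finset.prod_ite, Finset.prod_const, Finset.prod_const_one, mul_one]
  have hsum : ∑ ω : Fin (2 * q) → Fin n, ∏ a, w (ω a) = (∑ x, w x) ^ (2 * q) := by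
    rw [Finset.sum_pow']
    simp
  have hw1 : ∑ x, w x ≤ 6 / 5 * (n : ℝ) := by
    have h1 : ∑ x, w x = (n : ℝ) + (B.card : ℝ) / 2 := by
      have h2 : ∀ x, w x = 1 + (if x ∈ B then (1 / 2 : ℝ) else 0) := by
        intro x; simp only [hw]; split_ifs <;> norm_num
      rw [Finset.sum_congr rfl (fun x _ => h2 x), Finset.sum_add_distrib]
      rw [← Finset.sum_filter]
      simp
      ring
    have h3 : (5 : ℝ) * B.card ≤ 2 * n := by exact_mod_cast hB
    rw [h1]; linarith
  have hmain : (3 / 2 : ℝ) ^ q * (((univ : Finset (Fin (2 * q) → Fin n)).filter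
      (fun ω => q ≤ (univ.filter (fun a => ω a ∈ B)).card)).card : ℝ) ≤
      (6 / 5 * (n : ℝ)) ^ (2 * q) := by
    calc (3 / 2 : ℝ) ^ q * (((univ : Finset (Fin (2 * q) → Fin n)).filter
        (fun ω => q ≤ (univ.filter (fun a => ω a ∈ B)).card)).card : ℝ)
        = ∑ ω ∈ (univ : Finset (Fin (2 * q) → Fin n)).filter
          (fun ω => q ≤ (univ.filter (fun a => ω a ∈ B)).card), (3 / 2 : ℝ) ^ q := by
          rw [Finset.sum_const, nsmul_eq_mul, mul_comm]
      _ ≤ ∑ ω ∈ (univ : Finset (Fin (2 * q) → Fin n)).filter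
          (fun ω => q ≤ (univ.filter (fun a => ω a ∈ B)).card), ∏ a, w (ω a) := by
          refine Finset.sum_le_sum (fun ω hω => ?_)
          rw [Finset.mem_filter] at hω
          rw [hprod]
          exact pow_le_pow_right₀ (by norm_num) hω.2
      _ ≤ ∑ ω : Fin (2 * q) → Fin n, ∏ a, w (ω a) :=
          Finset.sum_le_sum_of_subset_of_nonneg (Finset.filter_subset _ _)
            (fun ω _ _ => Finset.prod_nonneg (fun a _ => hw0 _))
      _ = (∑ x, w x) ^ (2 * q) := hsum
      _ ≤ (6 / 5 * (n : ℝ)) ^ (2 * q) :=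
          pow_le_pow_left₀ (Finset.sum_nonneg (fun x _ => hw0 x)) hw1 _
  have h4 : (6 / 5 * (n : ℝ)) ^ (2 * q) = (3 / 2 : ℝ) ^ q * ((24 / 25) ^ q * (n : ℝ) ^ (2 * q)) := by
    have h5 : (6 / 5 : ℝ) ^ (2 * q) = (3 / 2 : ℝ) ^ q * (24 / 25) ^ q := by
      rw [pow_mul, ← mul_pow]
      norm_num
    rw [mul_pow, h5, mul_assoc]
  rw [h4] at hmain
  exact le_of_mul_le_mul_left hmain (by positivity)

lemma conflict_count {n q : ℕ} (g : Fin n → Fin n) :
    ((univ : Finset (Fin q → Fin n)).filter
      (fun ω => ∃ a a', a ≠ a' ∧ g (ω a) = ω a')).card * n ≤ q ^ 2 * n ^ q := by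
  classical
  have hsub : (univ : Finset (Fin q → Fin n)).filter (fun ω => ∃ a a', a ≠ a' ∧ g (ω a) = ω a') ⊆
      ((univ : Finset (Fin q × Fin q)).filter (fun p => p.1 ≠ p.2)).biUnion
        (fun p => (univ : Finset (Fin q → Fin n)).filter (fun ω => g (ω p.1) = ω p.2)) := by
    intro ω hω
    rw [Finset.mem_filter] at hω
    obtain ⟨-, a, a', h1, h2⟩ := hω
    rw [Finset.mem_biUnion]
    exact ⟨(a, a'), by simp [h1], by simp [h2]⟩
  have hterm : ∀ p ∈ (univ : Finset (Fin q × Fin q)).filter (fun p => p.1 ≠ p.2),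
      ((univ : Finset (Fin q → Fin n)).filter (fun ω => g (ω p.1) = ω p.2)).card * n ≤ n ^ q := by
    intro p hp
    rw [Finset.mem_filter] at hp
    have h1 : (((univ : Finset (Fin q → Fin n)).filter (fun ω => g (ω p.1) = ω p.2)) ×ˢ
        (univ : Finset (Fin n))).card ≤ (univ : Finset (Fin q → Fin n)).card := by
      apply Finset.card_le_card_of_injOn (fun x => Function.update x.1 p.2 x.2)
      · intro x _; simp
      · intro x hx y hy hxy
        simp only [Finset.coe_product, Set.mem_prod, Finset.mem_coe, Finset.mem_filter,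
          Finset.mem_univ, true_and, and_true] at hx hy
        simp only at hxy
        have h3 : x.2 = y.2 := by
          have := congrFun hxy p.2
          simpa using this
        have h4 : ∀ c, c ≠ p.2 → x.1 c = y.1 c := by
          intro c hc
          have := congrFun hxy c
          simpa [Function.update_of_ne hc] using this
        have h5 : x.1 p.2 = y.1 p.2 := by
          rw [← hx, ← hy, h4 p.1 hp.2]
        apply Prod.ext
        · funext c
          by_cases hc : c = p.2
          · rw [hc]; exact h5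
          · exact h4 c hc
        · exact h3
    rw [Finset.card_product] at h1
    simpa using h1
  calc _ ≤ (((univ : Finset (Fin q × Fin q)).filter (fun p => p.1 ≠ p.2)).biUnion
        (fun p => (univ : Finset (Fin q → Fin n)).filter (fun ω => g (ω p.1) = ω p.2))).card * n :=
        Nat.mul_le_mul_right _ (Finset.card_le_card hsub)
    _ ≤ (∑ p ∈ (univ : Finset (Fin q × Fin q)).filter (fun p => p.1 ≠ p.2),
        ((univ : Finset (Fin q → Fin n)).filter (fun ω => g (ω p.1) = ω p.2)).card) * n :=
        Nat.mul_le_mul_right _ Finset.card_biUnion_le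
    _ = ∑ p ∈ (univ : Finset (Fin q × Fin q)).filter (fun p => p.1 ≠ p.2),
        ((univ : Finset (Fin q → Fin n)).filter (fun ω => g (ω p.1) = ω p.2)).card * n := by
        rw [Finset.sum_mul]
    _ ≤ ∑ p ∈ (univ : Finset (Fin q × Fin q)).filter (fun p => p.1 ≠ p.2), n ^ q :=
        Finset.sum_le_sum hterm
    _ ≤ ∑ p : Fin q × Fin q, n ^ q :=
        Finset.sum_le_sum_of_subset (Finset.filter_subset _ _)
    _ = q ^ 2 * n ^ q := by
        simp [sq]


lemma indep_card {I Ω : Type*} [Fintype I] [DecidableEq I] [Fintype Ω] [DecidableEq Ω]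
    (A B : Finset (I → Ω)) (S : Finset I)
    (hA : ∀ t t' : I → Ω, (∀ z, z ∉ S → t z = t' z) → t ∈ A → t' ∈ A)
    (hB : ∀ t t' : I → Ω, (∀ z ∈ S, t z = t' z) → t ∈ B → t' ∈ B) :
    (A ∩ B).card * Fintype.card (I → Ω) = A.card * B.card := by
  rw [← Finset.card_univ, ← Finset.card_product, ← Finset.card_product]
  set sw : (I → Ω) × (I → Ω) → (I → Ω) × (I → Ω) := fun x =>
    (fun z => if z ∈ S then x.2 z else x.1 z, fun z => if z ∈ S then x.1 z else x.2 z) with hsw
  have hinv : ∀ x, sw (sw x) = x := by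
    intro x
    simp only [hsw]
    apply Prod.ext
    · funext z
      by_cases hz : z ∈ S <;> simp [hz]
    · funext z
      by_cases hz : z ∈ S <;> simp [hz]
  apply Finset.card_bij' (fun x _ => sw x) (fun x _ => sw x)
  · intro x hx
    rw [Finset.mem_product, Finset.mem_inter] at hx
    rw [Finset.mem_product]
    refine ⟨hA x.1 _ (fun z hz => ?_) hx.1.1, hB x.1 _ (fun z hz => ?_) hx.1.2⟩
    · simp [hsw, hz]
    · simp [hsw, hz]
  · intro x hx
    rw [Finset.mem_product] at hx
    rw [Finset.mem_product, Finset.mem_inter]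
    refine ⟨⟨hA x.1 _ (fun z hz => ?_) hx.1, hB x.2 _ (fun z hz => ?_) hx.2⟩, Finset.mem_univ _⟩
    · simp [hsw, hz]
    · simp [hsw, hz]
  · intro x _; exact hinv x
  · intro x _; exact hinv x


lemma fiber_bound {I Ω : Type*} [Fintype I] [DecidableEq I] [Fintype Ω] [DecidableEq Ω]
    (A : Finset (I → Ω)) (z : I) (η : ℝ)
    (h : ∀ t : I → Ω, ((univ.filter (fun ω : Ω => Function.update t z ω ∈ A)).card : ℝ)
      ≤ η * Fintype.card Ω) :
    (A.card : ℝ) ≤ η * Fintype.card (I → Ω) := by
  rcases isEmpty_or_nonempty Ω with hΩ | hΩ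
  · have h1 : IsEmpty (I → Ω) := ⟨fun t => hΩ.false (t z)⟩
    have h2 : A = ∅ := Finset.eq_empty_of_isEmpty A
    rw [h2, Fintype.card_eq_zero]
    simp
  have h1 : A.card * Fintype.card Ω ≤
      ∑ t : I → Ω, (univ.filter (fun ω : Ω => Function.update t z ω ∈ A)).card := by
    rw [← Finset.card_univ (α := Ω), ← Finset.card_product, ← Finset.card_sigma]
    apply Finset.card_le_card_of_injOn
      (fun x => (⟨Function.update x.1 z x.2, x.1 z⟩ : (_ : I → Ω) × Ω))
    · intro x hx
      simp only [Finset.coe_product, Set.mem_prod, Finset.mem_coe, Finset.mem_univ,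
        and_true] at hx
      simp only [Finset.coe_sigma, Set.mem_sigma_iff, Finset.mem_coe, Finset.mem_univ, true_and,
        Finset.mem_filter]
      simpa using hx
    · intro x hx y hy hxy
      simp only [Sigma.mk.injEq, heq_eq_eq] at hxy
      obtain ⟨h2, h3⟩ := hxy
      have h4 : x.2 = y.2 := by
        have := congrFun h2 z
        simpa using this
      apply Prod.ext
      · funext c
        by_cases hc : c = z
        · rw [hc]; exact h3
        · have := congrFun h2 c
          simpa [Function.update_of_ne hc] using this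
      · exact h4
  have h2 : (A.card : ℝ) * Fintype.card Ω ≤
      ∑ t : I → Ω, ((univ.filter (fun ω : Ω => Function.update t z ω ∈ A)).card : ℝ) := by
    exact_mod_cast h1
  have h3 : (A.card : ℝ) * Fintype.card Ω ≤ (η * Fintype.card (I → Ω)) * Fintype.card Ω := by
    calc _ ≤ _ := h2
      _ ≤ ∑ t : I → Ω, η * Fintype.card Ω := Finset.sum_le_sum (fun t _ => h t)
      _ = (η * Fintype.card (I → Ω)) * Fintype.card Ω := by
        rw [Finset.sum_const, Finset.card_univ, nsmul_eq_mul]; ring
  exact le_of_mul_le_mul_right h3 (by exact_mod_cast Fintype.card_pos)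

end Pool.Agent.Work.MP_5c4cbf_co
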