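import Pool.Agent.Work.MP_5c4cbf_co.TCore

/-! Binomial estimates. -/

namespace Pool.Agent.Work.MP_5c4cbf_co

open Finset

variable {n K : ℕ}

lemma choose_mono_half {K s t : ℕ} (hst : t ≤ s) (hs : 2 * s ≤ K) : K.choose t ≤ K.choose s := by
  induction s with
  | zero =>
    have : t = 0 := by omega
    subst this
    exact le_rfl
  | succ s ih =>
    rcases Nat.lt_or_ge t (s + 1) with h | h
    · refine (ih (by omega) (by omega)).trans ?_
      apply Nat.choose_le_succ_of_lt_half_left
      omega
    · have : t = s + 1 := by omega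
      subst this
      exact le_rfl

lemma few_outside (Y : Finset (Fin n)) {s d : ℕ} (hn : 1 ≤ n) (hY : Y.card ≤ K) (hs : 2 * s ≤ K) :
    (((univ : Finset (Fin n)).powersetCard s).filter (fun H => (H \ Y).card < d)).card
      ≤ d * (n ^ d * K.choose s) := by
  classical
  have hsub : ((univ : Finset (Fin n)).powersetCard s).filter (fun H => (H \ Y).card < d) ⊆
      (Finset.range d).biUnion (fun e => ((univ : Finset (Fin n)).powersetCard s).filter
        (fun H => (H \ Y).card = e)) := by
    intro H hH
    rw [Finset.mem_filter] at hH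
    rw [Finset.mem_biUnion]
    exact ⟨(H \ Y).card, Finset.mem_range.2 hH.2, Finset.mem_filter.2 ⟨hH.1, rfl⟩⟩
  refine (Finset.card_le_card hsub).trans (Finset.card_biUnion_le.trans ?_)
  have hterm : ∀ e ∈ Finset.range d, (((univ : Finset (Fin n)).powersetCard s).filter
        (fun H => (H \ Y).card = e)).card ≤ n ^ d * K.choose s := by
    intro e he
    rw [Finset.mem_range] at he
    have h1 : ((univ : Finset (Fin n)).powersetCard s).filter (fun H => (H \ Y).card = e) ⊆
        ((univ : Finset (Fin n)).powersetCard e ×ˢ Y.powersetCard (s - e)).image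
          (fun p => p.1 ∪ p.2) := by
      intro H hH
      rw [Finset.mem_filter, Finset.mem_powersetCard] at hH
      rw [Finset.mem_image]
      refine ⟨(H \ Y, H ∩ Y), ?_, Finset.sdiff_union_inter H Y⟩
      rw [Finset.mem_product, Finset.mem_powersetCard, Finset.mem_powersetCard]
      have h2 := Finset.card_sdiff_add_card_inter H Y
      refine ⟨⟨Finset.subset_univ _, hH.2⟩, Finset.inter_subset_right, ?_⟩
      simp only
      omega
    refine (Finset.card_le_card h1).trans (Finset.card_image_le.trans ?_)
    rw [Finset.card_product, Finset.card_powersetCard, Finset.card_powersetCard,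
      Finset.card_univ, Fintype.card_fin]
    apply Nat.mul_le_mul
    · exact (Nat.choose_le_pow _ _).trans (Nat.pow_le_pow_right hn he.le)
    · exact (Nat.choose_le_choose _ hY).trans (choose_mono_half (Nat.sub_le _ _) hs)
  refine (Finset.sum_le_sum hterm).trans ?_
  simp

/-- `C(n-K, s) ≤ C(K, s) c^s` when `n - K - i ≤ c (K - i)` for all `i < s`. -/
lemma choose_le_of_ratio {a K s : ℕ} {c : ℝ} (hc : 0 ≤ c) (hs : s ≤ K)
    (h : ∀ i, i < s → ((a : ℝ) - i) ≤ c * (K - i)) :
    (a.choose s : ℝ) ≤ K.choose s * c ^ s := by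
  have h1 : ∀ t, t ≤ s → (a.descFactorial t : ℝ) ≤ K.descFactorial t * c ^ t := by
    intro t
    induction t with
    | zero => intro _; simp
    | succ t ih =>
      intro ht
      have h2 := ih (by omega)
      rw [Nat.descFactorial_succ, Nat.descFactorial_succ, pow_succ]
      push_cast
      have h3 : ((K - t : ℕ) : ℝ) = (K : ℝ) - t := by
        rw [Nat.cast_sub (by omega)]
      have h4 : ((a - t : ℕ) : ℝ) ≤ c * (K - t) := by
        rcases Nat.lt_or_ge a t with h5 | h5
        · rw [Nat.sub_eq_zero_of_le h5.le]
          have : (0 : ℝ) ≤ (K : ℝ) - t := by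
            have : (t : ℝ) ≤ K := by exact_mod_cast (by omega : t ≤ K)
            linarith
          push_cast
          positivity
        · rw [Nat.cast_sub h5]
          exact h t (by omega)
      rw [h3]
      have h6 : (0 : ℝ) ≤ ((a - t : ℕ) : ℝ) := by positivity
      have h7 : (0 : ℝ) ≤ (a.descFactorial t : ℝ) := by positivity
      calc ((a - t : ℕ) : ℝ) * (a.descFactorial t : ℝ)
          ≤ (c * (K - t)) * (K.descFactorial t * c ^ t) := mul_le_mul h4 h2 h7 (h6.trans h4)
        _ = (K - t) * K.descFactorial t * (c ^ t * c) := by ring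
  have h2 := h1 s le_rfl
  have h3 : (a.descFactorial s : ℝ) = s.factorial * a.choose s := by
    exact_mod_cast Nat.descFactorial_eq_factorial_mul_choose a s
  have h4 : (K.descFactorial s : ℝ) = s.factorial * K.choose s := by
    exact_mod_cast Nat.descFactorial_eq_factorial_mul_choose K s
  rw [h3, h4] at h2
  have h5 : (0 : ℝ) < s.factorial := by exact_mod_cast Nat.factorial_pos s
  have h6 : (s.factorial : ℝ) * a.choose s ≤ s.factorial * (K.choose s * c ^ s) := by
    calc _ ≤ _ := h2
      _ = _ := by ring
  exact le_of_mul_le_mul_left h6 h5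

lemma card_emb_le : Fintype.card (Fin K × Bool ↪ Fin n) ≤ n ^ (2 * K) := by
  rw [Fintype.card_embedding_eq]
  simp only [Fintype.card_fin, Fintype.card_prod, Fintype.card_bool]
  rw [mul_comm K 2]
  exact Nat.descFactorial_le_pow _ _

lemma pt_le (hK : 2 * K ≤ n) (s : ℕ) : K.choose s * 2 ^ s ≤ n.choose s := by
  obtain ⟨m, -⟩ := exists_label (n := n) (k := K) (Y := Finset.univ) (by simpa using hK)
  refine (PT_card m s).trans ?_
  rw [PT]
  refine (Finset.card_le_card (Finset.filter_subset _ _)).trans ?_
  simp

end Pool.Agent.Work.MP_5c4cbf_co
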