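import Pool.Agent.Work.MP_5c4cbf_co.TQ2
import Pool.Agent.Work.MP_5c4cbf_co.TBin

/-! The choice of the parameters for the error term `sqrt (n log n)`. -/

namespace Pool.Agent.Work.MP_5c4cbf_co

open Finset

lemma cube_le_two_pow (l : ℕ) (hl : 30 ≤ l) : 13200 * l ^ 3 ≤ 2 ^ (l - 1) := by
  induction l, hl using Nat.le_induction with
  | base => norm_num
  | succ l hl ih =>
    have h : l + 1 - 1 = (l - 1) + 1 := by omega
    rw [h, pow_succ 2 (l - 1)]
    have h2 : (l + 1) ^ 3 ≤ 2 * l ^ 3 := by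
      have h3 : 3 * l ^ 2 + 3 * l + 1 ≤ l ^ 3 := by
        have h4 : 30 * l ^ 2 ≤ l ^ 3 := by
          rw [pow_succ l 2, mul_comm]
          exact Nat.mul_le_mul_left _ hl
        nlinarith
      have h5 : (l + 1) ^ 3 = l ^ 3 + (3 * l ^ 2 + 3 * l + 1) := by ring
      omega
    omega

structure Par2 (r n l : ℕ) : Prop where
  hl : 30 ≤ l
  hr : 4 * l ≤ r
  hn1 : 825 * ((r - 1) ^ 2 * l) < n
  hn2 : n ≤ 825 * (r ^ 2 * l)
  hnl : n ≤ 2 ^ l
  hnl2 : 2 ^ (l - 1) < n

lemma exp_neg_le' (t : ℝ) (m : ℕ) (h : (m : ℝ) ≤ t) : Real.exp (-t) ≤ 1 / 2 ^ m := by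
  have h1 : Real.exp (-t) ≤ Real.exp (-(m : ℝ)) := Real.exp_le_exp.2 (by linarith)
  refine h1.trans ?_
  rw [Real.exp_neg, ← one_div]
  apply one_div_le_one_div_of_le (by positivity)
  have h2 : (2 : ℝ) ≤ Real.exp 1 := by
    have := Real.exp_one_gt_d9
    linarith
  have h3 : Real.exp (m : ℝ) = (Real.exp 1) ^ m := by
    rw [← Real.exp_nat_mul]
    simp
  rw [h3]
  exact pow_le_pow_left₀ (by norm_num) h2 m

variable {r n l : ℕ}

lemma Par2.n_ge (h : Par2 r n l) : 800 * (r ^ 2 * l) ≤ n := by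
  have h1 := h.hl
  have h2 := h.hn1
  have h3 := h.hr
  obtain ⟨t, rfl⟩ : ∃ t, r = t + 1 := ⟨r - 1, by omega⟩
  simp only [Nat.add_sub_cancel] at h2
  have h4 : 800 * (t + 1) ^ 2 ≤ 825 * t ^ 2 := by nlinarith
  have h5 : 800 * ((t + 1) ^ 2 * l) ≤ 825 * (t ^ 2 * l) := by
    calc 800 * ((t + 1) ^ 2 * l) = (800 * (t + 1) ^ 2) * l := by ring
      _ ≤ (825 * t ^ 2) * l := Nat.mul_le_mul_right _ h4
      _ = _ := by ring
  omega

lemma Par2.w_le (h : Par2 r n l) : 96000 * (r * l) ≤ n := by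
  have h1 := h.n_ge
  have h2 := h.hl
  have h3 := h.hr
  have h4 : 120 * (r * l) ≤ r ^ 2 * l := by
    rw [pow_two, mul_assoc]
    exact Nat.mul_le_mul_right _ (by omega)
  omega

lemma Par2.wl_le (h : Par2 r n l) : 3200 * (r * l ^ 2) ≤ n := by
  have h1 := h.n_ge
  have h3 := h.hr
  have h4 : 4 * (r * l ^ 2) ≤ r ^ 2 * l := by
    calc 4 * (r * l ^ 2) = (4 * l) * (r * l) := by ring
      _ ≤ r * (r * l) := Nat.mul_le_mul_right _ h3
      _ = r ^ 2 * l := by ring
  omega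

lemma Par2.card_le (h : Par2 r n l) {K : ℕ} (hK : 2 * K ≤ n) :
    (Fintype.card (Fin K × Bool ↪ Fin n) : ℝ) ≤ 2 ^ (l * n) := by
  have h1 : Fintype.card (Fin K × Bool ↪ Fin n) ≤ 2 ^ (l * n) := by
    refine card_emb_le.trans ?_
    have hn : 1 ≤ n := by
      have := h.hn1
      omega
    calc n ^ (2 * K) ≤ n ^ n := Nat.pow_le_pow_right hn hK
      _ ≤ (2 ^ l) ^ n := Nat.pow_le_pow_left h.hnl n
      _ = 2 ^ (l * n) := by rw [← pow_mul]
  exact_mod_cast h1

/-- The ratio estimate. -/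
lemma ratio2 {n K s : ℕ} (hK1 : n + 3 * s ≤ 3 * K) (hK3 : 2 * K ≤ n)
    (_hs : 2 * s ≤ K) (hn : 1 ≤ n) :
    (((n - K).choose s : ℕ) : ℝ) ≤ K.choose s * 2 ^ s * Real.exp (-(2 * s ^ 2 / n : ℝ)) := by
  have hn0 : (0 : ℝ) < n := by exact_mod_cast hn
  have hsn : 2 * (s : ℝ) ≤ n := by exact_mod_cast (by omega : 2 * s ≤ n)
  have h4 : (0 : ℝ) ≤ 1 - 2 * s / n := by
    have : 2 * (s : ℝ) / n ≤ 1 := by
      rw [div_le_one hn0]
      exact hsn
    linarith
  have h1 : (((n - K).choose s : ℕ) : ℝ) ≤ K.choose s * (2 * (1 - 2 * s / n)) ^ s := by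
    apply choose_le_of_ratio
    · linarith
    · omega
    · intro i hi
      rw [Nat.cast_sub (by omega)]
      have hir : (i : ℝ) ≤ s := by exact_mod_cast hi.le
      have hi0 : (0 : ℝ) ≤ i := by positivity
      have hK1r : (n : ℝ) + 3 * s ≤ 3 * K := by exact_mod_cast hK1
      have hK3r : 2 * (K : ℝ) ≤ n := by exact_mod_cast hK3
      have h2 : 4 * s * ((K : ℝ) - i) / n ≤ 2 * s := by
        rw [div_le_iff₀ hn0]
        have hs0 : (0 : ℝ) ≤ s := by positivity
        nlinarith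
      have h3 : 2 * (1 - 2 * s / (n : ℝ)) * ((K : ℝ) - i)
          = 2 * (K - i) - 4 * s * ((K : ℝ) - i) / n := by
        ring
      rw [h3]
      linarith
  refine h1.trans ?_
  rw [mul_pow, mul_assoc]
  apply mul_le_mul_of_nonneg_left _ (by positivity)
  apply mul_le_mul_of_nonneg_left _ (by positivity)
  have h5 : (1 : ℝ) - 2 * s / n ≤ Real.exp (-(2 * s / n)) := by
    have := Real.add_one_le_exp (-(2 * (s : ℝ) / n))
    linarith
  calc (1 - 2 * s / (n : ℝ)) ^ s ≤ Real.exp (-(2 * s / n)) ^ s := pow_le_pow_left₀ h4 h5 _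
    _ = Real.exp (-(2 * s ^ 2 / n : ℝ)) := by
      rw [← Real.exp_nat_mul]
      congr 1
      ring

theorem Par2.kStar_lt (h : Par2 r n l) : kStar n < (n + 3 * (1650 * (r * l)) + 2) / 3 := by
  have hl := h.hl
  have hr := h.hr
  have hw := h.w_le
  have hwl := h.wl_le
  have hln : l ≤ r * l := Nat.le_mul_of_pos_left _ (by omega)
  have hrn : 30 * r ≤ r * l := by
    rw [mul_comm]
    exact Nat.mul_le_mul_left _ hl
  have hlw : 120 * l ≤ r * l := Nat.mul_le_mul_right _ (by omega)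
  set w := r * l with hwd
  set s := 1650 * w with hs
  set K := (n + 3 * s + 2) / 3 with hKdef
  have hK1 : n + 3 * s ≤ 3 * K := by omega
  have hK3 : 2 * K ≤ n := by omega
  have hK4 : 2 * s ≤ K := by omega
  have hn1 : 1 ≤ n := by omega
  have hn0 : (0 : ℝ) < n := by exact_mod_cast hn1
  set q := 17 * l with hq
  set d := 2 * l + 3 with hd
  set Ln := (2 * r + 1) * (l * n + 1) with hLn
  have hL5 : 5 * Ln ≤ 2 ^ (3 * l + 6) := by
    have h1 : 2 * r + 1 ≤ 2 ^ (l + 2) := by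
      have := h.hnl
      rw [pow_add]
      omega
    have h2 : l * n + 1 ≤ 2 ^ (2 * l + 1) := by
      have h3 : l * n ≤ 2 ^ l * 2 ^ l := Nat.mul_le_mul (Nat.lt_two_pow_self).le h.hnl
      have h4 : 2 ^ l * 2 ^ l = 2 ^ (2 * l) := by rw [← pow_add]; congr 1; ring
      have h5 : 1 ≤ 2 ^ (2 * l) := Nat.one_le_two_pow
      rw [pow_succ]
      omega
    calc 5 * Ln ≤ 2 ^ 3 * (2 ^ (l + 2) * 2 ^ (2 * l + 1)) :=
          Nat.mul_le_mul (by norm_num) (Nat.mul_le_mul h1 h2)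
      _ = 2 ^ (3 * l + 6) := by
          rw [← pow_add, ← pow_add]
          congr 1
          ring
  have hL5r : 5 * (Ln : ℝ) ≤ 2 ^ (3 * l + 6) := by exact_mod_cast hL5
  have hLge : l * n + 2 ≤ Ln := by
    have : 2 * (l * n + 1) ≤ Ln := Nat.mul_le_mul_right _ (by omega)
    omega
  set cn : ℝ := (n.choose s : ℝ) with hcn
  set ck : ℝ := (K.choose s : ℝ) with hck
  have hcn0 : 0 < n.choose s := Nat.choose_pos (by omega)
  have hck0 : 1 ≤ K.choose s := Nat.choose_pos (by omega)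
  have hcnr : (0 : ℝ) < cn := by rw [hcn]; exact_mod_cast hcn0
  have hckr : (1 : ℝ) ≤ ck := by rw [hck]; exact_mod_cast hck0
  have h2s : (1 : ℝ) ≤ 2 ^ s := one_le_pow₀ (by norm_num)
  have hcks : (1 : ℝ) ≤ ck * 2 ^ s := by nlinarith
  set p : ℝ := ck * 2 ^ s / cn with hp
  have hp0 : 0 < p := by positivity
  have hp1 : p ≤ 1 := by
    rw [hp, div_le_one hcnr]
    have := pt_le (n := n) hK3 s
    rw [hck, hcn]
    exact_mod_cast this
  have hcn2 : cn ≤ 2 ^ n := by
    rw [hcn]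
    exact_mod_cast Nat.choose_le_two_pow n s
  have hL1 : (1 : ℝ) ≤ Ln := by
    have : 1 ≤ Ln := by omega
    exact_mod_cast this
  set N := ⌈4 * (Ln : ℝ) / p⌉₊ with hN
  have hN1 : 4 * (Ln : ℝ) / p ≤ N := Nat.le_ceil _
  have hLp : 1 ≤ (Ln : ℝ) / p := by
    rw [le_div_iff₀ hp0]
    linarith
  have hN2 : (N : ℝ) ≤ 5 * (Ln : ℝ) / p := by
    have h1 : (N : ℝ) < 4 * (Ln : ℝ) / p + 1 := Nat.ceil_lt_add_one (by positivity)
    have h2 : 5 * (Ln : ℝ) / p = 4 * (Ln : ℝ) / p + (Ln : ℝ) / p := by ring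
    rw [h2]
    linarith
  have hN3 : (N : ℝ) ≤ 5 * Ln * cn / (ck * 2 ^ s) := by
    refine hN2.trans (le_of_eq ?_)
    rw [hp]
    field_simp
  have hexp : Real.exp (-(2 * s ^ 2 / n : ℝ)) ≤ 1 / 2 ^ (4 * l) := by
    apply exp_neg_le'
    rw [le_div_iff₀ hn0]
    have h1 : (n : ℝ) ≤ 825 * ((r : ℝ) ^ 2 * l) := by exact_mod_cast h.hn2
    have hsr : (s : ℝ) = 1650 * (r * l) := by rw [hs, hwd]; push_cast; ring
    rw [hsr]
    push_cast
    have h2 : 4 * (l : ℝ) * n ≤ 4 * l * (825 * ((r : ℝ) ^ 2 * l)) :=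
      mul_le_mul_of_nonneg_left h1 (by positivity)
    have h3 : 0 ≤ ((r : ℝ) * l) ^ 2 := by positivity
    nlinarith
  have hNq : (N : ℝ) * (((n - K).choose s : ℕ) / cn) ≤ 1 / 4 := by
    have h1 := ratio2 hK1 hK3 hK4 hn1
    calc (N : ℝ) * (((n - K).choose s : ℕ) / cn)
        ≤ (5 * Ln * cn / (ck * 2 ^ s)) * (((n - K).choose s : ℕ) / cn) :=
          mul_le_mul_of_nonneg_right hN3 (by positivity)
      _ ≤ (5 * Ln * cn / (ck * 2 ^ s)) * ((ck * 2 ^ s * Real.exp (-(2 * s ^ 2 / n : ℝ))) / cn) := by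
          apply mul_le_mul_of_nonneg_left _ (by positivity)
          exact div_le_div_of_nonneg_right h1 hcnr.le
      _ = 5 * Ln * Real.exp (-(2 * s ^ 2 / n : ℝ)) := by
          field_simp
      _ ≤ 2 ^ (3 * l + 6) * (1 / 2 ^ (4 * l)) :=
          mul_le_mul hL5r hexp (Real.exp_pos _).le (by positivity)
      _ ≤ 1 / 4 := by
          rw [mul_one_div, div_le_div_iff₀ (by positivity) (by norm_num), one_mul]
          have : (2 : ℝ) ^ (3 * l + 6) * 4 = 2 ^ (3 * l + 6 + 2) := by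
            rw [pow_add (2 : ℝ) (3 * l + 6) 2]; norm_num
          rw [this]
          exact pow_le_pow_right₀ (by norm_num) (by omega)
  have hemb := h.card_le hK3
  have h2q : r * (2 * q) = 34 * w := by rw [hq, hwd]; ring
  set D := d + 2 * (r * (2 * q)) with hD
  have hDv : D = 2 * l + 3 + 68 * w := by rw [hD, h2q, hd]; omega
  have h54 : ((5 : ℝ) / 4) ^ s ≤ 2 ^ (550 * w) := by
    have h1 : s = 3 * (550 * w) := by omega
    rw [h1, pow_mul]
    exact pow_le_pow_left₀ (by norm_num) (by norm_num) _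
  have hnum : NumE n K s N r d (r * (2 * q)) Ln K p ((((n - K).choose s : ℕ) : ℝ) / cn)
      (2 ^ (825 * w)) (16 ^ D * (5 / 4) ^ s * ck) := by
    refine ⟨by omega, hcn0, ?_, by positivity, ?_, one_le_pow₀ (by norm_num), by omega, ?_, ?_, ?_,
      ?_, ?_⟩
    · rw [hp, ← hcn, ← hck]
      apply le_of_eq
      field_simp
    · rw [← hcn]
      apply le_of_eq
      field_simp
    · intro Y hY
      exact few_outside2 Y hY hK4 (by omega) (by omega)
    · -- hN
      have h1 : (16 : ℝ) ^ D = 2 ^ (4 * D) := by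
        rw [pow_mul]
        norm_num
      have h5 : (5 * (Ln : ℝ)) * 2 ^ (825 * w) * (16 ^ D * (5 / 4) ^ s) ≤ 2 ^ s := by
        calc (5 * (Ln : ℝ)) * 2 ^ (825 * w) * (16 ^ D * (5 / 4) ^ s)
            ≤ 2 ^ (3 * l + 6) * 2 ^ (825 * w) * (2 ^ (4 * D) * 2 ^ (550 * w)) := by
              rw [h1]
              apply mul_le_mul _ _ (by positivity) (by positivity)
              · exact mul_le_mul_of_nonneg_right hL5r (by positivity)
              · exact mul_le_mul_of_nonneg_left h54 (by positivity)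
          _ = 2 ^ (3 * l + 6 + 825 * w + (4 * D + 550 * w)) := by
              rw [← pow_add, ← pow_add, ← pow_add]
          _ ≤ 2 ^ s := pow_le_pow_right₀ (by norm_num) (by omega)
      calc (N : ℝ) * (2 ^ (825 * w) * (16 ^ D * (5 / 4) ^ s * ck))
          ≤ (5 * Ln * cn / (ck * 2 ^ s)) * (2 ^ (825 * w) * (16 ^ D * (5 / 4) ^ s * ck)) :=
            mul_le_mul_of_nonneg_right hN3 (by positivity)
        _ = ((5 * (Ln : ℝ)) * 2 ^ (825 * w) * (16 ^ D * (5 / 4) ^ s)) / 2 ^ s * cn := by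
            field_simp
        _ ≤ 1 * cn := by
            apply mul_le_mul_of_nonneg_right _ hcnr.le
            rw [div_le_one (by positivity)]
            exact h5
        _ = n.choose s := by rw [one_mul]
    · -- a1
      have h1 : 2 * (Ln : ℝ) ≤ p * N / 2 := by
        have := mul_le_mul_of_nonneg_left hN1 hp0.le
        have h2 : p * (4 * (Ln : ℝ) / p) = 4 * Ln := by field_simp
        rw [h2] at this
        linarith
      have h4 : Real.exp (Ln - p * N / 2) ≤ 1 / 2 ^ (l * n + 2) := by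
        have h5 : ((l * n + 2 : ℕ) : ℝ) ≤ Ln := by exact_mod_cast hLge
        refine le_trans (Real.exp_le_exp.2 (by linarith)) (exp_neg_le' (Ln : ℝ) _ h5)
      calc _ ≤ (2 : ℝ) ^ (l * n) * (1 / 2 ^ (l * n + 2)) :=
            mul_le_mul hemb h4 (Real.exp_pos _).le (by positivity)
        _ = 1 / 4 := by
            rw [pow_add]
            field_simp
            norm_num
        _ ≤ 1 / 4 := le_rfl
    · -- a2
      have h1 : n + 4 ≤ 825 * w * (r + 1) := by
        have h2 := h.hn2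
        have h3 : 825 * w * (r + 1) = 825 * (r ^ 2 * l) + 825 * w := by rw [hwd]; ring
        omega
      have h2 : Real.exp 1 ≤ 4 := by
        have := Real.exp_one_lt_d9
        linarith
      have h3 : ((2 : ℝ) ^ (825 * w)) ^ (r + 1) = 2 ^ (825 * w * (r + 1)) := by rw [← pow_mul]
      rw [h3]
      have h4 : (2 : ℝ) ^ (n + 4) ≤ 2 ^ (825 * w * (r + 1)) := pow_le_pow_right₀ (by norm_num) h1
      have h5 : (2 : ℝ) ^ n * Real.exp 1 ≤ 2 ^ n * 4 :=
        mul_le_mul_of_nonneg_left h2 (by positivity)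
      rw [pow_add] at h4
      have h6 : (0 : ℝ) < 2 ^ n := by positivity
      linarith
    · -- a3
      have h1 : 2 * (2 : ℝ) ^ d * ((((n - K).choose s : ℕ) : ℝ) / cn) * N - 2 ^ d ≤
          -(2 ^ d / 2) := by
        have h2 : (0 : ℝ) < 2 ^ d := by positivity
        nlinarith
      have h3 : (l * n + (3 * l + 6 + n) + n + 2 : ℕ) ≤ 4 * 2 ^ (2 * l) := by
        have h4 : l * n ≤ 2 ^ l * 2 ^ l := Nat.mul_le_mul (Nat.lt_two_pow_self).le h.hnl
        have h5 : 2 ^ l * 2 ^ l = 2 ^ (2 * l) := by rw [← pow_add]; congr 1; ring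
        have h6 : n ≤ 2 ^ (2 * l) := h.hnl.trans (Nat.pow_le_pow_right (by norm_num) (by omega))
        omega
      have h4 : (2 : ℝ) ^ d / 2 = 4 * 2 ^ (2 * l) := by
        rw [hd, pow_add]
        norm_num
        ring
      have h5 : Real.exp (2 * 2 ^ d * ((((n - K).choose s : ℕ) : ℝ) / cn) * N - 2 ^ d) ≤
          1 / 2 ^ (l * n + (3 * l + 6 + n) + n + 2) := by
        refine le_trans (Real.exp_le_exp.2 h1) (exp_neg_le' _ _ ?_)
        rw [h4]
        exact_mod_cast h3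
      have h6 : (N : ℝ) ≤ 2 ^ (3 * l + 6 + n) := by
        calc (N : ℝ) ≤ 5 * Ln * cn / (ck * 2 ^ s) := hN3
          _ ≤ 5 * Ln * cn / 1 := by
              apply div_le_div_of_nonneg_left (by positivity) (by norm_num) hcks
          _ ≤ 2 ^ (3 * l + 6) * 2 ^ n := by
              rw [div_one]
              exact mul_le_mul hL5r hcn2 hcnr.le (by positivity)
          _ = 2 ^ (3 * l + 6 + n) := by rw [← pow_add]
      calc _ ≤ (2 : ℝ) ^ (l * n) * 2 ^ (3 * l + 6 + n) * 2 ^ n *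
              (1 / 2 ^ (l * n + (3 * l + 6 + n) + n + 2)) := by
            apply mul_le_mul _ h5 (Real.exp_pos _).le (by positivity)
            apply mul_le_mul_of_nonneg_right _ (by positivity)
            exact mul_le_mul hemb h6 (by positivity) (by positivity)
        _ = 1 / 4 := by
            rw [pow_add (2 : ℝ) (l * n + (3 * l + 6 + n) + n) 2,
              pow_add (2 : ℝ) (l * n + (3 * l + 6 + n)) n,
              pow_add (2 : ℝ) (l * n) (3 * l + 6 + n)]
            field_simp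
            norm_num
        _ ≤ 1 / 4 := le_rfl
  have h5 : 5 * (n - 2 * K + 2 * s + r * (2 * q)) ≤ 2 * n := by
    rw [h2q]
    omega
  have hη : (r : ℝ) * ((2 * q) ^ 2 / n + (24 / 25) ^ q) ≤ 1 / 2 := by
    have h1 : ((24 : ℝ) / 25) ^ q ≤ 1 / n := by
      have h2 : ((24 : ℝ) / 25) ^ q ≤ (1 / 2) ^ l := by
        rw [hq, pow_mul]
        exact pow_le_pow_left₀ (by norm_num) (by norm_num) _
      refine h2.trans ?_
      rw [one_div_pow]
      apply one_div_le_one_div_of_le hn0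
      exact_mod_cast h.hnl
    have h2 : (r : ℝ) * ((2 * q) ^ 2 / n + 1 / n) ≤ 1 / 2 := by
      have h3 : (r : ℝ) * ((2 * q) ^ 2 / n + 1 / n) = (r * ((2 * q) ^ 2 + 1)) / n := by
        ring
      rw [h3, div_le_div_iff₀ hn0 (by norm_num)]
      have h4 : (q : ℝ) = 17 * l := by rw [hq]; push_cast; ring
      rw [h4]
      have h6 : 3200 * ((r : ℝ) * (l : ℝ) ^ 2) ≤ n := by exact_mod_cast hwl
      have h7 : (1 : ℝ) ≤ (l : ℝ) ^ 2 := by
        have : (30 : ℝ) ≤ l := by exact_mod_cast hl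
        nlinarith
      have h8 : (0 : ℝ) ≤ r := by positivity
      nlinarith
    refine le_trans ?_ h2
    apply mul_le_mul_of_nonneg_left _ (by positivity)
    linarith
  have hcoin : (Fintype.card (Fin K × Bool ↪ Fin n) : ℝ) * (1 / 2) ^ (Ln / (2 * r + 1)) < 1 := by
    have h1 : Ln / (2 * r + 1) = l * n + 1 := by
      rw [hLn]
      exact Nat.mul_div_cancel_left _ (by omega)
    rw [h1]
    calc (Fintype.card (Fin K × Bool ↪ Fin n) : ℝ) * (1 / 2) ^ (l * n + 1)
        ≤ 2 ^ (l * n) * (1 / 2) ^ (l * n + 1) :=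
          mul_le_mul_of_nonneg_right hemb (by positivity)
      _ = 1 / 2 := by
          rw [pow_succ, ← mul_assoc, ← mul_pow]
          norm_num
      _ < 1 := by norm_num
  exact kStar_lt_of_numE hn1 hnum h5 hη hcoin

lemma exists_par2 (n : ℕ) (hn : 2 ^ 29 < n) : ∃ r l, Par2 r n l := by
  set l := Nat.clog 2 n with hl
  have hl30 : 30 ≤ l := by
    by_contra h
    push Not at h
    have h6 : n ≤ 2 ^ l := Nat.le_pow_clog (by norm_num) n
    have h7 : 2 ^ l ≤ 2 ^ 29 := Nat.pow_le_pow_right (by norm_num) (by omega)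
    omega
  have h4 : 2 ^ (l - 1) < n := Nat.pow_pred_clog_lt_self (by norm_num) (by omega)
  have hex : ∃ r, n ≤ 825 * (r ^ 2 * l) := by
    refine ⟨n, ?_⟩
    calc n ≤ n * n := Nat.le_mul_self n
      _ = n ^ 2 * 1 := by ring
      _ ≤ n ^ 2 * l := Nat.mul_le_mul_left _ (by omega)
      _ ≤ 825 * (n ^ 2 * l) := by omega
  set r := Nat.find hex with hr
  have h1 : n ≤ 825 * (r ^ 2 * l) := Nat.find_spec hex
  have h2 : 4 * l ≤ r := by
    by_contra h
    push Not at h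
    have h5 : 825 * (r ^ 2 * l) ≤ 13200 * l ^ 3 := by
      have h6 : r ^ 2 ≤ (4 * l) ^ 2 := Nat.pow_le_pow_left h.le 2
      calc 825 * (r ^ 2 * l) ≤ 825 * ((4 * l) ^ 2 * l) :=
            Nat.mul_le_mul_left _ (Nat.mul_le_mul_right _ h6)
        _ = 13200 * l ^ 3 := by ring
    have h6 := cube_le_two_pow l hl30
    omega
  have h3 : 825 * ((r - 1) ^ 2 * l) < n := by
    have := Nat.find_min hex (m := r - 1) (by omega)
    omega
  exact ⟨r, l, hl30, h2, h3, h1, Nat.le_pow_clog (by norm_num) n, h4⟩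

theorem kStar_le_sqrt (n : ℕ) (hn : 2 ^ 29 < n) :
    (kStar n : ℝ) ≤ n / 3 + 72 * Real.sqrt (n * Real.log n) := by
  obtain ⟨r, l, h⟩ := exists_par2 n hn
  have h1 := h.kStar_lt
  have h2 : 3 * kStar n ≤ n + 3 * (1650 * (r * l)) := by omega
  have h3 : 3 * (kStar n : ℝ) ≤ n + 3 * (1650 * (r * l)) := by exact_mod_cast h2
  have hn0 : (0 : ℝ) < n := by
    have : 0 < n := by omega
    exact_mod_cast this
  have hlog : (l : ℝ) ≤ 3 / 2 * Real.log n := by
    have h5 : ((2 : ℝ) ^ (l - 1)) ≤ n := by exact_mod_cast h.hnl2.le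
    have h6 := Real.log_le_log (by positivity) h5
    rw [Real.log_pow] at h6
    have h7 := Real.log_two_gt_d9
    have h8 : (((l - 1 : ℕ)) : ℝ) = l - 1 := by
      have := h.hl
      rw [Nat.cast_sub (by omega), Nat.cast_one]
    rw [h8] at h6
    have h9 : (30 : ℝ) ≤ l := by exact_mod_cast h.hl
    nlinarith
  have h4 : (1650 * ((r : ℝ) * l)) ≤ 72 * Real.sqrt (n * Real.log n) := by
    have hl0 : (0 : ℝ) ≤ Real.log n := by
      have h9 : (30 : ℝ) ≤ l := by exact_mod_cast h.hl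
      linarith
    have h5 : (1650 * ((r : ℝ) * l)) ^ 2 ≤ (72 * Real.sqrt (n * Real.log n)) ^ 2 := by
      rw [mul_pow (72 : ℝ), Real.sq_sqrt (by positivity)]
      have h6 : 800 * ((r : ℝ) ^ 2 * l) ≤ n := by exact_mod_cast h.n_ge
      have h7 : 800 * ((r : ℝ) ^ 2 * l) * l ≤ n * (3 / 2 * Real.log n) :=
        mul_le_mul h6 hlog (by positivity) hn0.le
      have h8 : 0 ≤ (n : ℝ) * Real.log n := by positivity
      nlinarith
    exact le_of_sq_le_sq h5 (by positivity)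
  linarith

end Pool.Agent.Work.MP_5c4cbf_co
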