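import Mathlib

/-! Random tournaments: in a random tournament some candidate is exempt from all its few
exceptions, for many systems of candidates at the same time. -/

namespace Pool.Agent.Work.MP_5c4cbf_co

open Finset

/-- the orientation given by bits on unordered pairs -/
def ori {N : ℕ} (t : Sym2 (Fin N) → Bool) (i j : Fin N) : Prop :=
  (t s(i, j) = true ↔ i < j)

lemma ori_or {N : ℕ} (t : Sym2 (Fin N) → Bool) {i j : Fin N} (hij : i ≠ j) :
    ori t i j ∨ ori t j i := by
  unfold ori
  rw [Sym2.eq_swap (a := j) (b := i)]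
  rcases lt_or_gt_of_ne hij with h | h
  · have h' : ¬ j < i := not_lt.2 h.le
    by_cases ht : t s(i, j) = true
    · left; simp [ht, h]
    · right; simp [ht, h']
  · have h' : ¬ i < j := not_lt.2 h.le
    by_cases ht : t s(i, j) = true
    · right; simp [ht, h]
    · left; simp [ht, h']

lemma invariant_card {I : Type*} [Fintype I] [DecidableEq I] (A : Finset (I → Bool))
    (S : Finset I) (π : I → Bool)
    (hA : ∀ t t' : I → Bool, (∀ z, z ∉ S → t z = t' z) → t ∈ A → t' ∈ A) :
    A.card ≤ 2 ^ S.card * (A.filter (fun t => ∀ z ∈ S, t z = π z)).card := by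
  classical
  set φ : (I → Bool) → (I → Bool) := fun t z => if z ∈ S then π z else t z with hφ
  have h1 : A.card ≤ 2 ^ S.card * (A.image φ).card := by
    apply Finset.card_le_mul_card_image
    intro b hb
    have h2 : (A.filter (fun a => φ a = b)).card ≤ (univ : Finset (S → Bool)).card := by
      apply Finset.card_le_card_of_injOn (fun a => fun z : S => a z)
      · intro a _
        exact Finset.mem_coe.2 (Finset.mem_univ _)
      · intro a ha a' ha' haa
        rw [Finset.mem_coe, Finset.mem_filter] at ha ha'
        funext z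
        by_cases hz : z ∈ S
        · exact congrFun haa ⟨z, hz⟩
        · have h3 := congrFun (ha.2.trans ha'.2.symm) z
          simpa [hφ, hz] using h3
    refine h2.trans ?_
    simp
  refine h1.trans (Nat.mul_le_mul_left _ (Finset.card_le_card ?_))
  intro b hb
  rw [Finset.mem_image] at hb
  obtain ⟨a, ha, rfl⟩ := hb
  rw [Finset.mem_filter]
  refine ⟨hA a _ ?_ ha, ?_⟩
  · intro z hz
    simp [hφ, hz]
  · intro z hz
    simp [hφ, hz]

/-- all candidates in `C` are blocked -/
def Blocked {N : ℕ} (C : Finset (Fin N)) (F : Fin N → Finset (Fin N))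
    (t : Sym2 (Fin N) → Bool) : Prop := ∀ i ∈ C, ∃ j ∈ F i, ori t i j

open Classical in
lemma blocked_card {N : ℕ} (r : ℕ) (F : Fin N → Finset (Fin N)) (C : Finset (Fin N))
    (h1 : ∀ i ∈ C, (F i).card ≤ r ∧ i ∉ F i)
    (h2 : ∀ i ∈ C, ∀ i' ∈ C, i ≠ i' → i' ∉ F i) :
    (((univ : Finset (Sym2 (Fin N) → Bool)).filter (Blocked C F)).card : ℝ)
      ≤ (1 - (1 / 2) ^ r) ^ C.card * Fintype.card (Sym2 (Fin N) → Bool) := by
  have hr0 : (0 : ℝ) ≤ 1 - (1 / 2) ^ r := by
    have : ((1 : ℝ) / 2) ^ r ≤ 1 := pow_le_one₀ (by norm_num) (by norm_num)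
    linarith
  induction C using Finset.induction_on with
  | empty =>
    simp only [Finset.card_empty, pow_zero, one_mul]
    have := Finset.card_le_univ ((univ : Finset (Sym2 (Fin N) → Bool)).filter (Blocked ∅ F))
    exact_mod_cast this
  | insert a C ha ih =>
    have ih' := ih (fun i hi => h1 i (Finset.mem_insert_of_mem hi))
      (fun i hi i' hi' => h2 i (Finset.mem_insert_of_mem hi) i' (Finset.mem_insert_of_mem hi'))
    set A := (univ : Finset (Sym2 (Fin N) → Bool)).filter (Blocked C F) with hA
    set S : Finset (Sym2 (Fin N)) := (F a).image (fun j => s(a, j)) with hS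
    set π : Sym2 (Fin N) → Bool := fun z => if ∃ j, a < j ∧ z = s(a, j) then false else true with hπ
    have hSr : S.card ≤ r := Finset.card_image_le.trans (h1 a (Finset.mem_insert_self _ _)).1
    have hinv : ∀ t t' : Sym2 (Fin N) → Bool, (∀ z, z ∉ S → t z = t' z) → t ∈ A → t' ∈ A := by
      intro t t' htt ht
      rw [hA, Finset.mem_filter] at ht ⊢
      refine ⟨Finset.mem_univ _, ?_⟩
      intro i hi
      obtain ⟨j, hj, hij⟩ := ht.2 i hi
      refine ⟨j, hj, ?_⟩
      have hz : s(i, j) ∉ S := by
        intro hz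
        rw [hS, Finset.mem_image] at hz
        obtain ⟨j', hj', hz⟩ := hz
        have hne : i ≠ a := by rintro rfl; exact ha hi
        rw [Sym2.eq_iff] at hz
        rcases hz with ⟨h3, h4⟩ | ⟨h3, h4⟩
        · exact hne h3.symm
        · subst h3
          exact h2 i (Finset.mem_insert_of_mem hi) _ (Finset.mem_insert_self _ _) hne hj
      unfold ori at hij ⊢
      rw [← htt _ hz]
      exact hij
    have hcard := invariant_card A S π hinv
    have hsub : A.filter (fun t => ∀ z ∈ S, t z = π z) ⊆
        A.filter (fun t => ¬ ∃ j ∈ F a, ori t a j) := by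
      intro t ht
      rw [Finset.mem_filter] at ht ⊢
      refine ⟨ht.1, ?_⟩
      rintro ⟨j, hj, hor⟩
      have h3 := ht.2 s(a, j) (Finset.mem_image_of_mem _ hj)
      unfold ori at hor
      rw [h3] at hor
      by_cases haj : a < j
      · have : π s(a, j) = false := by
          simp only [hπ]
          rw [if_pos ⟨j, haj, rfl⟩]
        rw [this] at hor
        simp [haj] at hor
      · have : π s(a, j) = true := by
          simp only [hπ]
          rw [if_neg]
          rintro ⟨j', hj', hz⟩
          rw [Sym2.congr_right] at hz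
          subst hz
          exact haj hj'
        rw [this] at hor
        simp [haj] at hor
    have hins : (univ : Finset (Sym2 (Fin N) → Bool)).filter (Blocked (insert a C) F)
        = A.filter (fun t => ∃ j ∈ F a, ori t a j) := by
      ext t
      simp only [hA, Finset.mem_filter, Finset.mem_univ, true_and, Blocked, Finset.mem_insert,
        forall_eq_or_imp]
      exact and_comm
    have hsplit := Finset.card_filter_add_card_filter_not (s := A)
      (fun t => ∃ j ∈ F a, ori t a j)
    have h5 : (A.card : ℝ) ≤ 2 ^ r * ((A.filter (fun t => ¬ ∃ j ∈ F a, ori t a j)).card : ℝ) := by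
      have h6 : A.card ≤ 2 ^ r * (A.filter (fun t => ¬ ∃ j ∈ F a, ori t a j)).card :=
        hcard.trans (Nat.mul_le_mul (Nat.pow_le_pow_right (by norm_num) hSr)
          (Finset.card_le_card hsub))
      exact_mod_cast h6
    have h7 : (A.card : ℝ) * (1 / 2) ^ r ≤
        ((A.filter (fun t => ¬ ∃ j ∈ F a, ori t a j)).card : ℝ) := by
      have h8 := mul_le_mul_of_nonneg_right h5 (by positivity : (0 : ℝ) ≤ (1 / 2) ^ r)
      have h9 : (2 : ℝ) ^ r * (1 / 2) ^ r = 1 := by
        rw [← mul_pow]; norm_num
      calc _ ≤ _ := h8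
        _ = ((A.filter (fun t => ¬ ∃ j ∈ F a, ori t a j)).card : ℝ) * (2 ^ r * (1 / 2) ^ r) := by
            ring
        _ = _ := by rw [h9, mul_one]
    have hsplit' : ((A.filter (fun t => ∃ j ∈ F a, ori t a j)).card : ℝ) +
        ((A.filter (fun t => ¬ ∃ j ∈ F a, ori t a j)).card : ℝ) = A.card := by
      exact_mod_cast hsplit
    rw [hins, Finset.card_insert_of_notMem ha, pow_succ]
    have h10 := mul_le_mul_of_nonneg_left ih' hr0
    calc ((A.filter (fun t => ∃ j ∈ F a, ori t a j)).card : ℝ)
        ≤ (1 - (1 / 2) ^ r) * A.card := by linarith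
      _ ≤ _ := h10
      _ = _ := by ring

/-- A digraph with out-degrees at most `r` has a large independent set. -/
lemma sparse {ι : Type*} [DecidableEq ι] (F : ι → Finset ι) (r : ℕ) (C : Finset ι)
    (hF : ∀ i ∈ C, (F i).card ≤ r) :
    ∃ C' ⊆ C, C.card ≤ (2 * r + 1) * C'.card ∧ ∀ i ∈ C', ∀ i' ∈ C', i ≠ i' → i' ∉ F i := by
  induction C using Finset.strongInduction with
  | H C ih =>
    rcases C.eq_empty_or_nonempty with rfl | hne
    · exact ⟨∅, Finset.Subset.refl _, by simp, by simp⟩
    · -- a vertex of small in-degree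
      have hex : ∃ a ∈ C, (C.filter (fun i => a ∈ F i)).card ≤ r := by
        by_contra hcon
        push Not at hcon
        have h1 : ∑ a ∈ C, (r + 1) ≤ ∑ a ∈ C, (C.filter (fun i => a ∈ F i)).card :=
          Finset.sum_le_sum (fun a ha => hcon a ha)
        have h2 : ∑ a ∈ C, (C.filter (fun i => a ∈ F i)).card = ∑ i ∈ C, (C.filter (fun a => a ∈ F i)).card := by
          simp only [Finset.card_filter]
          rw [Finset.sum_comm]
        have h3 : ∑ i ∈ C, (C.filter (fun a => a ∈ F i)).card ≤ ∑ i ∈ C, r := by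
          apply Finset.sum_le_sum
          intro i hi
          refine (Finset.card_le_card ?_).trans (hF i hi)
          intro a ha
          exact (Finset.mem_filter.1 ha).2
        rw [h2] at h1
        have h4 := h1.trans h3
        simp only [Finset.sum_const, smul_eq_mul] at h4
        have : 0 < C.card := hne.card_pos
        nlinarith
      obtain ⟨a, haC, hin⟩ := hex
      set R := insert a ((F a) ∪ (C.filter (fun i => a ∈ F i))) with hR
      have hRc : R.card ≤ 2 * r + 1 := by
        rw [hR]
        have h1 := Finset.card_insert_le a ((F a) ∪ (C.filter (fun i => a ∈ F i)))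
        have h2 := Finset.card_union_le (F a) (C.filter (fun i => a ∈ F i))
        have h3 := hF a haC
        omega
      have hss : C \ R ⊂ C := by
        refine ⟨Finset.sdiff_subset, ?_⟩
        intro h
        have := h haC
        rw [Finset.mem_sdiff] at this
        exact this.2 (Finset.mem_insert_self _ _)
      obtain ⟨C', hC', hcard, hind⟩ := ih (C \ R) hss
        (fun i hi => hF i (Finset.sdiff_subset hi))
      have haC' : a ∉ C' := by
        intro h
        have := hC' h
        rw [Finset.mem_sdiff] at this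
        exact this.2 (Finset.mem_insert_self _ _)
      refine ⟨insert a C', ?_, ?_, ?_⟩
      · intro x hx
        rw [Finset.mem_insert] at hx
        rcases hx with rfl | hx
        · exact haC
        · exact Finset.sdiff_subset (hC' hx)
      · rw [Finset.card_insert_of_notMem haC']
        have h1 : C.card ≤ (C \ R).card + R.card := by
          have := Finset.card_le_card_sdiff_add_card (s := C) (t := R)
          omega
        calc C.card ≤ (C \ R).card + R.card := h1
          _ ≤ (2 * r + 1) * C'.card + (2 * r + 1) := Nat.add_le_add hcard hRc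
          _ = (2 * r + 1) * (C'.card + 1) := by ring
      · have hout : ∀ i ∈ C', i ∉ F a ∧ a ∉ F i := by
          intro i hi
          have h1 := hC' hi
          rw [Finset.mem_sdiff, hR, Finset.mem_insert, Finset.mem_union, Finset.mem_filter] at h1
          push Not at h1
          exact ⟨h1.2.2.1, h1.2.2.2 h1.1⟩
        intro i hi i' hi' hne'
        rw [Finset.mem_insert] at hi hi'
        rcases hi with rfl | hi
        · rcases hi' with rfl | hi'
          · exact absurd rfl hne'
          · exact (hout i' hi').1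
        · rcases hi' with rfl | hi'
          · exact (hout i hi).2
          · exact hind i hi i' hi' hne'

open Classical in
theorem exists_orient {M : Type*} [Fintype M] {N r L : ℕ} (C : M → Finset (Fin N))
    (F : M → Fin N → Finset (Fin N)) (hC : ∀ m, L ≤ (C m).card)
    (hF : ∀ m, ∀ i ∈ C m, (F m i).card ≤ r ∧ i ∉ F m i)
    (hnum : (Fintype.card M : ℝ) * (1 - (1 / 2) ^ r) ^ (L / (2 * r + 1)) < 1) :
    ∃ t : Sym2 (Fin N) → Bool, ∀ m, ∃ i ∈ C m, ∀ j ∈ F m i, ¬ ori t i j := by
  have hr0 : (0 : ℝ) ≤ 1 - (1 / 2) ^ r := by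
    have : ((1 : ℝ) / 2) ^ r ≤ 1 := pow_le_one₀ (by norm_num) (by norm_num)
    linarith
  have hr1 : (1 : ℝ) - (1 / 2) ^ r ≤ 1 := by
    have : (0 : ℝ) ≤ (1 / 2) ^ r := by positivity
    linarith
  set T : ℝ := (Fintype.card (Sym2 (Fin N) → Bool) : ℝ) with hT
  have hT0 : 0 < T := by
    rw [hT]
    exact_mod_cast Fintype.card_pos
  have hm : ∀ m, (((univ : Finset (Sym2 (Fin N) → Bool)).filter (Blocked (C m) (F m))).card : ℝ)
      ≤ (1 - (1 / 2) ^ r) ^ (L / (2 * r + 1)) * T := by
    intro m
    obtain ⟨C', hC', hcard, hind⟩ := sparse (F m) r (C m) (fun i hi => (hF m i hi).1)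
    have h1 := blocked_card r (F m) C' (fun i hi => hF m i (hC' hi)) hind
    have h2 : ((univ : Finset (Sym2 (Fin N) → Bool)).filter (Blocked (C m) (F m))).card ≤
        ((univ : Finset (Sym2 (Fin N) → Bool)).filter (Blocked C' (F m))).card := by
      apply Finset.card_le_card
      intro t ht
      rw [Finset.mem_filter] at ht ⊢
      exact ⟨ht.1, fun i hi => ht.2 i (hC' hi)⟩
    have h3 : L / (2 * r + 1) ≤ C'.card :=
      Nat.div_le_of_le_mul ((hC m).trans hcard)
    have h4 : (1 - ((1 : ℝ) / 2) ^ r) ^ C'.card ≤ (1 - (1 / 2) ^ r) ^ (L / (2 * r + 1)) :=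
      pow_le_pow_of_le_one hr0 hr1 h3
    have h5 := mul_le_mul_of_nonneg_right h4 hT0.le
    have h6 : (((univ : Finset (Sym2 (Fin N) → Bool)).filter (Blocked (C m) (F m))).card : ℝ) ≤
        ((univ : Finset (Sym2 (Fin N) → Bool)).filter (Blocked C' (F m))).card := by
      exact_mod_cast h2
    linarith
  by_contra hcon
  push Not at hcon
  have hcover : (univ : Finset (Sym2 (Fin N) → Bool)) ⊆
      (univ : Finset M).biUnion (fun m => univ.filter (Blocked (C m) (F m))) := by
    intro t _
    obtain ⟨m, hm⟩ := hcon t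
    rw [Finset.mem_biUnion]
    exact ⟨m, Finset.mem_univ _, Finset.mem_filter.2 ⟨Finset.mem_univ _, hm⟩⟩
  have h1 : T ≤ ∑ m : M, (((univ : Finset (Sym2 (Fin N) → Bool)).filter
      (Blocked (C m) (F m))).card : ℝ) := by
    have := (Finset.card_le_card hcover).trans Finset.card_biUnion_le
    rw [Finset.card_univ] at this
    rw [hT]
    exact_mod_cast this
  have h2 : ∑ m : M, (((univ : Finset (Sym2 (Fin N) → Bool)).filter
      (Blocked (C m) (F m))).card : ℝ) ≤ ∑ m : M, (1 - (1 / 2) ^ r) ^ (L / (2 * r + 1)) * T :=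
    Finset.sum_le_sum (fun m _ => hm m)
  rw [Finset.sum_const, Finset.card_univ, nsmul_eq_mul] at h2
  have h3 := mul_lt_mul_of_pos_right hnum hT0
  nlinarith

end Pool.Agent.Work.MP_5c4cbf_co
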