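import Pool.Agent.Work.MP_5c4cbf_co.Basic

/-! Completions of a partial transversal: how many of them miss a given set. -/

namespace Pool.Agent.Work.MP_5c4cbf_co

open Finset

variable {n K : ℕ}

/-- choices whose transversal contains `h` -/
def Bh (m : Fin K × Bool ↪ Fin n) (h : Finset (Fin n)) : Finset (Fin K → Bool) :=
  univ.filter (fun b => h ⊆ tr m b)

/-- choices whose transversal contains `h` and is disjoint from `H` -/
def Dh (m : Fin K × Bool ↪ Fin n) (h H : Finset (Fin n)) : Finset (Fin K → Bool) :=
  univ.filter (fun b => h ⊆ tr m b ∧ Disjoint (tr m b) H)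

/-- the elements that are unmatched or lie in a pair touched by `h` -/
def YY (m : Fin K × Bool ↪ Fin n) (h : Finset (Fin n)) : Finset (Fin n) :=
  univ.filter (fun x => ∀ i β, m (i, β) = x → ∃ γ, m (i, γ) ∈ h)

lemma mem_Bh {m : Fin K × Bool ↪ Fin n} {h : Finset (Fin n)} {b : Fin K → Bool} :
    b ∈ Bh m h ↔ h ⊆ tr m b := by simp [Bh]

lemma mem_Dh {m : Fin K × Bool ↪ Fin n} {h H : Finset (Fin n)} {b : Fin K → Bool} :
    b ∈ Dh m h H ↔ h ⊆ tr m b ∧ Disjoint (tr m b) H := by simp [Dh]

lemma Bh_card_le (m : Fin K × Bool ↪ Fin n) (H : Finset (Fin n)) :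
    (Bh m H).card * 2 ^ H.card ≤ 2 ^ K := by
  unfold Bh
  rcases (univ.filter (fun b : Fin K → Bool => H ⊆ tr m b)).eq_empty_or_nonempty with h | ⟨b0, hb0⟩
  · rw [h]; simp
  · rw [Finset.mem_filter] at hb0
    have hb0 := hb0.2
    set J : Finset (Fin K) := univ.filter (fun i => m (i, b0 i) ∈ H) with hJdef
    have hHJ : H = J.image (fun i => m (i, b0 i)) := by
      ext x
      simp only [hJdef, Finset.mem_image, Finset.mem_filter, Finset.mem_univ, true_and]
      constructor
      · intro hx
        obtain ⟨i, hi⟩ := mem_tr.1 (hb0 hx)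
        exact ⟨i, by rw [hi]; exact hx, hi⟩
      · rintro ⟨i, hi, rfl⟩
        exact hi
    have hJ : J.card = H.card := by
      conv_rhs => rw [hHJ]
      rw [Finset.card_image_of_injective]
      intro i j hij
      have := m.injective hij
      simp only [Prod.mk.injEq] at this
      exact this.1
    have hsub : (univ.filter (fun b : Fin K → Bool => H ⊆ tr m b)) ⊆
        Fintype.piFinset (fun i => if i ∈ J then ({b0 i} : Finset Bool) else univ) := by
      intro b hb
      rw [Finset.mem_filter] at hb
      rw [Fintype.mem_piFinset]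
      intro i
      split_ifs with hi
      · rw [hJdef, Finset.mem_filter] at hi
        have := hb.2 hi.2
        rw [m_mem_tr] at this
        rw [Finset.mem_singleton]
        exact this
      · exact Finset.mem_univ _
    have hcard : (Fintype.piFinset
        (fun i => if i ∈ J then ({b0 i} : Finset Bool) else univ)).card = 2 ^ (K - J.card) := by
      rw [Fintype.card_piFinset]
      have : ∀ i : Fin K, (if i ∈ J then ({b0 i} : Finset Bool) else univ).card
          = if i ∈ J then 1 else 2 := by
        intro i
        split_ifs <;> simp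
      simp only [this]
      rw [Finset.prod_ite]
      simp only [Finset.prod_const_one, one_mul, Finset.prod_const]
      congr 1
      rw [Finset.filter_not, Finset.card_sdiff_of_subset (Finset.filter_subset _ _)]
      simp
    have hJK : J.card ≤ K := by
      have := Finset.card_le_univ J
      simpa using this
    calc (univ.filter (fun b : Fin K → Bool => H ⊆ tr m b)).card * 2 ^ H.card
        ≤ 2 ^ (K - J.card) * 2 ^ H.card :=
          Nat.mul_le_mul_right _ (hcard ▸ Finset.card_le_card hsub)
      _ = 2 ^ K := by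
          rw [← hJ, ← pow_add]
          congr 1
          omega

lemma Bh_card_ge (m : Fin K × Bool ↪ Fin n) (H : Finset (Fin n)) (hne : (Bh m H).Nonempty) :
    2 ^ K ≤ (Bh m H).card * 2 ^ H.card := by
  obtain ⟨b0, hb0⟩ := hne
  rw [mem_Bh] at hb0
  set J : Finset (Fin K) := univ.filter (fun i => m (i, b0 i) ∈ H) with hJdef
  have hHJ : H = J.image (fun i => m (i, b0 i)) := by
    ext x
    simp only [hJdef, Finset.mem_image, Finset.mem_filter, Finset.mem_univ, true_and]
    constructor
    · intro hx
      obtain ⟨i, hi⟩ := mem_tr.1 (hb0 hx)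
      exact ⟨i, by rw [hi]; exact hx, hi⟩
    · rintro ⟨i, hi, rfl⟩
      exact hi
  have hJ : J.card = H.card := by
    conv_rhs => rw [hHJ]
    rw [Finset.card_image_of_injective]
    intro i j hij
    have := m.injective hij
    simp only [Prod.mk.injEq] at this
    exact this.1
  have hsub : Fintype.piFinset (fun i => if i ∈ J then ({b0 i} : Finset Bool) else univ) ⊆
      Bh m H := by
    intro b hb
    rw [Fintype.mem_piFinset] at hb
    rw [mem_Bh]
    intro x hx
    rw [hHJ, Finset.mem_image] at hx
    obtain ⟨i, hi, rfl⟩ := hx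
    have := hb i
    rw [if_pos hi, Finset.mem_singleton] at this
    rw [← this]
    exact m_mem_tr.2 rfl
  have hcard : (Fintype.piFinset
      (fun i => if i ∈ J then ({b0 i} : Finset Bool) else univ)).card = 2 ^ (K - J.card) := by
    rw [Fintype.card_piFinset]
    have : ∀ i : Fin K, (if i ∈ J then ({b0 i} : Finset Bool) else univ).card
        = if i ∈ J then 1 else 2 := by
      intro i
      split_ifs <;> simp
    simp only [this]
    rw [Finset.prod_ite]
    simp only [Finset.prod_const_one, one_mul, Finset.prod_const]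
    congr 1
    rw [Finset.filter_not, Finset.card_sdiff_of_subset (Finset.filter_subset _ _)]
    simp
  have hJK : J.card ≤ K := by
    have := Finset.card_le_univ J
    simpa using this
  calc 2 ^ K = 2 ^ (K - J.card) * 2 ^ H.card := by
          rw [← hJ, ← pow_add]
          congr 1
          omega
    _ ≤ (Bh m H).card * 2 ^ H.card :=
          Nat.mul_le_mul_right _ (hcard ▸ Finset.card_le_card hsub)

/-- Few completions of `h` miss `H` when `H` has many elements outside `YY m h`. -/
lemma Dh_le (m : Fin K × Bool ↪ Fin n) (h H : Finset (Fin n)) :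
    (Dh m h H).card * 2 ^ (h.card + (H \ YY m h).card) ≤ 2 ^ K := by
  classical
  have hx : ∀ x ∈ H \ YY m h, ∃ i β, m (i, β) = x ∧ ∀ γ, m (i, γ) ∉ h := by
    intro x hx
    rw [Finset.mem_sdiff, YY, Finset.mem_filter] at hx
    have h2 := hx.2
    push Not at h2
    obtain ⟨i, β, h3, h4⟩ := h2 (Finset.mem_univ x)
    exact ⟨i, β, h3, h4⟩
  set W : Finset (Fin n) := (univ.filter (fun p : Fin K × Bool =>
    m p ∈ H \ YY m h)).image (fun p => m (p.1, !p.2)) with hW
  have hWc : W.card = (H \ YY m h).card := by
    rw [hW, Finset.card_image_of_injective]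
    · have : (H \ YY m h) = (univ.filter (fun p : Fin K × Bool =>
        m p ∈ H \ YY m h)).image m := by
        ext x
        constructor
        · intro hxx
          obtain ⟨i, β, h1, -⟩ := hx x hxx
          rw [Finset.mem_image]
          exact ⟨(i, β), by rw [Finset.mem_filter, h1]; exact ⟨Finset.mem_univ _, hxx⟩, h1⟩
        · intro hxx
          rw [Finset.mem_image] at hxx
          obtain ⟨p, hp, rfl⟩ := hxx
          exact (Finset.mem_filter.1 hp).2
      conv_rhs => rw [this]
      rw [Finset.card_image_of_injective _ m.injective]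
    · rintro ⟨i, β⟩ ⟨j, γ⟩ hij
      have := m.injective hij
      simp only [Prod.mk.injEq] at this
      obtain ⟨h1, h2⟩ := this
      subst h1
      simp only [Prod.mk.injEq, true_and]
      simpa using h2
  have hdisj : Disjoint h W := by
    rw [Finset.disjoint_left]
    intro x hxh hxW
    rw [hW, Finset.mem_image] at hxW
    obtain ⟨p, hp, rfl⟩ := hxW
    obtain ⟨i, β, h1, h2⟩ := hx _ (Finset.mem_filter.1 hp).2
    have := m.injective h1
    rw [← this] at hxh
    exact h2 _ hxh
  have hsub : Dh m h H ⊆ Bh m (h ∪ W) := by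
    intro b hb
    rw [mem_Dh] at hb
    rw [mem_Bh]
    intro x hxx
    rw [Finset.mem_union] at hxx
    rcases hxx with hxx | hxx
    · exact hb.1 hxx
    · rw [hW, Finset.mem_image] at hxx
      obtain ⟨⟨i, β⟩, hp, rfl⟩ := hxx
      have h3 : m (i, β) ∈ H := (Finset.mem_sdiff.1 (Finset.mem_filter.1 hp).2).1
      rw [m_mem_tr]
      have h4 : b i ≠ β := by
        intro h
        exact (Finset.disjoint_left.1 hb.2) (m_mem_tr.2 h) h3
      cases hb' : b i <;> cases β <;> simp_all
  calc (Dh m h H).card * 2 ^ (h.card + (H \ YY m h).card)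
      ≤ (Bh m (h ∪ W)).card * 2 ^ (h ∪ W).card := by
        rw [Finset.card_union_of_disjoint hdisj, hWc]
        exact Nat.mul_le_mul_right _ (Finset.card_le_card hsub)
    _ ≤ 2 ^ K := Bh_card_le m _

lemma Dh_le_Bh (m : Fin K × Bool ↪ Fin n) (h H : Finset (Fin n)) (hne : (Bh m h).Nonempty) :
    (Dh m h H).card * 2 ^ (H \ YY m h).card ≤ (Bh m h).card := by
  have h1 := Dh_le m h H
  have h2 := Bh_card_ge m h hne
  have h3 : (Dh m h H).card * 2 ^ (H \ YY m h).card * 2 ^ h.card
      ≤ (Bh m h).card * 2 ^ h.card := by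
    rw [mul_assoc, ← pow_add, add_comm]
    exact h1.trans h2
  exact Nat.le_of_mul_le_mul_right h3 (by positivity)

lemma sum_Dh (m : Fin K × Bool ↪ Fin n) (h : Finset (Fin n)) (s : ℕ) :
    ∑ H ∈ (univ : Finset (Fin n)).powersetCard s, (Dh m h H).card
      = (Bh m h).card * (n - K).choose s := by
  classical
  have h0 : ∀ H, Dh m h H = (Bh m h).filter (fun b => Disjoint (tr m b) H) := by
    intro H
    ext b
    simp [mem_Dh, mem_Bh]
  simp only [h0, Finset.card_filter]
  rw [Finset.sum_comm]
  have : ∀ b ∈ Bh m h, ∑ H ∈ (univ : Finset (Fin n)).powersetCard s,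
      (if Disjoint (tr m b) H then 1 else 0) = (n - K).choose s := by
    intro b _
    rw [← Finset.card_filter]
    have h1 : ((univ : Finset (Fin n)).powersetCard s).filter (fun H => Disjoint (tr m b) H)
        = (tr m b)ᶜ.powersetCard s := by
      ext H
      simp only [Finset.mem_filter, Finset.mem_powersetCard, Finset.subset_univ, true_and]
      constructor
      · rintro ⟨h1, h2⟩
        exact ⟨fun x hx => Finset.mem_compl.2 (fun h => (Finset.disjoint_left.1 h2) h hx), h1⟩
      · rintro ⟨h1, h2⟩
        refine ⟨h2, Finset.disjoint_left.2 (fun x hx hx' => ?_)⟩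
        exact (Finset.mem_compl.1 (h1 hx')) hx
    rw [h1, Finset.card_powersetCard, Finset.card_compl, card_tr, Fintype.card_fin]
  rw [Finset.sum_congr rfl this]
  simp

/-- the partial transversals of size `s` -/
def PT (m : Fin K × Bool ↪ Fin n) (s : ℕ) : Finset (Finset (Fin n)) :=
  ((univ : Finset (Fin n)).powersetCard s).filter (fun H => (Bh m H).Nonempty)

lemma PT_card (m : Fin K × Bool ↪ Fin n) (s : ℕ) : K.choose s * 2 ^ s ≤ (PT m s).card := by
  classical
  have h1 : ∑ b : Fin K → Bool, ((tr m b).powersetCard s).card = 2 ^ K * K.choose s := by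
    simp [card_tr]
  have h2 : ∑ b : Fin K → Bool, ((tr m b).powersetCard s).card = ∑ H ∈ PT m s, (Bh m H).card := by
    have h5 : ∀ b : Fin K → Bool, ((tr m b).powersetCard s) =
        (PT m s).filter (fun H => H ⊆ tr m b) := by
      intro b
      ext H
      simp only [PT, Finset.mem_filter, Finset.mem_powersetCard, Finset.subset_univ, true_and]
      constructor
      · rintro ⟨h1, h2⟩
        exact ⟨⟨h2, ⟨b, mem_Bh.2 h1⟩⟩, h1⟩
      · rintro ⟨⟨h1, -⟩, h2⟩
        exact ⟨h2, h1⟩
    have h6 : ∀ H, (Bh m H).card = ∑ b : Fin K → Bool, if H ⊆ tr m b then 1 else 0 := by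
      intro H
      rw [Bh, Finset.card_filter]
    simp only [h5, Finset.card_filter, h6]
    rw [Finset.sum_comm]
  have h3 : 2 ^ K * K.choose s * 2 ^ s ≤ (PT m s).card * 2 ^ K := by
    rw [← h1, h2, Finset.sum_mul]
    calc ∑ H ∈ PT m s, (Bh m H).card * 2 ^ s ≤ ∑ H ∈ PT m s, 2 ^ K := by
          apply Finset.sum_le_sum
          intro H hH
          have hHs : H.card = s := by
            rw [PT, Finset.mem_filter, Finset.mem_powersetCard] at hH
            exact hH.1.2
          rw [← hHs]
          exact Bh_card_le m H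
      _ = (PT m s).card * 2 ^ K := by simp
  have h4 : 2 ^ K * (K.choose s * 2 ^ s) ≤ 2 ^ K * (PT m s).card := by
    calc _ = 2 ^ K * K.choose s * 2 ^ s := by ring
      _ ≤ (PT m s).card * 2 ^ K := h3
      _ = _ := by ring
  exact Nat.le_of_mul_le_mul_left h4 (by positivity)

lemma YY_card (m : Fin K × Bool ↪ Fin n) (h : Finset (Fin n)) :
    (YY m h).card ≤ n - 2 * K + 2 * h.card := by
  classical
  -- elements of YY that are matched are of the form m (i, β) with the pair touched
  have hsub : YY m h ⊆ (univ.map m)ᶜ ∪ (h ∪ (univ.filter (fun p : Fin K × Bool =>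
      m p ∈ h)).image (fun p => m (p.1, !p.2))) := by
    intro x hx
    rw [YY, Finset.mem_filter] at hx
    rw [Finset.mem_union]
    by_cases hm : x ∈ univ.map m
    · right
      rw [Finset.mem_map] at hm
      obtain ⟨⟨i, β⟩, -, rfl⟩ := hm
      obtain ⟨γ, hγ⟩ := hx.2 i β rfl
      rw [Finset.mem_union]
      by_cases hβ : γ = β
      · subst hβ
        exact Or.inl hγ
      · right
        rw [Finset.mem_image]
        refine ⟨(i, γ), by rw [Finset.mem_filter]; exact ⟨Finset.mem_univ _, hγ⟩, ?_⟩
        have : (!γ) = β := by cases γ <;> cases β <;> simp_all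
        simp only [this]
    · left
      exact Finset.mem_compl.2 hm
  have h1 : ((univ.map m)ᶜ : Finset (Fin n)).card = n - 2 * K := by
    rw [Finset.card_compl, Finset.card_map]
    simp [Fintype.card_prod, mul_comm]
  have h2 : ((univ.filter (fun p : Fin K × Bool => m p ∈ h)).image
      (fun p => m (p.1, !p.2))).card ≤ h.card := by
    refine Finset.card_image_le.trans ?_
    rw [← Finset.card_map m]
    apply Finset.card_le_card
    intro x hx
    rw [Finset.mem_map] at hx
    obtain ⟨p, hp, rfl⟩ := hx
    exact (Finset.mem_filter.1 hp).2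
  have h3 := (Finset.card_le_card hsub).trans (Finset.card_union_le _ _)
  have h4 := Finset.card_union_le h ((univ.filter (fun p : Fin K × Bool => m p ∈ h)).image
      (fun p => m (p.1, !p.2)))
  omega

end Pool.Agent.Work.MP_5c4cbf_co
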