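import Pool.Agent.Work.MP_5c4cbf_co.TProb3
import Pool.Agent.Work.MP_5c4cbf_co.TCoin

/-! The upper bound for `kStar` from the numerical conditions. -/

namespace Pool.Agent.Work.MP_5c4cbf_co

open Finset

variable {n K : ℕ}

open Classical in
theorem kStar_lt_of_num {s N r d L y : ℕ} {p q lam Q : ℝ} (hn : 1 ≤ n)
    (hnum : Num n K s N r d L y p q lam Q)
    (hcoin : (Fintype.card (Fin K × Bool ↪ Fin n) : ℝ) *
      (1 - (1 / 2) ^ r) ^ (L / (2 * r + 1)) < 1) : kStar n < K := by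
  obtain ⟨f, hfs, hf⟩ := exists_list hnum
  choose C hCL hC using hf
  -- data of a good candidate
  have hdata : ∀ (m : Fin K × Bool ↪ Fin n) (i : Fin N), ∃ (b : Fin K → Bool) (F : Finset (Fin N)),
      i ∈ C m → (f i ⊆ tr m b ∧ F.card ≤ r ∧ i ∉ F ∧
        ∀ j, j ≠ i → j ∉ F → ¬ Disjoint (tr m b) (f j)) := by
    intro m i
    by_cases hi : i ∈ C m
    · obtain ⟨b, hb, F, h1, h2, h3⟩ := hC m i hi
      exact ⟨b, F, fun _ => ⟨hb, h1, h2, h3⟩⟩
    · exact ⟨fun _ => false, ∅, fun h => absurd h hi⟩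
  choose b F hbF using hdata
  obtain ⟨t, ht⟩ := exists_orient C F hCL
    (fun m i hi => ⟨(hbF m i hi).2.1, (hbF m i hi).2.2.1⟩) hcoin
  set G : Finset (Finset (Fin n)) := univ.filter (fun c => ∃ i, f i ⊆ c ∧
    ∀ j, j ≠ i → ori t i j → ¬ Disjoint c (f j)) with hG
  have hne : ∀ i, (f i).Nonempty := by
    intro i
    rw [← Finset.card_pos, hfs i]
    exact hnum.hs
  have hGI : IsIntersecting G := by
    intro A hA B hB
    rw [hG, Finset.mem_filter] at hA hB
    obtain ⟨-, i, hiA, hi⟩ := hA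
    obtain ⟨-, j, hjB, hj⟩ := hB
    by_cases hij : i = j
    · subst hij
      obtain ⟨x, hx⟩ := hne i
      exact ⟨x, Finset.mem_inter.2 ⟨hiA hx, hjB hx⟩⟩
    · rcases ori_or t hij with h | h
      · have := hi j (Ne.symm hij) h
        rw [Finset.not_disjoint_iff] at this
        obtain ⟨x, hx1, hx2⟩ := this
        exact ⟨x, Finset.mem_inter.2 ⟨hx1, hjB hx2⟩⟩
      · have := hj i hij h
        rw [Finset.not_disjoint_iff] at this
        obtain ⟨x, hx1, hx2⟩ := this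
        exact ⟨x, Finset.mem_inter.2 ⟨hiA hx2, hx1⟩⟩
  apply kStar_lt hn hGI
  intro m
  obtain ⟨i, hi, hit⟩ := ht m
  refine ⟨b m i, ?_⟩
  rw [hG, Finset.mem_filter]
  refine ⟨Finset.mem_univ _, i, (hbF m i hi).1, ?_⟩
  intro j hji hor
  apply (hbF m i hi).2.2.2 j hji
  intro hjF
  exact hit j hjF hor

end Pool.Agent.Work.MP_5c4cbf_co
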