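import Pool.Agent.Work.MP_5c4cbf_co.TComp

/-! Random cores: a suitable list of `s`-sets exists. -/

namespace Pool.Agent.Work.MP_5c4cbf_co

open Finset

variable {n K : ℕ}

/-- Product form of an exponential moment. -/
lemma sum_prod_le {α : Type*} [DecidableEq α] (N : ℕ) (S : Finset α) (g : α → ℝ)
    (hg : ∀ x ∈ S, 0 ≤ g x) {A : ℝ} (hA : ∑ x ∈ S, g x ≤ A) :
    ∑ f ∈ Fintype.piFinset (fun _ : Fin N => S), ∏ i, g (f i) ≤ A ^ N := by
  have h := Finset.prod_univ_sum (fun _ : Fin N => S) (fun (_ : Fin N) (x : α) => g x)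
  rw [← h]
  simp only [Finset.prod_const, Finset.card_univ, Fintype.card_fin]
  exact pow_le_pow_left₀ (Finset.sum_nonneg hg) hA N

lemma card_mul_le_of_forall {α : Type*} (T : Finset α) (F : α → ℝ) {c : ℝ}
    {S : Finset α} (hST : S ⊆ T) (hF : ∀ x ∈ T, 0 ≤ F x) (hc : ∀ x ∈ S, c ≤ F x) :
    (S.card : ℝ) * c ≤ ∑ x ∈ T, F x := by
  calc (S.card : ℝ) * c = ∑ x ∈ S, c := by simp
    _ ≤ ∑ x ∈ S, F x := Finset.sum_le_sum hc
    _ ≤ ∑ x ∈ T, F x := Finset.sum_le_sum_of_subset_of_nonneg hST (fun x hx _ => hF x hx)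

/-- the sample space of lists of `N` cores -/
def Pi (n s N : ℕ) : Finset (Fin N → Finset (Fin n)) :=
  Fintype.piFinset (fun _ : Fin N => (univ : Finset (Fin n)).powersetCard s)

lemma mem_Pi {n s N : ℕ} {f : Fin N → Finset (Fin n)} : f ∈ Pi n s N ↔ ∀ i, (f i).card = s := by
  simp [Pi, Fintype.mem_piFinset, Finset.mem_powersetCard]

lemma card_Pi (n s N : ℕ) : (Pi n s N).card = (n.choose s) ^ N := by
  simp [Pi, Fintype.card_piFinset]

open Classical in
/-- number of candidates -/
noncomputable def cand {N : ℕ} (m : Fin K × Bool ↪ Fin n) (f : Fin N → Finset (Fin n)) :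
    Finset (Fin N) := univ.filter (fun i => (Bh m (f i)).Nonempty)

open Classical in
lemma event1 (m : Fin K × Bool ↪ Fin n) (s N L : ℕ) {p : ℝ}
    (hp : p * n.choose s ≤ K.choose s * 2 ^ s) :
    (((Pi n s N).filter (fun f => (cand m f).card < L)).card : ℝ)
      ≤ (n.choose s : ℝ) ^ N * Real.exp (L - p * N / 2) := by
  set g : Finset (Fin n) → ℝ := fun x => if (Bh m x).Nonempty then Real.exp (-1) else 1 with hg
  have hg0 : ∀ x, 0 < g x := by
    intro x; simp only [hg]; split_ifs
    · exact Real.exp_pos _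
    · norm_num
  have hprod : ∀ f : Fin N → Finset (Fin n), ∏ i, g (f i) = Real.exp (-((cand m f).card : ℝ)) := by
    intro f
    simp only [hg]
    rw [Finset.prod_ite]
    simp only [Finset.prod_const_one, mul_one, Finset.prod_const]
    rw [← Real.exp_nat_mul]
    congr 1
    simp [cand]
  have h1 : (((Pi n s N).filter (fun f => (cand m f).card < L)).card : ℝ) * Real.exp (-(L : ℝ))
      ≤ ∑ f ∈ Pi n s N, ∏ i, g (f i) := by
    apply card_mul_le_of_forall _ _ (Finset.filter_subset _ _)
    · intro f _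
      exact Finset.prod_nonneg (fun i _ => (hg0 _).le)
    · intro f hf
      rw [Finset.mem_filter] at hf
      rw [hprod]
      apply Real.exp_le_exp.2
      have : ((cand m f).card : ℝ) < L := by exact_mod_cast hf.2
      linarith
  have he : Real.exp (-1) ≤ 1 / 2 := by
    have := Real.exp_one_gt_d9
    rw [Real.exp_neg]
    rw [inv_le_comm₀ (Real.exp_pos 1) (by norm_num)]
    linarith
  have h2 : ∑ x ∈ (univ : Finset (Fin n)).powersetCard s, g x
      ≤ (n.choose s : ℝ) * Real.exp (-(p / 2)) := by
    have h3 : ∑ x ∈ (univ : Finset (Fin n)).powersetCard s, g x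
        ≤ ∑ x ∈ (univ : Finset (Fin n)).powersetCard s,
          (1 - (if (Bh m x).Nonempty then (1 : ℝ) else 0) / 2) := by
      apply Finset.sum_le_sum
      intro x _
      simp only [hg]
      split_ifs
      · linarith
      · norm_num
    have h4 : ∑ x ∈ (univ : Finset (Fin n)).powersetCard s,
          (1 - (if (Bh m x).Nonempty then (1 : ℝ) else 0) / 2)
        = (n.choose s : ℝ) - ((PT m s).card : ℝ) / 2 := by
      rw [Finset.sum_sub_distrib, ← Finset.sum_div]
      simp only [Finset.sum_const, Finset.card_powersetCard, Finset.card_univ, Fintype.card_fin,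
        nsmul_eq_mul, mul_one, Finset.sum_boole, PT]
    have h5 : ((K.choose s * 2 ^ s : ℕ) : ℝ) ≤ (PT m s).card := by exact_mod_cast PT_card m s
    push_cast at h5
    have h6 : 1 - p / 2 ≤ Real.exp (-(p / 2)) := by
      have := Real.add_one_le_exp (-(p / 2))
      linarith
    have h7 : (0 : ℝ) ≤ n.choose s := by positivity
    have h8 := mul_le_mul_of_nonneg_left h6 h7
    rw [h4] at h3
    linarith
  have h9 := h1.trans (sum_prod_le N _ g (fun x _ => (hg0 x).le) h2)
  rw [mul_pow, ← Real.exp_nat_mul] at h9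
  have h10 : Real.exp (-(L : ℝ)) * Real.exp (L : ℝ) = 1 := by
    rw [← Real.exp_add]; simp
  have h11 := mul_le_mul_of_nonneg_right h9 (Real.exp_pos (L : ℝ)).le
  rw [mul_assoc, h10, mul_one, mul_assoc, ← Real.exp_add] at h11
  refine h11.trans (le_of_eq ?_)
  congr 2
  ring

open Classical in
lemma event2 (Y : Finset (Fin n)) (s N r d : ℕ) {lam Q : ℝ} (hlam : 1 ≤ lam)
    (hQ : ((((univ : Finset (Fin n)).powersetCard s).filter
      (fun H => (H \ Y).card < d)).card : ℝ) ≤ Q)
    (hP : 0 < n.choose s)
    (hN : N * (lam * Q) ≤ n.choose s) :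
    (((Pi n s N).filter (fun f => r < (univ.filter (fun j => (f j \ Y).card < d)).card)).card : ℝ)
      * lam ^ (r + 1) ≤ (n.choose s : ℝ) ^ N * Real.exp 1 := by
  set g : Finset (Fin n) → ℝ := fun x => if (x \ Y).card < d then lam else 1 with hg
  have hg0 : ∀ x, 0 < g x := by
    intro x; simp only [hg]; split_ifs <;> linarith
  have hprod : ∀ f : Fin N → Finset (Fin n), ∏ i, g (f i)
      = lam ^ (univ.filter (fun j => (f j \ Y).card < d)).card := by
    intro f
    simp only [hg]
    rw [Finset.prod_ite]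
    simp only [Finset.prod_const_one, mul_one, Finset.prod_const]
  have h1 : (((Pi n s N).filter (fun f =>
      r < (univ.filter (fun j => (f j \ Y).card < d)).card)).card : ℝ) * lam ^ (r + 1)
      ≤ ∑ f ∈ Pi n s N, ∏ i, g (f i) := by
    apply card_mul_le_of_forall _ _ (Finset.filter_subset _ _)
    · intro f _
      exact Finset.prod_nonneg (fun i _ => (hg0 _).le)
    · intro f hf
      rw [Finset.mem_filter] at hf
      rw [hprod]
      exact pow_le_pow_right₀ hlam hf.2
  have hPR : (0 : ℝ) < n.choose s := by exact_mod_cast hP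
  have h2 : ∑ x ∈ (univ : Finset (Fin n)).powersetCard s, g x
      ≤ (n.choose s : ℝ) * Real.exp (lam * Q / n.choose s) := by
    have h3 : ∑ x ∈ (univ : Finset (Fin n)).powersetCard s, g x
        ≤ ∑ x ∈ (univ : Finset (Fin n)).powersetCard s,
          (1 + lam * (if (x \ Y).card < d then (1 : ℝ) else 0)) := by
      apply Finset.sum_le_sum
      intro x _
      simp only [hg]
      split_ifs
      · linarith
      · norm_num
    have h4 : ∑ x ∈ (univ : Finset (Fin n)).powersetCard s,
          (1 + lam * (if (x \ Y).card < d then (1 : ℝ) else 0))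
        = (n.choose s : ℝ) + lam * ((((univ : Finset (Fin n)).powersetCard s).filter
      (fun H => (H \ Y).card < d)).card : ℝ) := by
      rw [Finset.sum_add_distrib, ← Finset.mul_sum]
      simp only [Finset.sum_const, Finset.card_powersetCard, Finset.card_univ, Fintype.card_fin,
        nsmul_eq_mul, mul_one, Finset.sum_boole]
    have h6 : 1 + lam * Q / n.choose s ≤ Real.exp (lam * Q / n.choose s) := by
      have := Real.add_one_le_exp (lam * Q / n.choose s)
      linarith
    have h8 := mul_le_mul_of_nonneg_left h6 hPR.le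
    have h9 : (n.choose s : ℝ) * (1 + lam * Q / n.choose s) = n.choose s + lam * Q := by
      field_simp
    have h10 := mul_le_mul_of_nonneg_left hQ (by linarith : (0 : ℝ) ≤ lam)
    rw [h4] at h3
    linarith
  have h9 := h1.trans (sum_prod_le N _ g (fun x _ => (hg0 x).le) h2)
  rw [mul_pow, ← Real.exp_nat_mul] at h9
  refine h9.trans ?_
  apply mul_le_mul_of_nonneg_left _ (by positivity)
  apply Real.exp_le_exp.2
  rw [← mul_div_assoc, div_le_one hPR]
  exact hN

end Pool.Agent.Work.MP_5c4cbf_co
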