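import Pool.Agent.Work.MP_5c4cbf_co.TProb

/-! Random cores, continued: the average number of missed cores, and existence of a good list. -/

namespace Pool.Agent.Work.MP_5c4cbf_co

open Finset

variable {n K : ℕ}

/-- fraction of the completions of `h` that miss `H`, truncated -/
noncomputable def XX (m : Fin K × Bool ↪ Fin n) (d : ℕ) (h H : Finset (Fin n)) : ℝ :=
  if d ≤ (H \ YY m h).card then ((Dh m h H).card : ℝ) / (Bh m h).card else 0

lemma XX_nonneg (m : Fin K × Bool ↪ Fin n) (d : ℕ) (h H : Finset (Fin n)) : 0 ≤ XX m d h H := by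
  unfold XX; split_ifs <;> positivity

lemma XX_le (m : Fin K × Bool ↪ Fin n) (d : ℕ) (h H : Finset (Fin n)) (hne : (Bh m h).Nonempty) :
    2 ^ d * XX m d h H ≤ 1 := by
  unfold XX
  split_ifs with hd
  · have h1 : ((Dh m h H).card * 2 ^ (H \ YY m h).card : ℝ) ≤ (Bh m h).card := by
      exact_mod_cast Dh_le_Bh m h H hne
    have h2 : (0 : ℝ) < (Bh m h).card := by exact_mod_cast hne.card_pos
    rw [← mul_div_assoc, div_le_one h2]
    refine le_trans ?_ h1
    rw [mul_comm]
    apply mul_le_mul_of_nonneg_left _ (by positivity)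
    exact pow_le_pow_right₀ (by norm_num) hd
  · simp

lemma exp_le_lin {x : ℝ} (h0 : 0 ≤ x) (h1 : x ≤ 1) : Real.exp x ≤ 1 + 2 * x := by
  have h2 := Real.abs_exp_sub_one_sub_id_le (x := x) (by rw [abs_le]; constructor <;> linarith)
  have h3 := (abs_le.1 h2).2
  nlinarith

lemma sum_exp_XX (m : Fin K × Bool ↪ Fin n) (d s : ℕ) (h : Finset (Fin n))
    (hne : (Bh m h).Nonempty) {q : ℝ} (hq : ((n - K).choose s : ℝ) ≤ q * n.choose s) :
    ∑ H ∈ (univ : Finset (Fin n)).powersetCard s, Real.exp (2 ^ d * XX m d h H)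
      ≤ (n.choose s : ℝ) * Real.exp (2 * 2 ^ d * q) := by
  have h1 : ∀ H ∈ (univ : Finset (Fin n)).powersetCard s, Real.exp (2 ^ d * XX m d h H)
      ≤ 1 + 2 * 2 ^ d * (((Dh m h H).card : ℝ) / (Bh m h).card) := by
    intro H _
    have h2 := exp_le_lin (mul_nonneg (by positivity : (0 : ℝ) ≤ 2 ^ d) (XX_nonneg m d h H))
      (XX_le m d h H hne)
    have h3 : XX m d h H ≤ ((Dh m h H).card : ℝ) / (Bh m h).card := by
      unfold XX; split_ifs
      · exact le_rfl
      · positivity
    have h4 := mul_le_mul_of_nonneg_left h3 (by positivity : (0 : ℝ) ≤ 2 * 2 ^ d)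
    linarith
  refine (Finset.sum_le_sum h1).trans ?_
  rw [Finset.sum_add_distrib, ← Finset.mul_sum, ← Finset.sum_div]
  have h2 : (∑ H ∈ (univ : Finset (Fin n)).powersetCard s, ((Dh m h H).card : ℝ))
      = (Bh m h).card * (n - K).choose s := by
    exact_mod_cast sum_Dh m h s
  have h3 : (0 : ℝ) < (Bh m h).card := by exact_mod_cast hne.card_pos
  rw [h2, mul_div_cancel_left₀ _ h3.ne']
  simp only [Finset.sum_const, Finset.card_powersetCard, Finset.card_univ, Fintype.card_fin,
    nsmul_eq_mul, mul_one]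
  have h4 : 1 + 2 * 2 ^ d * q ≤ Real.exp (2 * 2 ^ d * q) := by
    have := Real.add_one_le_exp (2 * 2 ^ d * q)
    linarith
  have h5 := mul_le_mul_of_nonneg_left h4 (by positivity : (0 : ℝ) ≤ n.choose s)
  have h6 := mul_le_mul_of_nonneg_left hq (by positivity : (0 : ℝ) ≤ 2 * 2 ^ d)
  linarith

open Classical in
lemma event3 (m : Fin K × Bool ↪ Fin n) (d s N : ℕ) (i : Fin N) {q : ℝ} (hq0 : 0 ≤ q)
    (hq : ((n - K).choose s : ℝ) ≤ q * n.choose s) :
    (((Pi n s N).filter (fun f => (Bh m (f i)).Nonempty ∧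
      1 ≤ ∑ j ∈ univ.erase i, XX m d (f i) (f j))).card : ℝ) * Real.exp (2 ^ d)
      ≤ (n.choose s : ℝ) ^ N * Real.exp (2 * 2 ^ d * q * N) := by
  set A : ℝ := (n.choose s : ℝ) * Real.exp (2 * 2 ^ d * q) with hA
  set S := (Pi n s N).filter (fun f => (Bh m (f i)).Nonempty) with hS
  have h1 : (((Pi n s N).filter (fun f => (Bh m (f i)).Nonempty ∧
      1 ≤ ∑ j ∈ univ.erase i, XX m d (f i) (f j))).card : ℝ) * Real.exp (2 ^ d)
      ≤ ∑ f ∈ S, ∏ j ∈ univ.erase i, Real.exp (2 ^ d * XX m d (f i) (f j)) := by
    apply card_mul_le_of_forall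
    · intro f hf
      rw [Finset.mem_filter] at hf
      rw [hS, Finset.mem_filter]
      exact ⟨hf.1, hf.2.1⟩
    · intro f _
      exact Finset.prod_nonneg (fun j _ => (Real.exp_pos _).le)
    · intro f hf
      rw [Finset.mem_filter] at hf
      rw [← Real.exp_sum, ← Finset.mul_sum]
      apply Real.exp_le_exp.2
      have := mul_le_mul_of_nonneg_left hf.2.2 (by positivity : (0 : ℝ) ≤ 2 ^ d)
      linarith
  refine h1.trans ?_
  set TT := ((univ : Finset (Fin n)).powersetCard s).filter
      (fun h => (Bh m h).Nonempty) with hTT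
  have hmaps : ∀ f ∈ S, f i ∈ TT := by
    intro f hf
    rw [hS, Finset.mem_filter, mem_Pi] at hf
    rw [hTT, Finset.mem_filter, Finset.mem_powersetCard]
    exact ⟨⟨Finset.subset_univ _, hf.1 i⟩, hf.2⟩
  rw [← Finset.sum_fiberwise_of_maps_to hmaps]
  have hPA : (n.choose s : ℝ) ≤ A := by
    rw [hA]
    have : (1 : ℝ) ≤ Real.exp (2 * 2 ^ d * q) := Real.one_le_exp (by positivity)
    have h0 : (0 : ℝ) ≤ n.choose s := by positivity
    nlinarith
  have hA0 : 0 ≤ A := by positivity
  have hN : 1 ≤ N := i.pos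
  have hinner : ∀ h ∈ TT, ∑ f ∈ S with f i = h,
        ∏ j ∈ univ.erase i, Real.exp (2 ^ d * XX m d (f i) (f j)) ≤ A ^ (N - 1) := by
    intro h hh
    rw [hTT, Finset.mem_filter] at hh
    set t : Fin N → Finset (Finset (Fin n)) := fun j =>
      if j = i then {h} else (univ : Finset (Fin n)).powersetCard s with ht
    set g : Fin N → Finset (Fin n) → ℝ := fun j x =>
      if j = i then 1 else Real.exp (2 ^ d * XX m d h x) with hg
    have hsub : (S.filter (fun f => f i = h)) ⊆ Fintype.piFinset t := by
      intro f hf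
      rw [Finset.mem_filter, hS, Finset.mem_filter, mem_Pi] at hf
      rw [Fintype.mem_piFinset]
      intro j
      simp only [ht]
      split_ifs with hj
      · rw [Finset.mem_singleton, hj]; exact hf.2
      · rw [Finset.mem_powersetCard]
        exact ⟨Finset.subset_univ _, hf.1.1 j⟩
    have hg0 : ∀ j x, 0 ≤ g j x := by
      intro j x; simp only [hg]; split_ifs
      · norm_num
      · exact (Real.exp_pos _).le
    calc ∑ f ∈ S.filter (fun f => f i = h), ∏ j ∈ univ.erase i, Real.exp (2 ^ d * XX m d (f i) (f j))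
        = ∑ f ∈ S.filter (fun f => f i = h), ∏ j, g j (f j) := by
          apply Finset.sum_congr rfl
          intro f hf
          rw [Finset.mem_filter] at hf
          rw [← Finset.mul_prod_erase univ _ (Finset.mem_univ i)]
          have h1 : g i (f i) = 1 := by simp [hg]
          rw [h1, one_mul]
          apply Finset.prod_congr rfl
          intro j hj
          have hji : j ≠ i := (Finset.mem_erase.1 hj).1
          simp only [hg, if_neg hji, hf.2]
      _ ≤ ∑ f ∈ Fintype.piFinset t, ∏ j, g j (f j) :=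
          Finset.sum_le_sum_of_subset_of_nonneg hsub
            (fun f _ _ => Finset.prod_nonneg (fun j _ => hg0 j _))
      _ = ∏ j, ∑ x ∈ t j, g j x := (Finset.prod_univ_sum t g).symm
      _ ≤ ∏ j : Fin N, (if j = i then 1 else A) := by
          apply Finset.prod_le_prod
          · intro j _
            exact Finset.sum_nonneg (fun x _ => hg0 j x)
          · intro j _
            by_cases hj : j = i
            · simp [ht, hg, hj]
            · simp only [ht, hg, if_neg hj]
              exact sum_exp_XX m d s h hh.2 hq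
      _ = A ^ (N - 1) := by
          rw [Finset.prod_ite]
          simp only [Finset.prod_const_one, one_mul, Finset.prod_const]
          congr 1
          rw [Finset.filter_not, Finset.card_sdiff_of_subset (Finset.filter_subset _ _)]
          simp [Finset.filter_eq']
  calc _ ≤ ∑ h ∈ TT, A ^ (N - 1) := Finset.sum_le_sum hinner
    _ = ((TT).card : ℝ) * A ^ (N - 1) := by simp
    _ ≤ (n.choose s : ℝ) * A ^ (N - 1) := by
        apply mul_le_mul_of_nonneg_right _ (by positivity)
        have := Finset.card_le_card (Finset.filter_subset (fun h => (Bh m h).Nonempty)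
          ((univ : Finset (Fin n)).powersetCard s))
        simp only [Finset.card_powersetCard, Finset.card_univ, Fintype.card_fin] at this
        exact_mod_cast this
    _ ≤ A * A ^ (N - 1) := mul_le_mul_of_nonneg_right hPA (by positivity)
    _ = A ^ N := by
        rw [← pow_succ']
        congr 1
        omega
    _ = (n.choose s : ℝ) ^ N * Real.exp (2 * 2 ^ d * q * N) := by
        rw [hA, mul_pow, ← Real.exp_nat_mul]
        congr 2
        ring

end Pool.Agent.Work.MP_5c4cbf_co
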