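import Pool.Agent.Work.MP_5c4cbf_co.TProb2

/-! Random cores, conclusion: existence of a good list. -/

namespace Pool.Agent.Work.MP_5c4cbf_co

open Finset

variable {n K : ℕ}

/-- `i` is a good candidate for the matching `m`: some transversal of `m` contains the core `f i`
and misses at most `r` of the other cores. -/
def GoodCand {N : ℕ} (m : Fin K × Bool ↪ Fin n) (f : Fin N → Finset (Fin n)) (r : ℕ)
    (i : Fin N) : Prop :=
  ∃ b, f i ⊆ tr m b ∧ ∃ F : Finset (Fin N), F.card ≤ r ∧ i ∉ F ∧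
    ∀ j, j ≠ i → j ∉ F → ¬ Disjoint (tr m b) (f j)

open Classical in
lemma goodCand_of {N : ℕ} (m : Fin K × Bool ↪ Fin n) (f : Fin N → Finset (Fin n)) {r d : ℕ}
    {i : Fin N} (hi : (Bh m (f i)).Nonempty)
    (h2 : (univ.filter (fun j => (f j \ YY m (f i)).card < d)).card ≤ r)
    (h3 : ∑ j ∈ univ.erase i, XX m d (f i) (f j) < 1) : GoodCand m f r i := by
  set F := (univ.filter (fun j => (f j \ YY m (f i)).card < d)).erase i with hF
  have hFc : F.card ≤ r := (Finset.card_le_card (Finset.erase_subset _ _)).trans h2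
  by_contra hcon
  have h4 : ∀ b ∈ Bh m (f i), ∃ j ∈ (univ.erase i).filter (fun j => d ≤ (f j \ YY m (f i)).card),
      b ∈ Dh m (f i) (f j) := by
    intro b hb
    by_contra hb2
    push Not at hb2
    apply hcon
    refine ⟨b, mem_Bh.1 hb, F, hFc, by simp [hF], ?_⟩
    intro j hji hjF hdis
    apply hb2 j
    · rw [Finset.mem_filter, Finset.mem_erase]
      refine ⟨⟨hji, Finset.mem_univ _⟩, ?_⟩
      by_contra hlt
      push Not at hlt
      apply hjF
      rw [hF, Finset.mem_erase, Finset.mem_filter]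
      exact ⟨hji, Finset.mem_univ _, hlt⟩
    · exact mem_Dh.2 ⟨mem_Bh.1 hb, hdis⟩
  have h5 : Bh m (f i) ⊆ ((univ.erase i).filter
      (fun j => d ≤ (f j \ YY m (f i)).card)).biUnion (fun j => Dh m (f i) (f j)) := by
    intro b hb
    rw [Finset.mem_biUnion]
    exact h4 b hb
  have h6 : ((Bh m (f i)).card : ℝ) ≤ ∑ j ∈ (univ.erase i).filter
      (fun j => d ≤ (f j \ YY m (f i)).card), ((Dh m (f i) (f j)).card : ℝ) := by
    exact_mod_cast (Finset.card_le_card h5).trans Finset.card_biUnion_le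
  have h7 : (0 : ℝ) < (Bh m (f i)).card := by exact_mod_cast hi.card_pos
  have h8 : ∑ j ∈ univ.erase i, XX m d (f i) (f j)
      = (∑ j ∈ (univ.erase i).filter
      (fun j => d ≤ (f j \ YY m (f i)).card), ((Dh m (f i) (f j)).card : ℝ)) /
        (Bh m (f i)).card := by
    rw [Finset.sum_div, Finset.sum_filter]
    rfl
  rw [h8, div_lt_one h7] at h3
  linarith

/-- The numerical conditions of the probabilistic part. -/
structure Num (n K s N r d L y : ℕ) (p q lam Q : ℝ) : Prop where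
  hs : 1 ≤ s
  hP : 0 < n.choose s
  hp : p * n.choose s ≤ K.choose s * 2 ^ s
  hq0 : 0 ≤ q
  hq : ((n - K).choose s : ℝ) ≤ q * n.choose s
  hlam : 1 ≤ lam
  hy : n - 2 * K + 2 * s ≤ y
  hQ : ∀ Y : Finset (Fin n), Y.card ≤ y →
    ((((univ : Finset (Fin n)).powersetCard s).filter (fun H => (H \ Y).card < d)).card : ℝ) ≤ Q
  hN : N * (lam * Q) ≤ n.choose s
  a1 : (Fintype.card (Fin K × Bool ↪ Fin n) : ℝ) * Real.exp (L - p * N / 2) ≤ 1 / 4
  a2 : (2 : ℝ) ^ n * Real.exp 1 ≤ lam ^ (r + 1) / 4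
  a3 : (Fintype.card (Fin K × Bool ↪ Fin n) : ℝ) * N * Real.exp (2 * 2 ^ d * q * N - 2 ^ d) ≤ 1 / 4

open Classical in
theorem exists_list {s N r d L y : ℕ} {p q lam Q : ℝ} (hnum : Num n K s N r d L y p q lam Q) :
    ∃ f : Fin N → Finset (Fin n), (∀ i, (f i).card = s) ∧
      ∀ m : Fin K × Bool ↪ Fin n, ∃ C : Finset (Fin N), L ≤ C.card ∧ ∀ i ∈ C, GoodCand m f r i := by
  set P : ℝ := (n.choose s : ℝ) ^ N with hPdef
  have hP0 : 0 < P := by
    have : (0 : ℝ) < n.choose s := by exact_mod_cast hnum.hP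
    positivity
  set B1 := (univ : Finset (Fin K × Bool ↪ Fin n)).biUnion
    (fun m => (Pi n s N).filter (fun f => (cand m f).card < L)) with hB1
  set B2 := ((univ : Finset (Finset (Fin n))).filter (fun Y => Y.card ≤ y)).biUnion
    (fun Y => (Pi n s N).filter (fun f =>
      r < (univ.filter (fun j => (f j \ Y).card < d)).card)) with hB2
  set B3 := (univ : Finset ((Fin K × Bool ↪ Fin n) × Fin N)).biUnion
    (fun x => (Pi n s N).filter (fun f => (Bh x.1 (f x.2)).Nonempty ∧
      1 ≤ ∑ j ∈ univ.erase x.2, XX x.1 d (f x.2) (f j))) with hB3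
  have c1 : (B1.card : ℝ) ≤ P / 4 := by
    have h1 : (B1.card : ℝ) ≤ ∑ m : Fin K × Bool ↪ Fin n,
        (((Pi n s N).filter (fun f => (cand m f).card < L)).card : ℝ) := by
      exact_mod_cast Finset.card_biUnion_le
    have h2 : ∑ m : Fin K × Bool ↪ Fin n,
        (((Pi n s N).filter (fun f => (cand m f).card < L)).card : ℝ)
        ≤ ∑ m : Fin K × Bool ↪ Fin n, P * Real.exp (L - p * N / 2) :=
      Finset.sum_le_sum (fun m _ => event1 m s N L hnum.hp)
    have h3 : ∑ m : Fin K × Bool ↪ Fin n, P * Real.exp (L - p * N / 2)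
        = P * ((Fintype.card (Fin K × Bool ↪ Fin n) : ℝ) * Real.exp (L - p * N / 2)) := by
      simp only [Finset.sum_const, Finset.card_univ, nsmul_eq_mul]
      ring
    have h4 := mul_le_mul_of_nonneg_left hnum.a1 hP0.le
    linarith
  have c2 : (B2.card : ℝ) ≤ P / 4 := by
    have hl : (0 : ℝ) < lam ^ (r + 1) := by
      have := hnum.hlam
      positivity
    have h1 : (B2.card : ℝ) ≤ ∑ Y ∈ (univ : Finset (Finset (Fin n))).filter (fun Y => Y.card ≤ y),
        (((Pi n s N).filter (fun f =>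
          r < (univ.filter (fun j => (f j \ Y).card < d)).card)).card : ℝ) := by
      exact_mod_cast Finset.card_biUnion_le
    have h2 : ∑ Y ∈ (univ : Finset (Finset (Fin n))).filter (fun Y => Y.card ≤ y),
        (((Pi n s N).filter (fun f =>
          r < (univ.filter (fun j => (f j \ Y).card < d)).card)).card : ℝ)
        ≤ ∑ Y ∈ (univ : Finset (Finset (Fin n))).filter (fun Y => Y.card ≤ y),
          P * Real.exp 1 / lam ^ (r + 1) := by
      apply Finset.sum_le_sum
      intro Y hY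
      rw [le_div_iff₀ hl]
      exact event2 Y s N r d hnum.hlam (hnum.hQ Y (Finset.mem_filter.1 hY).2) hnum.hP hnum.hN
    have h3 : ∑ Y ∈ (univ : Finset (Finset (Fin n))).filter (fun Y => Y.card ≤ y),
          P * Real.exp 1 / lam ^ (r + 1) ≤ 2 ^ n * (P * Real.exp 1 / lam ^ (r + 1)) := by
      rw [Finset.sum_const, nsmul_eq_mul]
      apply mul_le_mul_of_nonneg_right _ (by positivity)
      have := Finset.card_le_card (Finset.filter_subset (fun Y : Finset (Fin n) => Y.card ≤ y) univ)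
      simp only [Finset.card_univ, Fintype.card_finset, Fintype.card_fin] at this
      exact_mod_cast this
    have h4 : 2 ^ n * (P * Real.exp 1 / lam ^ (r + 1)) ≤ P / 4 := by
      rw [← mul_div_assoc, div_le_iff₀ hl]
      have := mul_le_mul_of_nonneg_left hnum.a2 hP0.le
      nlinarith
    linarith
  have c3 : (B3.card : ℝ) ≤ P / 4 := by
    have h1 : (B3.card : ℝ) ≤ ∑ x : (Fin K × Bool ↪ Fin n) × Fin N,
        (((Pi n s N).filter (fun f => (Bh x.1 (f x.2)).Nonempty ∧
      1 ≤ ∑ j ∈ univ.erase x.2, XX x.1 d (f x.2) (f j))).card : ℝ) := by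
      exact_mod_cast Finset.card_biUnion_le
    have h2 : ∑ x : (Fin K × Bool ↪ Fin n) × Fin N,
        (((Pi n s N).filter (fun f => (Bh x.1 (f x.2)).Nonempty ∧
      1 ≤ ∑ j ∈ univ.erase x.2, XX x.1 d (f x.2) (f j))).card : ℝ)
        ≤ ∑ x : (Fin K × Bool ↪ Fin n) × Fin N, P * Real.exp (2 * 2 ^ d * q * N - 2 ^ d) := by
      apply Finset.sum_le_sum
      intro x _
      rw [Real.exp_sub, ← mul_div_assoc, le_div_iff₀ (Real.exp_pos _)]
      exact event3 x.1 d s N x.2 hnum.hq0 hnum.hq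
    have h3 : ∑ x : (Fin K × Bool ↪ Fin n) × Fin N, P * Real.exp (2 * 2 ^ d * q * N - 2 ^ d)
        = P * ((Fintype.card (Fin K × Bool ↪ Fin n) : ℝ) * N *
          Real.exp (2 * 2 ^ d * q * N - 2 ^ d)) := by
      simp only [Finset.sum_const, Finset.card_univ, nsmul_eq_mul, Fintype.card_prod,
        Fintype.card_fin]
      push_cast
      ring
    have h4 := mul_le_mul_of_nonneg_left hnum.a3 hP0.le
    linarith
  have hex : ∃ f ∈ Pi n s N, f ∉ B1 ∪ B2 ∪ B3 := by
    by_contra hcon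
    push Not at hcon
    have h1 : (Pi n s N).card ≤ (B1 ∪ B2 ∪ B3).card := Finset.card_le_card hcon
    have h2 : (B1 ∪ B2 ∪ B3).card ≤ B1.card + B2.card + B3.card :=
      (Finset.card_union_le _ _).trans (Nat.add_le_add_right (Finset.card_union_le _ _) _)
    have h3 : ((Pi n s N).card : ℝ) ≤ B1.card + B2.card + B3.card := by exact_mod_cast h1.trans h2
    rw [card_Pi] at h3
    push_cast at h3
    rw [← hPdef] at h3
    linarith
  obtain ⟨f, hf, hfB⟩ := hex
  simp only [Finset.mem_union, not_or] at hfB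
  obtain ⟨⟨hf1, hf2⟩, hf3⟩ := hfB
  have hfs := mem_Pi.1 hf
  refine ⟨f, hfs, fun m => ⟨cand m f, ?_, ?_⟩⟩
  · by_contra hlt
    push Not at hlt
    apply hf1
    rw [hB1, Finset.mem_biUnion]
    exact ⟨m, Finset.mem_univ _, Finset.mem_filter.2 ⟨hf, hlt⟩⟩
  · intro i hi
    have hi2 : (Bh m (f i)).Nonempty := by
      rw [cand, Finset.mem_filter] at hi
      exact hi.2
    apply goodCand_of m f (d := d) hi2
    · by_contra hlt
      push Not at hlt
      apply hf2
      rw [hB2, Finset.mem_biUnion]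
      refine ⟨YY m (f i), ?_, Finset.mem_filter.2 ⟨hf, hlt⟩⟩
      rw [Finset.mem_filter]
      refine ⟨Finset.mem_univ _, ?_⟩
      have := YY_card m (f i)
      rw [hfs i] at this
      exact this.trans hnum.hy
    · by_contra hlt
      push Not at hlt
      apply hf3
      rw [hB3, Finset.mem_biUnion]
      exact ⟨(m, i), Finset.mem_univ _, Finset.mem_filter.2 ⟨hf, hi2, hlt⟩⟩

end Pool.Agent.Work.MP_5c4cbf_co
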