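import Pool.Agent.Work.MP_5c4cbf_co.TProb3

/-! Random cores, with prescribed extra elements: whatever few extra elements a completion has to
contain, it can be chosen so that it misses only few cores, known in advance. -/

namespace Pool.Agent.Work.MP_5c4cbf_co

open Finset

variable {n K : ℕ}

lemma YY_union_card (m : Fin K × Bool ↪ Fin n) (h E : Finset (Fin n)) :
    (YY m (h ∪ E) \ YY m h).card ≤ 2 * E.card := by
  classical
  have hsub : YY m (h ∪ E) \ YY m h ⊆ E ∪ (univ.filter (fun p : Fin K × Bool =>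
      m p ∈ E)).image (fun p => m (p.1, !p.2)) := by
    intro x hx
    rw [Finset.mem_sdiff] at hx
    obtain ⟨hx1, hx2⟩ := hx
    rw [YY, Finset.mem_filter] at hx1 hx2
    push Not at hx2
    obtain ⟨i, β, h3, h4⟩ := hx2 (Finset.mem_univ x)
    obtain ⟨γ, hγ⟩ := hx1.2 i β h3
    rw [Finset.mem_union] at hγ
    have hE : m (i, γ) ∈ E := hγ.resolve_left (h4 γ)
    rw [Finset.mem_union]
    by_cases hβ : γ = β
    · subst hβ
      rw [h3] at hE
      exact Or.inl hE
    · right
      rw [Finset.mem_image]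
      refine ⟨(i, γ), Finset.mem_filter.2 ⟨Finset.mem_univ _, hE⟩, ?_⟩
      have : (!γ) = β := by cases γ <;> cases β <;> simp_all
      simp only [this]
      exact h3
  have h2 : ((univ.filter (fun p : Fin K × Bool => m p ∈ E)).image
      (fun p => m (p.1, !p.2))).card ≤ E.card := by
    refine Finset.card_image_le.trans ?_
    rw [← Finset.card_map m]
    apply Finset.card_le_card
    intro x hx
    rw [Finset.mem_map] at hx
    obtain ⟨p, hp, rfl⟩ := hx
    exact (Finset.mem_filter.1 hp).2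
  have h3 := (Finset.card_le_card hsub).trans (Finset.card_union_le _ _)
  omega

lemma sdiff_YY_le (m : Fin K × Bool ↪ Fin n) (h E H : Finset (Fin n)) :
    (H \ YY m h).card ≤ (H \ YY m (h ∪ E)).card + 2 * E.card := by
  classical
  have h1 : H \ YY m h ⊆ (H \ YY m (h ∪ E)) ∪ (YY m (h ∪ E) \ YY m h) := by
    intro x hx
    rw [Finset.mem_sdiff] at hx
    rw [Finset.mem_union, Finset.mem_sdiff, Finset.mem_sdiff]
    by_cases hx2 : x ∈ YY m (h ∪ E)
    · exact Or.inr ⟨hx2, hx.2⟩
    · exact Or.inl ⟨hx.1, hx2⟩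
  have h2 := (Finset.card_le_card h1).trans (Finset.card_union_le _ _)
  have h3 := YY_union_card m h E
  omega

open Classical in
lemma event3E (m : Fin K × Bool ↪ Fin n) (d s N : ℕ) (i : Fin N) (E : Finset (Fin n)) {q : ℝ} (hq0 : 0 ≤ q)
    (hq : ((n - K).choose s : ℝ) ≤ q * n.choose s) :
    (((Pi n s N).filter (fun f => (Bh m (f i ∪ E)).Nonempty ∧
      1 ≤ ∑ j ∈ univ.erase i, XX m d (f i ∪ E) (f j))).card : ℝ) * Real.exp (2 ^ d)
      ≤ (n.choose s : ℝ) ^ N * Real.exp (2 * 2 ^ d * q * N) := by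
  set A : ℝ := (n.choose s : ℝ) * Real.exp (2 * 2 ^ d * q) with hA
  set S := (Pi n s N).filter (fun f => (Bh m (f i ∪ E)).Nonempty) with hS
  have h1 : (((Pi n s N).filter (fun f => (Bh m (f i ∪ E)).Nonempty ∧
      1 ≤ ∑ j ∈ univ.erase i, XX m d (f i ∪ E) (f j))).card : ℝ) * Real.exp (2 ^ d)
      ≤ ∑ f ∈ S, ∏ j ∈ univ.erase i, Real.exp (2 ^ d * XX m d (f i ∪ E) (f j)) := by
    apply card_mul_le_of_forall
    · intro f hf
      rw [Finset.mem_filter] at hf
      rw [hS, Finset.mem_filter]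
      exact ⟨hf.1, hf.2.1⟩
    · intro f _
      exact Finset.prod_nonneg (fun j _ => (Real.exp_pos _).le)
    · intro f hf
      rw [Finset.mem_filter] at hf
      rw [← Real.exp_sum, ← Finset.mul_sum]
      apply Real.exp_le_exp.2
      have := mul_le_mul_of_nonneg_left hf.2.2 (by positivity : (0 : ℝ) ≤ 2 ^ d)
      linarith
  refine h1.trans ?_
  set TT := ((univ : Finset (Fin n)).powersetCard s).filter
      (fun h => (Bh m (h ∪ E)).Nonempty) with hTT
  have hmaps : ∀ f ∈ S, f i ∈ TT := by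
    intro f hf
    rw [hS, Finset.mem_filter, mem_Pi] at hf
    rw [hTT, Finset.mem_filter, Finset.mem_powersetCard]
    exact ⟨⟨Finset.subset_univ _, hf.1 i⟩, hf.2⟩
  rw [← Finset.sum_fiberwise_of_maps_to hmaps]
  have hPA : (n.choose s : ℝ) ≤ A := by
    rw [hA]
    have : (1 : ℝ) ≤ Real.exp (2 * 2 ^ d * q) := Real.one_le_exp (by positivity)
    have h0 : (0 : ℝ) ≤ n.choose s := by positivity
    nlinarith
  have hA0 : 0 ≤ A := by positivity
  have hN : 1 ≤ N := i.pos
  have hinner : ∀ h ∈ TT, ∑ f ∈ S with f i = h,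
        ∏ j ∈ univ.erase i, Real.exp (2 ^ d * XX m d (f i ∪ E) (f j)) ≤ A ^ (N - 1) := by
    intro h hh
    rw [hTT, Finset.mem_filter] at hh
    set t : Fin N → Finset (Finset (Fin n)) := fun j =>
      if j = i then {h} else (univ : Finset (Fin n)).powersetCard s with ht
    set g : Fin N → Finset (Fin n) → ℝ := fun j x =>
      if j = i then 1 else Real.exp (2 ^ d * XX m d (h ∪ E) x) with hg
    have hsub : (S.filter (fun f => f i = h)) ⊆ Fintype.piFinset t := by
      intro f hf
      rw [Finset.mem_filter, hS, Finset.mem_filter, mem_Pi] at hf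
      rw [Fintype.mem_piFinset]
      intro j
      simp only [ht]
      split_ifs with hj
      · rw [Finset.mem_singleton, hj]; exact hf.2
      · rw [Finset.mem_powersetCard]
        exact ⟨Finset.subset_univ _, hf.1.1 j⟩
    have hg0 : ∀ j x, 0 ≤ g j x := by
      intro j x; simp only [hg]; split_ifs
      · norm_num
      · exact (Real.exp_pos _).le
    calc ∑ f ∈ S.filter (fun f => f i = h), ∏ j ∈ univ.erase i, Real.exp (2 ^ d * XX m d (f i ∪ E) (f j))
        = ∑ f ∈ S.filter (fun f => f i = h), ∏ j, g j (f j) := by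
          apply Finset.sum_congr rfl
          intro f hf
          rw [Finset.mem_filter] at hf
          rw [← Finset.mul_prod_erase univ _ (Finset.mem_univ i)]
          have h1 : g i (f i) = 1 := by simp [hg]
          rw [h1, one_mul]
          apply Finset.prod_congr rfl
          intro j hj
          have hji : j ≠ i := (Finset.mem_erase.1 hj).1
          simp only [hg, if_neg hji, hf.2]
      _ ≤ ∑ f ∈ Fintype.piFinset t, ∏ j, g j (f j) :=
          Finset.sum_le_sum_of_subset_of_nonneg hsub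
            (fun f _ _ => Finset.prod_nonneg (fun j _ => hg0 j _))
      _ = ∏ j, ∑ x ∈ t j, g j x := (Finset.prod_univ_sum t g).symm
      _ ≤ ∏ j : Fin N, (if j = i then 1 else A) := by
          apply Finset.prod_le_prod
          · intro j _
            exact Finset.sum_nonneg (fun x _ => hg0 j x)
          · intro j _
            by_cases hj : j = i
            · simp [ht, hg, hj]
            · simp only [ht, hg, if_neg hj]
              exact sum_exp_XX m d s (h ∪ E) hh.2 hq
      _ = A ^ (N - 1) := by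
          rw [Finset.prod_ite]
          simp only [Finset.prod_const_one, one_mul, Finset.prod_const]
          congr 1
          rw [Finset.filter_not, Finset.card_sdiff_of_subset (Finset.filter_subset _ _)]
          simp [Finset.filter_eq']
  calc _ ≤ ∑ h ∈ TT, A ^ (N - 1) := Finset.sum_le_sum hinner
    _ = ((TT).card : ℝ) * A ^ (N - 1) := by simp
    _ ≤ (n.choose s : ℝ) * A ^ (N - 1) := by
        apply mul_le_mul_of_nonneg_right _ (by positivity)
        have := Finset.card_le_card (Finset.filter_subset (fun h => (Bh m (h ∪ E)).Nonempty)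
          ((univ : Finset (Fin n)).powersetCard s))
        simp only [Finset.card_powersetCard, Finset.card_univ, Fintype.card_fin] at this
        exact_mod_cast this
    _ ≤ A * A ^ (N - 1) := mul_le_mul_of_nonneg_right hPA (by positivity)
    _ = A ^ N := by
        rw [← pow_succ']
        congr 1
        omega
    _ = (n.choose s : ℝ) ^ N * Real.exp (2 * 2 ^ d * q * N) := by
        rw [hA, mul_pow, ← Real.exp_nat_mul]
        congr 2
        ring

/-- `i` is a good candidate for the matching `m`, robustly: there are at most `r` exceptional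
cores such that, for every set `E` of at most `e` elements compatible with the core, some
transversal containing the core and `E` meets all other cores. -/
def GoodCandE {N : ℕ} (m : Fin K × Bool ↪ Fin n) (f : Fin N → Finset (Fin n)) (r e : ℕ)
    (i : Fin N) (F : Finset (Fin N)) : Prop :=
  (Bh m (f i)).Nonempty ∧ F.card ≤ r ∧ i ∉ F ∧
    ∀ E : Finset (Fin n), E.card ≤ e → (Bh m (f i ∪ E)).Nonempty →
      ∃ b, f i ∪ E ⊆ tr m b ∧ ∀ j, j ≠ i → j ∉ F → ¬ Disjoint (tr m b) (f j)

open Classical in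
lemma goodCandE_of {N : ℕ} (m : Fin K × Bool ↪ Fin n) (f : Fin N → Finset (Fin n)) {r d e : ℕ}
    {i : Fin N} (hi : (Bh m (f i)).Nonempty)
    (h2 : (univ.filter (fun j => (f j \ YY m (f i)).card < d + 2 * e)).card ≤ r)
    (h3 : ∀ E : Finset (Fin n), (Bh m (f i ∪ E)).Nonempty →
      ∑ j ∈ univ.erase i, XX m d (f i ∪ E) (f j) < 1) :
    GoodCandE m f r e i ((univ.filter (fun j => (f j \ YY m (f i)).card < d + 2 * e)).erase i) := by
  set F := (univ.filter (fun j => (f j \ YY m (f i)).card < d + 2 * e)).erase i with hF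
  have hFc : F.card ≤ r := (Finset.card_le_card (Finset.erase_subset _ _)).trans h2
  refine ⟨hi, hFc, by simp [hF], ?_⟩
  intro E hE hne
  by_contra hcon
  have h3 := h3 E hne
  have h4 : ∀ b ∈ Bh m (f i ∪ E), ∃ j ∈ (univ.erase i).filter
      (fun j => d ≤ (f j \ YY m (f i ∪ E)).card), b ∈ Dh m (f i ∪ E) (f j) := by
    intro b hb
    by_contra hb2
    push Not at hb2
    apply hcon
    refine ⟨b, mem_Bh.1 hb, ?_⟩
    intro j hji hjF hdis
    apply hb2 j
    · rw [Finset.mem_filter, Finset.mem_erase]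
      refine ⟨⟨hji, Finset.mem_univ _⟩, ?_⟩
      have h5 := sdiff_YY_le m (f i) E (f j)
      by_contra hlt
      push Not at hlt
      apply hjF
      rw [hF, Finset.mem_erase, Finset.mem_filter]
      exact ⟨hji, Finset.mem_univ _, by omega⟩
    · exact mem_Dh.2 ⟨mem_Bh.1 hb, hdis⟩
  have h5 : Bh m (f i ∪ E) ⊆ ((univ.erase i).filter
      (fun j => d ≤ (f j \ YY m (f i ∪ E)).card)).biUnion (fun j => Dh m (f i ∪ E) (f j)) := by
    intro b hb
    rw [Finset.mem_biUnion]
    exact h4 b hb
  have h6 : ((Bh m (f i ∪ E)).card : ℝ) ≤ ∑ j ∈ (univ.erase i).filter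
      (fun j => d ≤ (f j \ YY m (f i ∪ E)).card), ((Dh m (f i ∪ E) (f j)).card : ℝ) := by
    exact_mod_cast (Finset.card_le_card h5).trans Finset.card_biUnion_le
  have h7 : (0 : ℝ) < (Bh m (f i ∪ E)).card := by exact_mod_cast hne.card_pos
  have h8 : ∑ j ∈ univ.erase i, XX m d (f i ∪ E) (f j)
      = (∑ j ∈ (univ.erase i).filter
      (fun j => d ≤ (f j \ YY m (f i ∪ E)).card), ((Dh m (f i ∪ E) (f j)).card : ℝ)) /
        (Bh m (f i ∪ E)).card := by
    rw [Finset.sum_div, Finset.sum_filter]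
    rfl
  rw [h8, div_lt_one h7] at h3
  linarith

/-- The numerical conditions of the probabilistic part. -/
structure NumE (n K s N r d e L y : ℕ) (p q lam Q : ℝ) : Prop where
  hs : 1 ≤ s
  hP : 0 < n.choose s
  hp : p * n.choose s ≤ K.choose s * 2 ^ s
  hq0 : 0 ≤ q
  hq : ((n - K).choose s : ℝ) ≤ q * n.choose s
  hlam : 1 ≤ lam
  hy : n - 2 * K + 2 * s ≤ y
  hQ : ∀ Y : Finset (Fin n), Y.card ≤ y →
    ((((univ : Finset (Fin n)).powersetCard s).filter
      (fun H => (H \ Y).card < d + 2 * e)).card : ℝ) ≤ Q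
  hN : N * (lam * Q) ≤ n.choose s
  a1 : (Fintype.card (Fin K × Bool ↪ Fin n) : ℝ) * Real.exp (L - p * N / 2) ≤ 1 / 4
  a2 : (2 : ℝ) ^ n * Real.exp 1 ≤ lam ^ (r + 1) / 4
  a3 : (Fintype.card (Fin K × Bool ↪ Fin n) : ℝ) * N * 2 ^ n *
    Real.exp (2 * 2 ^ d * q * N - 2 ^ d) ≤ 1 / 4

open Classical in
theorem exists_listE {s N r d e L y : ℕ} {p q lam Q : ℝ}
    (hnum : NumE n K s N r d e L y p q lam Q) :
    ∃ f : Fin N → Finset (Fin n), (∀ i, (f i).card = s) ∧
      ∀ m : Fin K × Bool ↪ Fin n, ∃ C : Finset (Fin N), L ≤ C.card ∧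
        ∀ i ∈ C, ∃ F, GoodCandE m f r e i F := by
  set P : ℝ := (n.choose s : ℝ) ^ N with hPdef
  have hP0 : 0 < P := by
    have : (0 : ℝ) < n.choose s := by exact_mod_cast hnum.hP
    positivity
  set B1 := (univ : Finset (Fin K × Bool ↪ Fin n)).biUnion
    (fun m => (Pi n s N).filter (fun f => (cand m f).card < L)) with hB1
  set B2 := ((univ : Finset (Finset (Fin n))).filter (fun Y => Y.card ≤ y)).biUnion
    (fun Y => (Pi n s N).filter (fun f =>
      r < (univ.filter (fun j => (f j \ Y).card < d + 2 * e)).card)) with hB2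
  set B3 := (univ : Finset (((Fin K × Bool ↪ Fin n) × Fin N) × Finset (Fin n))).biUnion
    (fun x => (Pi n s N).filter (fun f => (Bh x.1.1 (f x.1.2 ∪ x.2)).Nonempty ∧
      1 ≤ ∑ j ∈ univ.erase x.1.2, XX x.1.1 d (f x.1.2 ∪ x.2) (f j))) with hB3
  have c1 : (B1.card : ℝ) ≤ P / 4 := by
    have h1 : (B1.card : ℝ) ≤ ∑ m : Fin K × Bool ↪ Fin n,
        (((Pi n s N).filter (fun f => (cand m f).card < L)).card : ℝ) := by
      exact_mod_cast Finset.card_biUnion_le
    have h2 : ∑ m : Fin K × Bool ↪ Fin n,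
        (((Pi n s N).filter (fun f => (cand m f).card < L)).card : ℝ)
        ≤ ∑ m : Fin K × Bool ↪ Fin n, P * Real.exp (L - p * N / 2) :=
      Finset.sum_le_sum (fun m _ => event1 m s N L hnum.hp)
    have h3 : ∑ m : Fin K × Bool ↪ Fin n, P * Real.exp (L - p * N / 2)
        = P * ((Fintype.card (Fin K × Bool ↪ Fin n) : ℝ) * Real.exp (L - p * N / 2)) := by
      simp only [Finset.sum_const, Finset.card_univ, nsmul_eq_mul]
      ring
    have h4 := mul_le_mul_of_nonneg_left hnum.a1 hP0.le
    linarith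
  have c2 : (B2.card : ℝ) ≤ P / 4 := by
    have hl : (0 : ℝ) < lam ^ (r + 1) := by
      have := hnum.hlam
      positivity
    have h1 : (B2.card : ℝ) ≤ ∑ Y ∈ (univ : Finset (Finset (Fin n))).filter (fun Y => Y.card ≤ y),
        (((Pi n s N).filter (fun f =>
          r < (univ.filter (fun j => (f j \ Y).card < d + 2 * e)).card)).card : ℝ) := by
      exact_mod_cast Finset.card_biUnion_le
    have h2 : ∑ Y ∈ (univ : Finset (Finset (Fin n))).filter (fun Y => Y.card ≤ y),
        (((Pi n s N).filter (fun f =>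
          r < (univ.filter (fun j => (f j \ Y).card < d + 2 * e)).card)).card : ℝ)
        ≤ ∑ Y ∈ (univ : Finset (Finset (Fin n))).filter (fun Y => Y.card ≤ y),
          P * Real.exp 1 / lam ^ (r + 1) := by
      apply Finset.sum_le_sum
      intro Y hY
      rw [le_div_iff₀ hl]
      exact event2 Y s N r (d + 2 * e) hnum.hlam (hnum.hQ Y (Finset.mem_filter.1 hY).2) hnum.hP hnum.hN
    have h3 : ∑ Y ∈ (univ : Finset (Finset (Fin n))).filter (fun Y => Y.card ≤ y),
          P * Real.exp 1 / lam ^ (r + 1) ≤ 2 ^ n * (P * Real.exp 1 / lam ^ (r + 1)) := by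
      rw [Finset.sum_const, nsmul_eq_mul]
      apply mul_le_mul_of_nonneg_right _ (by positivity)
      have := Finset.card_le_card (Finset.filter_subset (fun Y : Finset (Fin n) => Y.card ≤ y) univ)
      simp only [Finset.card_univ, Fintype.card_finset, Fintype.card_fin] at this
      exact_mod_cast this
    have h4 : 2 ^ n * (P * Real.exp 1 / lam ^ (r + 1)) ≤ P / 4 := by
      rw [← mul_div_assoc, div_le_iff₀ hl]
      have := mul_le_mul_of_nonneg_left hnum.a2 hP0.le
      nlinarith
    linarith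
  have c3 : (B3.card : ℝ) ≤ P / 4 := by
    have h1 : (B3.card : ℝ) ≤ ∑ x : ((Fin K × Bool ↪ Fin n) × Fin N) × Finset (Fin n),
        (((Pi n s N).filter (fun f => (Bh x.1.1 (f x.1.2 ∪ x.2)).Nonempty ∧
      1 ≤ ∑ j ∈ univ.erase x.1.2, XX x.1.1 d (f x.1.2 ∪ x.2) (f j))).card : ℝ) := by
      exact_mod_cast Finset.card_biUnion_le
    have h2 : ∑ x : ((Fin K × Bool ↪ Fin n) × Fin N) × Finset (Fin n),
        (((Pi n s N).filter (fun f => (Bh x.1.1 (f x.1.2 ∪ x.2)).Nonempty ∧
      1 ≤ ∑ j ∈ univ.erase x.1.2, XX x.1.1 d (f x.1.2 ∪ x.2) (f j))).card : ℝ)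
        ≤ ∑ x : ((Fin K × Bool ↪ Fin n) × Fin N) × Finset (Fin n), P * Real.exp (2 * 2 ^ d * q * N - 2 ^ d) := by
      apply Finset.sum_le_sum
      intro x _
      rw [Real.exp_sub, ← mul_div_assoc, le_div_iff₀ (Real.exp_pos _)]
      exact event3E x.1.1 d s N x.1.2 x.2 hnum.hq0 hnum.hq
    have h3 : ∑ x : ((Fin K × Bool ↪ Fin n) × Fin N) × Finset (Fin n), P * Real.exp (2 * 2 ^ d * q * N - 2 ^ d)
        = P * ((Fintype.card (Fin K × Bool ↪ Fin n) : ℝ) * N * 2 ^ n *
          Real.exp (2 * 2 ^ d * q * N - 2 ^ d)) := by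
      simp only [Finset.sum_const, Finset.card_univ, nsmul_eq_mul, Fintype.card_prod,
        Fintype.card_fin, Fintype.card_finset]
      push_cast
      ring
    have h4 := mul_le_mul_of_nonneg_left hnum.a3 hP0.le
    linarith
  have hex : ∃ f ∈ Pi n s N, f ∉ B1 ∪ B2 ∪ B3 := by
    by_contra hcon
    push Not at hcon
    have h1 : (Pi n s N).card ≤ (B1 ∪ B2 ∪ B3).card := Finset.card_le_card hcon
    have h2 : (B1 ∪ B2 ∪ B3).card ≤ B1.card + B2.card + B3.card :=
      (Finset.card_union_le _ _).trans (Nat.add_le_add_right (Finset.card_union_le _ _) _)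
    have h3 : ((Pi n s N).card : ℝ) ≤ B1.card + B2.card + B3.card := by exact_mod_cast h1.trans h2
    rw [card_Pi] at h3
    push_cast at h3
    rw [← hPdef] at h3
    linarith
  obtain ⟨f, hf, hfB⟩ := hex
  simp only [Finset.mem_union, not_or] at hfB
  obtain ⟨⟨hf1, hf2⟩, hf3⟩ := hfB
  have hfs := mem_Pi.1 hf
  refine ⟨f, hfs, fun m => ⟨cand m f, ?_, ?_⟩⟩
  · by_contra hlt
    push Not at hlt
    apply hf1
    rw [hB1, Finset.mem_biUnion]
    exact ⟨m, Finset.mem_univ _, Finset.mem_filter.2 ⟨hf, hlt⟩⟩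
  · intro i hi
    have hi2 : (Bh m (f i)).Nonempty := by
      rw [cand, Finset.mem_filter] at hi
      exact hi.2
    refine ⟨_, goodCandE_of m f (d := d) (e := e) hi2 ?_ ?_⟩
    · by_contra hlt
      push Not at hlt
      apply hf2
      rw [hB2, Finset.mem_biUnion]
      refine ⟨YY m (f i), ?_, Finset.mem_filter.2 ⟨hf, hlt⟩⟩
      rw [Finset.mem_filter]
      refine ⟨Finset.mem_univ _, ?_⟩
      have := YY_card m (f i)
      rw [hfs i] at this
      exact this.trans hnum.hy
    · intro E hE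
      by_contra hlt
      push Not at hlt
      apply hf3
      rw [hB3, Finset.mem_biUnion]
      exact ⟨((m, i), E), Finset.mem_univ _, Finset.mem_filter.2 ⟨hf, hE, hlt⟩⟩

end Pool.Agent.Work.MP_5c4cbf_co
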