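import Pool.Agent.Work.MP_5c4cbf_co.QLem
import Pool.Agent.Work.MP_5c4cbf_co.TProb4
import Pool.Agent.Work.MP_5c4cbf_co.TCoin

/-! Random pair sets: for many systems of candidates at the same time some candidate is good. -/

namespace Pool.Agent.Work.MP_5c4cbf_co

open Finset

section Abstract

variable {N : ℕ} {Ω : Type*} [Fintype Ω] [DecidableEq Ω] [Nonempty Ω]

open Classical in
lemma all_bad_card (F : Fin N → Finset (Fin N)) (Bad : Fin N → (Sym2 (Fin N) → Ω) → Prop)
    (C : Finset (Fin N))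
    (hdep : ∀ i ∈ C, ∀ t t' : Sym2 (Fin N) → Ω, (∀ j ∈ F i, t s(i, j) = t' s(i, j)) →
      Bad i t → Bad i t')
    (h2 : ∀ i ∈ C, ∀ i' ∈ C, i ≠ i' → i' ∉ F i)
    (hb : ∀ i ∈ C, (((univ : Finset (Sym2 (Fin N) → Ω)).filter (Bad i)).card : ℝ)
      ≤ 1 / 2 * Fintype.card (Sym2 (Fin N) → Ω)) :
    (((univ : Finset (Sym2 (Fin N) → Ω)).filter (fun t => ∀ i ∈ C, Bad i t)).card : ℝ)
      ≤ (1 / 2) ^ C.card * Fintype.card (Sym2 (Fin N) → Ω) := by
  have hT0 : (0 : ℝ) < Fintype.card (Sym2 (Fin N) → Ω) := by exact_mod_cast Fintype.card_pos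
  induction C using Finset.induction_on with
  | empty =>
    simp only [Finset.card_empty, pow_zero, one_mul]
    have := Finset.card_le_univ
      ((univ : Finset (Sym2 (Fin N) → Ω)).filter (fun t => ∀ i ∈ (∅ : Finset (Fin N)), Bad i t))
    exact_mod_cast this
  | insert a C ha ih =>
    have ih' := ih (fun i hi => hdep i (Finset.mem_insert_of_mem hi))
      (fun i hi i' hi' => h2 i (Finset.mem_insert_of_mem hi) i' (Finset.mem_insert_of_mem hi'))
      (fun i hi => hb i (Finset.mem_insert_of_mem hi))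
    set A := (univ : Finset (Sym2 (Fin N) → Ω)).filter (fun t => ∀ i ∈ C, Bad i t) with hA
    set B := (univ : Finset (Sym2 (Fin N) → Ω)).filter (Bad a) with hB
    set S : Finset (Sym2 (Fin N)) := (F a).image (fun j => s(a, j)) with hS
    have hinv : ∀ t t' : Sym2 (Fin N) → Ω, (∀ z, z ∉ S → t z = t' z) → t ∈ A → t' ∈ A := by
      intro t t' htt ht
      rw [hA, Finset.mem_filter] at ht ⊢
      refine ⟨Finset.mem_univ _, ?_⟩
      intro i hi
      refine hdep i (Finset.mem_insert_of_mem hi) t t' ?_ (ht.2 i hi)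
      intro j hj
      apply htt
      intro hz
      rw [hS, Finset.mem_image] at hz
      obtain ⟨j', hj', hz⟩ := hz
      have hne : i ≠ a := by rintro rfl; exact ha hi
      rw [Sym2.eq_iff] at hz
      rcases hz with ⟨h3, h4⟩ | ⟨h3, h4⟩
      · exact hne h3.symm
      · subst h3
        exact h2 i (Finset.mem_insert_of_mem hi) _ (Finset.mem_insert_self _ _) hne hj
    have hBdep : ∀ t t' : Sym2 (Fin N) → Ω, (∀ z ∈ S, t z = t' z) → t ∈ B → t' ∈ B := by
      intro t t' htt ht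
      rw [hB, Finset.mem_filter] at ht ⊢
      refine ⟨Finset.mem_univ _, hdep a (Finset.mem_insert_self _ _) t t' ?_ ht.2⟩
      intro j hj
      exact htt _ (Finset.mem_image_of_mem _ hj)
    have hcard := indep_card A B S hinv hBdep
    have hins : (univ : Finset (Sym2 (Fin N) → Ω)).filter (fun t => ∀ i ∈ insert a C, Bad i t)
        = A ∩ B := by
      ext t
      simp only [hA, hB, Finset.mem_filter, Finset.mem_univ, true_and, Finset.mem_insert,
        forall_eq_or_imp, Finset.mem_inter]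
      exact and_comm
    rw [hins, Finset.card_insert_of_notMem ha, pow_succ]
    have h3 : ((A ∩ B).card : ℝ) * Fintype.card (Sym2 (Fin N) → Ω) = A.card * B.card := by
      exact_mod_cast hcard
    have h4 := hb a (Finset.mem_insert_self _ _)
    have h5 : (A.card : ℝ) * B.card ≤
        A.card * (1 / 2 * Fintype.card (Sym2 (Fin N) → Ω)) :=
      mul_le_mul_of_nonneg_left h4 (by positivity)
    have h6 : ((A ∩ B).card : ℝ) * Fintype.card (Sym2 (Fin N) → Ω) ≤
        (A.card * (1 / 2)) * Fintype.card (Sym2 (Fin N) → Ω) := by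
      rw [h3]
      refine h5.trans (le_of_eq ?_)
      ring
    have h7 : ((A ∩ B).card : ℝ) ≤ A.card * (1 / 2) := le_of_mul_le_mul_right h6 hT0
    calc ((A ∩ B).card : ℝ) ≤ A.card * (1 / 2) := h7
      _ ≤ ((1 / 2) ^ C.card * Fintype.card (Sym2 (Fin N) → Ω)) * (1 / 2) :=
          mul_le_mul_of_nonneg_right ih' (by norm_num)
      _ = _ := by ring

open Classical in
theorem exists_all_good {M : Type*} [Fintype M] {r L : ℕ} (C : M → Finset (Fin N))
    (F : M → Fin N → Finset (Fin N)) (Bad : M → Fin N → (Sym2 (Fin N) → Ω) → Prop)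
    (hC : ∀ m, L ≤ (C m).card) (hF : ∀ m, ∀ i ∈ C m, (F m i).card ≤ r)
    (hdep : ∀ m, ∀ i ∈ C m, ∀ t t' : Sym2 (Fin N) → Ω, (∀ j ∈ F m i, t s(i, j) = t' s(i, j)) →
      Bad m i t → Bad m i t')
    (hb : ∀ m, ∀ i ∈ C m, (((univ : Finset (Sym2 (Fin N) → Ω)).filter (Bad m i)).card : ℝ)
      ≤ 1 / 2 * Fintype.card (Sym2 (Fin N) → Ω))
    (hnum : (Fintype.card M : ℝ) * (1 / 2) ^ (L / (2 * r + 1)) < 1) :
    ∃ t : Sym2 (Fin N) → Ω, ∀ m, ∃ i ∈ C m, ¬ Bad m i t := by
  set T : ℝ := (Fintype.card (Sym2 (Fin N) → Ω) : ℝ) with hT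
  have hT0 : 0 < T := by
    rw [hT]
    exact_mod_cast Fintype.card_pos
  have hm : ∀ m, (((univ : Finset (Sym2 (Fin N) → Ω)).filter
      (fun t => ∀ i ∈ C m, Bad m i t)).card : ℝ) ≤ (1 / 2) ^ (L / (2 * r + 1)) * T := by
    intro m
    obtain ⟨C', hC', hcard, hind⟩ := sparse (F m) r (C m) (fun i hi => hF m i hi)
    have h1 := all_bad_card (F m) (Bad m) C' (fun i hi => hdep m i (hC' hi)) hind
      (fun i hi => hb m i (hC' hi))
    have h2 : ((univ : Finset (Sym2 (Fin N) → Ω)).filter (fun t => ∀ i ∈ C m, Bad m i t)).card ≤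
        ((univ : Finset (Sym2 (Fin N) → Ω)).filter (fun t => ∀ i ∈ C', Bad m i t)).card := by
      apply Finset.card_le_card
      intro t ht
      rw [Finset.mem_filter] at ht ⊢
      exact ⟨ht.1, fun i hi => ht.2 i (hC' hi)⟩
    have h3 : L / (2 * r + 1) ≤ C'.card :=
      Nat.div_le_of_le_mul ((hC m).trans hcard)
    have h4 : ((1 : ℝ) / 2) ^ C'.card ≤ (1 / 2) ^ (L / (2 * r + 1)) :=
      pow_le_pow_of_le_one (by norm_num) (by norm_num) h3
    have h5 := mul_le_mul_of_nonneg_right h4 hT0.le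
    have h6 : (((univ : Finset (Sym2 (Fin N) → Ω)).filter
        (fun t => ∀ i ∈ C m, Bad m i t)).card : ℝ) ≤
        ((univ : Finset (Sym2 (Fin N) → Ω)).filter (fun t => ∀ i ∈ C', Bad m i t)).card := by
      exact_mod_cast h2
    linarith
  by_contra hcon
  push Not at hcon
  have hcover : (univ : Finset (Sym2 (Fin N) → Ω)) ⊆
      (univ : Finset M).biUnion (fun m => univ.filter (fun t => ∀ i ∈ C m, Bad m i t)) := by
    intro t _
    obtain ⟨m, hm⟩ := hcon t
    rw [Finset.mem_biUnion]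
    exact ⟨m, Finset.mem_univ _, Finset.mem_filter.2 ⟨Finset.mem_univ _, hm⟩⟩
  have h1 : T ≤ ∑ m : M, (((univ : Finset (Sym2 (Fin N) → Ω)).filter
      (fun t => ∀ i ∈ C m, Bad m i t)).card : ℝ) := by
    have := (Finset.card_le_card hcover).trans Finset.card_biUnion_le
    rw [Finset.card_univ] at this
    rw [hT]
    exact_mod_cast this
  have h2 : ∑ m : M, (((univ : Finset (Sym2 (Fin N) → Ω)).filter
      (fun t => ∀ i ∈ C m, Bad m i t)).card : ℝ) ≤
      ∑ m : M, (1 / 2) ^ (L / (2 * r + 1)) * T :=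
    Finset.sum_le_sum (fun m _ => hm m)
  rw [Finset.sum_const, Finset.card_univ, nsmul_eq_mul] at h2
  have h3 := mul_lt_mul_of_pos_right hnum hT0
  nlinarith

end Abstract

end Pool.Agent.Work.MP_5c4cbf_co
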