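import Pool.Agent.Work.MP_5c4cbf_co.TQ

/-! Random pair sets, concretely: the probability that a candidate is bad is at most `1/2`. -/

namespace Pool.Agent.Work.MP_5c4cbf_co

open Finset

variable {n K N : ℕ}

open Classical in
/-- the partner of a point in the matching (the point itself if it is unmatched) -/
noncomputable def ptn (m : Fin K × Bool ↪ Fin n) (x : Fin n) : Fin n :=
  if h : ∃ p, m p = x then m (h.choose.1, !h.choose.2) else x

lemma ptn_m (m : Fin K × Bool ↪ Fin n) (k : Fin K) (β : Bool) : ptn m (m (k, β)) = m (k, !β) := by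
  unfold ptn
  have h : ∃ p, m p = m (k, β) := ⟨_, rfl⟩
  rw [dif_pos h]
  have h1 := m.injective h.choose_spec
  rw [h1]

lemma ptn_ptn (m : Fin K × Bool ↪ Fin n) (x : Fin n) : ptn m (ptn m x) = x := by
  by_cases h : ∃ p, m p = x
  · obtain ⟨⟨k, β⟩, rfl⟩ := h
    rw [ptn_m, ptn_m, Bool.not_not]
  · have h1 : ptn m x = x := by
      unfold ptn
      rw [dif_neg h]
    rw [h1, h1]

lemma ptn_injective (m : Fin K × Bool ↪ Fin n) : Function.Injective (ptn m) := by
  intro x y h
  have := congrArg (ptn m) h
  rwa [ptn_ptn, ptn_ptn] at this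

open Classical in
/-- the points that are useless for the pair set of `j`, given the pair sets of the others -/
noncomputable def BB {q : ℕ} (m : Fin K × Bool ↪ Fin n) (h : Finset (Fin n)) (F : Finset (Fin N))
    (w : Fin N → Fin (2 * q) → Fin n) (j : Fin N) : Finset (Fin n) :=
  univ.filter (fun x => x ∈ YY m h ∨ ptn m x ∈ (F.erase j).biUnion (fun j' => univ.image (w j')))

lemma BB_card {q r : ℕ} (m : Fin K × Bool ↪ Fin n) (h : Finset (Fin n)) (F : Finset (Fin N))
    (hF : F.card ≤ r) (w : Fin N → Fin (2 * q) → Fin n) (j : Fin N) :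
    (BB m h F w j).card ≤ n - 2 * K + 2 * h.card + r * (2 * q) := by
  classical
  have h1 : BB m h F w j ⊆ YY m h ∪ univ.filter (fun x => ptn m x ∈
      (F.erase j).biUnion (fun j' => univ.image (w j'))) := by
    intro x hx
    rw [BB, Finset.mem_filter] at hx
    rw [Finset.mem_union, Finset.mem_filter]
    rcases hx.2 with h | h
    · exact Or.inl h
    · exact Or.inr ⟨Finset.mem_univ _, h⟩
  have h2 : (univ.filter (fun x => ptn m x ∈
      (F.erase j).biUnion (fun j' => univ.image (w j')))).card ≤ r * (2 * q) := by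
    have h3 : (univ.filter (fun x => ptn m x ∈
      (F.erase j).biUnion (fun j' => univ.image (w j')))).card ≤
        ((F.erase j).biUnion (fun j' => univ.image (w j'))).card := by
      apply Finset.card_le_card_of_injOn (ptn m)
      · intro x hx
        exact (Finset.mem_filter.1 hx).2
      · exact (ptn_injective m).injOn
    refine h3.trans (Finset.card_biUnion_le.trans ?_)
    calc ∑ j' ∈ F.erase j, (univ.image (w j')).card ≤ ∑ j' ∈ F.erase j, 2 * q := by
          apply Finset.sum_le_sum
          intro j' _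
          refine Finset.card_image_le.trans ?_
          simp
      _ = (F.erase j).card * (2 * q) := by rw [Finset.sum_const, smul_eq_mul]
      _ ≤ r * (2 * q) :=
          Nat.mul_le_mul_right _ ((Finset.card_le_card (Finset.erase_subset _ _)).trans hF)
  have h3 := YY_card m h
  have h4 := (Finset.card_le_card h1).trans (Finset.card_union_le _ _)
  omega

open Classical in
lemma goodE_of {q r : ℕ} (m : Fin K × Bool ↪ Fin n) (h : Finset (Fin n)) (F : Finset (Fin N))
    (hF : F.card ≤ r) (w : Fin N → Fin (2 * q) → Fin n) (hne : (Bh m h).Nonempty)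
    (hc : ∀ j ∈ F, ¬ ∃ a a', a ≠ a' ∧ ptn m (w j a) = w j a')
    (hm : ∀ j ∈ F, (univ.filter (fun a => w j a ∈ BB m h F w j)).card < q) :
    ∃ E : Finset (Fin n), E.card ≤ r * (2 * q) ∧ (Bh m (h ∪ E)).Nonempty ∧
      ∀ j ∈ F, q < (univ.filter (fun a => w j a ∈ E)).card := by
  set R := F.biUnion (fun j => univ.image (w j)) with hR
  set E := R.filter (fun x => x ∉ YY m h ∧ ptn m x ∉ R) with hE
  refine ⟨E, ?_, ?_, ?_⟩
  · refine (Finset.card_le_card (Finset.filter_subset _ _)).trans
      (Finset.card_biUnion_le.trans ?_)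
    calc ∑ j ∈ F, (univ.image (w j)).card ≤ ∑ j ∈ F, 2 * q := by
          apply Finset.sum_le_sum
          intro j' _
          refine Finset.card_image_le.trans ?_
          simp
      _ = F.card * (2 * q) := by rw [Finset.sum_const, smul_eq_mul]
      _ ≤ r * (2 * q) := Nat.mul_le_mul_right _ hF
  · obtain ⟨b0, hb0⟩ := hne
    rw [mem_Bh] at hb0
    refine ⟨fun k => if m (k, true) ∈ E then true else if m (k, false) ∈ E then false else b0 k, ?_⟩
    rw [mem_Bh]
    intro x hx
    rw [Finset.mem_union] at hx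
    rcases hx with hx | hx
    · obtain ⟨k, hk⟩ := mem_tr.1 (hb0 hx)
      have hnot : ∀ γ, m (k, γ) ∉ E := by
        intro γ hγ
        rw [hE, Finset.mem_filter] at hγ
        apply hγ.2.1
        rw [YY, Finset.mem_filter]
        refine ⟨Finset.mem_univ _, ?_⟩
        intro k' β' hk'
        have := m.injective hk'
        simp only [Prod.mk.injEq] at this
        refine ⟨b0 k, ?_⟩
        rw [this.1, hk]
        exact hx
      rw [mem_tr]
      refine ⟨k, ?_⟩
      rw [if_neg (hnot true), if_neg (hnot false)]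
      exact hk
    · have hx' := hx
      rw [hE, Finset.mem_filter] at hx
      obtain ⟨hxR, hxY, hxp⟩ := hx
      rw [YY, Finset.mem_filter] at hxY
      push Not at hxY
      obtain ⟨k, β, h3, -⟩ := hxY (Finset.mem_univ x)
      rw [← h3, m_mem_tr]
      rw [← h3] at hx' hxp
      cases β with
      | true => rw [if_pos hx']
      | false =>
        rw [if_neg, if_pos hx']
        intro htr
        apply hxp
        rw [ptn_m]
        exact (Finset.mem_filter.1 htr).1
  · intro j hj
    have h1 : (univ.filter (fun a => ¬ w j a ∈ E)) ⊆ univ.filter (fun a => w j a ∈ BB m h F w j) := by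
      intro a ha
      rw [Finset.mem_filter] at ha ⊢
      refine ⟨Finset.mem_univ _, ?_⟩
      have hR' : w j a ∈ R := by
        rw [hR, Finset.mem_biUnion]
        exact ⟨j, hj, Finset.mem_image_of_mem _ (Finset.mem_univ _)⟩
      have h2 := ha.2
      rw [hE, Finset.mem_filter] at h2
      rw [BB, Finset.mem_filter]
      refine ⟨Finset.mem_univ _, ?_⟩
      by_cases hY : w j a ∈ YY m h
      · exact Or.inl hY
      · right
        have hp : ptn m (w j a) ∈ R := by
          by_contra hp
          exact h2 ⟨hR', hY, hp⟩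
        rw [hR, Finset.mem_biUnion] at hp
        obtain ⟨j', hj', hp⟩ := hp
        by_cases hjj : j' = j
        · exfalso
          subst hjj
          rw [Finset.mem_image] at hp
          obtain ⟨a', -, ha'⟩ := hp
          apply hc j' hj'
          refine ⟨a, a', ?_, ha'.symm⟩
          rintro rfl
          rw [YY, Finset.mem_filter] at hY
          push Not at hY
          obtain ⟨k, β, h3, -⟩ := hY (Finset.mem_univ _)
          rw [← h3, ptn_m] at ha'
          have := m.injective ha'
          simp at this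
        · rw [Finset.mem_biUnion]
          exact ⟨j', Finset.mem_erase.2 ⟨hjj, hj'⟩, hp⟩
    have h2 := (Finset.card_le_card h1).trans_lt (hm j hj)
    have h3 := Finset.card_filter_add_card_filter_not (s := (univ : Finset (Fin (2 * q))))
      (fun a => w j a ∈ E)
    rw [Finset.card_univ, Fintype.card_fin] at h3
    omega

open Classical in
/-- The event that the candidate `i` is bad. -/
def BadE {q : ℕ} (m : Fin K × Bool ↪ Fin n) (h : Finset (Fin n)) (F : Finset (Fin N)) (e : ℕ)
    (i : Fin N) (t : Sym2 (Fin N) → Fin (2 * q) → Fin n) : Prop :=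
  ¬ ∃ E : Finset (Fin n), E.card ≤ e ∧ (Bh m (h ∪ E)).Nonempty ∧
      ∀ j ∈ F, q < (univ.filter (fun a => t s(i, j) a ∈ E)).card

open Classical in
lemma badE_card {q r : ℕ} (m : Fin K × Bool ↪ Fin n) (h : Finset (Fin n)) (F : Finset (Fin N))
    (hF : F.card ≤ r) (i : Fin N) (hiF : i ∉ F) (hne : (Bh m h).Nonempty) (hn : 0 < n)
    (h5 : 5 * (n - 2 * K + 2 * h.card + r * (2 * q)) ≤ 2 * n)
    (hη : (r : ℝ) * ((2 * q) ^ 2 / n + (24 / 25) ^ q) ≤ 1 / 2) :
    (((univ : Finset (Sym2 (Fin N) → Fin (2 * q) → Fin n)).filter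
      (BadE m h F (r * (2 * q)) i)).card : ℝ)
      ≤ 1 / 2 * Fintype.card (Sym2 (Fin N) → Fin (2 * q) → Fin n) := by
  set η : ℝ := (2 * q) ^ 2 / n + (24 / 25) ^ q with hηd
  set A : Fin N → Finset (Sym2 (Fin N) → Fin (2 * q) → Fin n) := fun j =>
    univ.filter (fun t => (∃ a a', a ≠ a' ∧ ptn m (t s(i, j) a) = t s(i, j) a') ∨
      q ≤ (univ.filter (fun a => t s(i, j) a ∈ BB m h F (fun j' => t s(i, j')) j)).card) with hA
  have hnr : (0 : ℝ) < n := by exact_mod_cast hn
  have hAj : ∀ j ∈ F, ((A j).card : ℝ) ≤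
      η * Fintype.card (Sym2 (Fin N) → Fin (2 * q) → Fin n) := by
    intro j hj
    have hij : i ≠ j := by rintro rfl; exact hiF hj
    apply fiber_bound (A j) s(i, j) η
    intro t
    set B := BB m h F (fun j' => t s(i, j')) j with hB
    have hsub : (univ.filter (fun ω : Fin (2 * q) → Fin n => Function.update t s(i, j) ω ∈ A j)) ⊆
        (univ.filter (fun ω : Fin (2 * q) → Fin n => ∃ a a', a ≠ a' ∧ ptn m (ω a) = ω a')) ∪
        (univ.filter (fun ω : Fin (2 * q) → Fin n => q ≤ (univ.filter (fun a => ω a ∈ B)).card)) := by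
      intro ω hω
      rw [Finset.mem_filter] at hω
      have h1 := hω.2
      simp only [hA, Finset.mem_filter, Finset.mem_univ, true_and] at h1
      have hu : Function.update t s(i, j) ω s(i, j) = ω := Function.update_self _ _ _
      rw [hu] at h1
      have hBB : BB m h F (fun j' => Function.update t s(i, j) ω s(i, j')) j = B := by
        rw [hB]
        unfold BB
        have h2 : (F.erase j).biUnion
            (fun j' => univ.image (Function.update t s(i, j) ω s(i, j'))) =
            (F.erase j).biUnion (fun j' => univ.image (t s(i, j'))) := by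
          apply Finset.biUnion_congr rfl
          intro j' hj'
          rw [Finset.mem_erase] at hj'
          have h3 : s(i, j') ≠ s(i, j) := by
            intro h3
            rw [Sym2.congr_right] at h3
            exact hj'.1 h3
          rw [Function.update_of_ne h3]
        simp only [h2]
      rw [hBB] at h1
      rw [Finset.mem_union, Finset.mem_filter, Finset.mem_filter]
      rcases h1 with h1 | h1
      · exact Or.inl ⟨Finset.mem_univ _, h1⟩
      · exact Or.inr ⟨Finset.mem_univ _, h1⟩
    have h2 := (Finset.card_le_card hsub).trans (Finset.card_union_le _ _)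
    have hBc : 5 * B.card ≤ 2 * n := by
      have := BB_card m h F hF (fun j' => t s(i, j')) j
      rw [← hB] at this
      omega
    have h3 := half_count (q := q) B hBc
    have h4 := conflict_count (n := n) (q := 2 * q) (ptn m)
    have h5 : ((((univ.filter (fun ω : Fin (2 * q) → Fin n =>
        ∃ a a', a ≠ a' ∧ ptn m (ω a) = ω a'))).card : ℕ) : ℝ) ≤
        (2 * q) ^ 2 / n * (n : ℝ) ^ (2 * q) := by
      rw [div_mul_eq_mul_div, le_div_iff₀ hnr]
      exact_mod_cast h4
    have h6 : ((univ.filter (fun ω : Fin (2 * q) → Fin n =>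
        Function.update t s(i, j) ω ∈ A j)).card : ℝ) ≤
        ((univ.filter (fun ω : Fin (2 * q) → Fin n =>
          ∃ a a', a ≠ a' ∧ ptn m (ω a) = ω a')).card : ℝ) +
        ((univ.filter (fun ω : Fin (2 * q) → Fin n =>
          q ≤ (univ.filter (fun a => ω a ∈ B)).card)).card : ℝ) := by
      exact_mod_cast h2
    refine h6.trans ?_
    rw [Fintype.card_fun, Fintype.card_fin, Fintype.card_fin, hηd]
    push_cast
    rw [add_mul]
    exact add_le_add h5 h3
  have hcover : (univ.filter (BadE m h F (r * (2 * q)) i)) ⊆ F.biUnion A := by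
    intro t ht
    rw [Finset.mem_filter] at ht
    by_contra hcon
    rw [Finset.mem_biUnion] at hcon
    push Not at hcon
    apply ht.2
    apply goodE_of m h F hF (fun j => t s(i, j)) hne
    · intro j hj hc
      apply hcon j hj
      simp only [hA, Finset.mem_filter, Finset.mem_univ, true_and]
      exact Or.inl hc
    · intro j hj
      by_contra hc
      push Not at hc
      apply hcon j hj
      simp only [hA, Finset.mem_filter, Finset.mem_univ, true_and]
      exact Or.inr hc
  have h1 : ((univ.filter (BadE (q := q) m h F (r * (2 * q)) i)).card : ℝ) ≤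
      ∑ j ∈ F, ((A j).card : ℝ) := by
    exact_mod_cast (Finset.card_le_card hcover).trans Finset.card_biUnion_le
  have h2 : ∑ j ∈ F, ((A j).card : ℝ) ≤ ∑ j ∈ F,
      η * Fintype.card (Sym2 (Fin N) → Fin (2 * q) → Fin n) := Finset.sum_le_sum hAj
  rw [Finset.sum_const, nsmul_eq_mul] at h2
  have hη0 : 0 ≤ η := by positivity
  have h3 : (F.card : ℝ) * η ≤ 1 / 2 := by
    refine le_trans ?_ hη
    exact mul_le_mul_of_nonneg_right (by exact_mod_cast hF) hη0
  calc _ ≤ _ := h1
    _ ≤ _ := h2
    _ = ((F.card : ℝ) * η) * Fintype.card (Sym2 (Fin N) → Fin (2 * q) → Fin n) := by ring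
    _ ≤ 1 / 2 * Fintype.card (Sym2 (Fin N) → Fin (2 * q) → Fin n) :=
        mul_le_mul_of_nonneg_right h3 (by positivity)

open Classical in
theorem kStar_lt_of_numE {s r d q L y : ℕ} {p qq lam Q : ℝ} (hn : 1 ≤ n)
    (hnum : NumE n K s N r d (r * (2 * q)) L y p qq lam Q)
    (h5 : 5 * (n - 2 * K + 2 * s + r * (2 * q)) ≤ 2 * n)
    (hη : (r : ℝ) * ((2 * q) ^ 2 / n + (24 / 25) ^ q) ≤ 1 / 2)
    (hcoin : (Fintype.card (Fin K × Bool ↪ Fin n) : ℝ) * (1 / 2) ^ (L / (2 * r + 1)) < 1) :
    kStar n < K := by
  obtain ⟨f, hfs, hf⟩ := exists_listE hnum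
  choose C hCL hC using hf
  have hdata : ∀ (m : Fin K × Bool ↪ Fin n) (i : Fin N), ∃ F : Finset (Fin N),
      i ∈ C m → GoodCandE m f r (r * (2 * q)) i F := by
    intro m i
    by_cases hi : i ∈ C m
    · obtain ⟨F, hF⟩ := hC m i hi
      exact ⟨F, fun _ => hF⟩
    · exact ⟨∅, fun h => absurd h hi⟩
  choose F hFF using hdata
  have : Nonempty (Fin n) := ⟨⟨0, hn⟩⟩
  obtain ⟨t, ht⟩ := exists_all_good (Ω := Fin (2 * q) → Fin n) (r := r) C F
    (fun m i t => BadE m (f i) (F m i) (r * (2 * q)) i t) hCL
    (fun m i hi => (hFF m i hi).2.1)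
    (by
      intro m i hi t t' htt hbad hgood
      apply hbad
      obtain ⟨E, hE1, hE2, hE3⟩ := hgood
      refine ⟨E, hE1, hE2, ?_⟩
      intro j hj
      have := hE3 j hj
      rw [← htt j hj] at this
      exact this)
    (by
      intro m i hi
      have hG := hFF m i hi
      apply badE_card m (f i) (F m i) hG.2.1 i hG.2.2.1 hG.1 hn _ hη
      rw [hfs i]
      exact h5)
    hcoin
  set G : Finset (Finset (Fin n)) := univ.filter (fun c => ∃ i, f i ⊆ c ∧
    ∀ j, j ≠ i → ¬ Disjoint c (f j) ∨ q < (univ.filter (fun a => t s(i, j) a ∈ c)).card) with hG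
  have hne : ∀ i, (f i).Nonempty := by
    intro i
    rw [← Finset.card_pos, hfs i]
    exact hnum.hs
  have hGI : IsIntersecting G := by
    intro A hA B hB
    rw [hG, Finset.mem_filter] at hA hB
    obtain ⟨-, i, hiA, hi⟩ := hA
    obtain ⟨-, j, hjB, hj⟩ := hB
    by_cases hij : i = j
    · subst hij
      obtain ⟨x, hx⟩ := hne i
      exact ⟨x, Finset.mem_inter.2 ⟨hiA hx, hjB hx⟩⟩
    · rcases hi j (Ne.symm hij) with h1 | h1
      · rw [Finset.not_disjoint_iff] at h1
        obtain ⟨x, hx1, hx2⟩ := h1
        exact ⟨x, Finset.mem_inter.2 ⟨hx1, hjB hx2⟩⟩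
      · rcases hj i hij with h2 | h2
        · rw [Finset.not_disjoint_iff] at h2
          obtain ⟨x, hx1, hx2⟩ := h2
          exact ⟨x, Finset.mem_inter.2 ⟨hiA hx2, hx1⟩⟩
        · rw [Sym2.eq_swap] at h2
          by_contra hcon
          have hdis : Disjoint (univ.filter (fun a => t s(i, j) a ∈ A))
              (univ.filter (fun a => t s(i, j) a ∈ B)) := by
            rw [Finset.disjoint_left]
            intro a ha ha'
            apply hcon
            exact ⟨_, Finset.mem_inter.2 ⟨(Finset.mem_filter.1 ha).2, (Finset.mem_filter.1 ha').2⟩⟩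
          have h3 := Finset.card_le_univ ((univ.filter (fun a => t s(i, j) a ∈ A)) ∪
              (univ.filter (fun a => t s(i, j) a ∈ B)))
          rw [Finset.card_union_of_disjoint hdis, Fintype.card_fin] at h3
          omega
  apply kStar_lt hn hGI
  intro m
  obtain ⟨i, hi, hit⟩ := ht m
  unfold BadE at hit
  rw [not_not] at hit
  obtain ⟨E, hE1, hE2, hE3⟩ := hit
  obtain ⟨b, hb1, hb2⟩ := (hFF m i hi).2.2.2 E hE1 hE2
  refine ⟨b, ?_⟩
  rw [hG, Finset.mem_filter]
  refine ⟨Finset.mem_univ _, i, (Finset.subset_union_left).trans hb1, ?_⟩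
  intro j hji
  by_cases hjF : j ∈ F m i
  · right
    refine lt_of_lt_of_le (hE3 j hjF) (Finset.card_le_card ?_)
    intro a ha
    rw [Finset.mem_filter] at ha ⊢
    exact ⟨ha.1, hb1 (Finset.mem_union_right _ ha.2)⟩
  · left
    exact hb2 j hji hjF

end Pool.Agent.Work.MP_5c4cbf_co
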