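import Pool.Agent.Work.MP_5c4cbf_co.Asymp

/-! Upper bound for large `n`. -/

namespace Pool.Agent.Work.MP_5c4cbf_co

open Finset

lemma card_label_le (n K : ℕ) (h : 2 * K ≤ n) (hn : 1 ≤ n) :
    (2 * Fintype.card (Fin K × Bool ↪ Fin n) : ℝ) ≤ Real.exp ((n : ℝ) ^ 2) := by
  rw [Fintype.card_embedding_eq]
  simp only [Fintype.card_prod, Fintype.card_fin, Fintype.card_bool]
  have h1 : n.descFactorial (K * 2) ≤ n ^ (K * 2) := Nat.descFactorial_le_pow n _
  have h2 : (n : ℝ) ≤ Real.exp (n - 1) := by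
    have := Real.add_one_le_exp ((n : ℝ) - 1)
    linarith
  have hn' : (1 : ℝ) ≤ n := by exact_mod_cast hn
  have h3 : ((n.descFactorial (K * 2) : ℕ) : ℝ) ≤ Real.exp ((n : ℝ) * (n - 1)) := by
    calc ((n.descFactorial (K * 2) : ℕ) : ℝ) ≤ (n : ℝ) ^ (K * 2) := by exact_mod_cast h1
      _ ≤ (n : ℝ) ^ n := pow_le_pow_right₀ hn' (by omega)
      _ ≤ (Real.exp (n - 1)) ^ n := pow_le_pow_left₀ (by positivity) h2 n
      _ = Real.exp ((n : ℝ) * (n - 1)) := by rw [← Real.exp_nat_mul]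
  have h4 : (2 : ℝ) ≤ Real.exp n := by
    have := Real.add_one_le_exp (n : ℝ)
    linarith
  calc (2 : ℝ) * (n.descFactorial (K * 2) : ℕ)
      ≤ Real.exp n * Real.exp ((n : ℝ) * (n - 1)) :=
        mul_le_mul h4 h3 (by positivity) (by positivity)
    _ = Real.exp ((n : ℝ) ^ 2) := by
        rw [← Real.exp_add]; ring_nf

/-- Finite criterion. -/
theorem kStar_lt_of_ineq {n K s d : ℕ} (hn : 1 ≤ n) (hs1 : 1 ≤ s) (h2K : 2 * K ≤ n)
    (hsK : s ≤ K) (hd : n + d ≤ s + 2 * K) (hd2 : 4 * n ^ 2 ≤ 2 ^ d)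
    (hR : 32 * n ^ 2 * (n - K).choose s ≤ K.choose s * 2 ^ s) : kStar n < K := by
  have hsn : s ≤ n := by omega
  have hC : 0 < n.choose s := Nat.choose_pos hsn
  have hCr : (0 : ℝ) < n.choose s := by exact_mod_cast hC
  have hCK : 0 < K.choose s := Nat.choose_pos hsK
  set ρ : ℝ := (K.choose s * 2 ^ s / 2) / n.choose s with hρ
  set q : ℝ := ((n - K).choose s : ℝ) / n.choose s with hq
  have hρpos : 0 < ρ := by
    have : (0 : ℝ) < K.choose s := by exact_mod_cast hCK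
    positivity
  have hqnn : 0 ≤ q := by positivity
  have hρ1 : ρ ≤ 1 := by
    obtain ⟨m, -⟩ := exists_label (n := n) (k := K) (Y := Finset.univ) (by simp; omega)
    classical
    have h1 := many_sat m [] s (by simp [sg])
    have h2 : (((univ : Finset (Fin n)).powersetCard s).filter (fun H => Sat m (H :: []))).card
        ≤ n.choose s := by
      refine (Finset.card_le_card (Finset.filter_subset _ _)).trans ?_
      simp
    have h3 : K.choose s * 2 ^ s ≤ 2 * n.choose s := h1.trans (Nat.mul_le_mul_left _ h2)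
    have h4 : (K.choose s * 2 ^ s : ℝ) ≤ 2 * n.choose s := by exact_mod_cast h3
    rw [hρ, div_le_one hCr]
    linarith
  have hnr : (1 : ℝ) ≤ n := by exact_mod_cast hn
  have hqρ : 16 * (n : ℝ) ^ 2 * q ≤ ρ := by
    have h1 : (32 * (n : ℝ) ^ 2 * ((n - K).choose s : ℝ)) ≤ K.choose s * 2 ^ s := by
      exact_mod_cast hR
    rw [hq, hρ, mul_div_assoc', div_le_div_iff_of_pos_right hCr]
    linarith
  obtain ⟨N, hN1, hN2⟩ : ∃ N : ℕ, 8 * q * N ≤ 1 ∧ (n : ℝ) ^ 2 < ρ * N := by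
    refine ⟨⌊(n : ℝ) ^ 2 / ρ⌋₊ + 1, ?_, ?_⟩
    · have h1 : ((⌊(n : ℝ) ^ 2 / ρ⌋₊ : ℕ) : ℝ) ≤ (n : ℝ) ^ 2 / ρ := Nat.floor_le (by positivity)
      push_cast
      have h2 : 8 * q * (((⌊(n : ℝ) ^ 2 / ρ⌋₊ : ℕ) : ℝ) + 1) ≤
          8 * q * ((n : ℝ) ^ 2 / ρ + 1) :=
        mul_le_mul_of_nonneg_left (by linarith) (by positivity)
      have h3 : 8 * q * ((n : ℝ) ^ 2 / ρ) ≤ 1 / 2 := by
        rw [mul_div_assoc', div_le_iff₀ hρpos]
        linarith
      have h4 : 8 * q ≤ 1 / 2 := by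
        have h5 : 16 * 1 * q ≤ 16 * (n : ℝ) ^ 2 * q := by
          apply mul_le_mul_of_nonneg_right _ hqnn
          nlinarith
        linarith
      linarith
    · have h1 := Nat.lt_floor_add_one ((n : ℝ) ^ 2 / ρ)
      rw [div_lt_iff₀ hρpos] at h1
      push_cast
      linarith
  have hd2' : 4 * (n : ℝ) ^ 2 ≤ 2 ^ d := by exact_mod_cast hd2
  exact criterion hn hs1 hd hsn (by rw [hρ, div_mul_cancel₀ _ hCr.ne'])
    (by rw [hq, div_mul_cancel₀ _ hCr.ne']) (card_label_le n K h2K hn) hd2' N hN1 hN2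

set_option exponentiation.threshold 10000 in
lemma numeric : 14 * ((2425 + 3787) ^ (2425 + 3787) * 1363 ^ 1363)
    ≤ 10 * ((2425 + 1363) ^ (2425 + 1363) * 2 ^ 2425 * 3787 ^ 3787) := by
  decide +kernel

lemma eventually_small_nat (C : ℕ) :
    ∃ m0 : ℕ, ∀ m : ℕ, m0 ≤ m → C * m ^ 3 * 10 ^ m ≤ 14 ^ m := by
  obtain ⟨m0, h⟩ := eventually_small C
  exact ⟨m0, fun m hm => by exact_mod_cast h m hm⟩

/-- the upper bound for large `n`, in integer form -/
theorem upper_nat : ∃ n0 : ℕ, ∀ n : ℕ, n0 ≤ n → 10000 * kStar n ≤ 3788 * n := by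
  obtain ⟨E, hE⟩ : ∃ E : ℕ, E = 2 ^ 6212 := ⟨_, rfl⟩
  obtain ⟨E', hE'⟩ : ∃ E' : ℕ, E' = 2 ^ 2424 := ⟨_, rfl⟩
  obtain ⟨m1, hm1⟩ := eventually_small_nat (32 * 20000 ^ 2 * E * 3789)
  obtain ⟨m2, hm2⟩ := eventually_small_nat (4 * 20000 ^ 2 * E')
  refine ⟨10000 * (m1 + m2 + 3000), ?_⟩
  intro n hn
  obtain ⟨m, hm⟩ : ∃ m, m = n / 10000 := ⟨_, rfl⟩
  have hmn : 10000 * m ≤ n := by omega
  have hmn' : n ≤ 10000 * m + 9999 := by omega
  have hmge : m1 + m2 + 3000 ≤ m := by omega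
  obtain ⟨K, hK⟩ : ∃ K, K = 3788 * n / 10000 + 1 := ⟨_, rfl⟩
  have hn20 : n ≤ 20000 * m := by omega
  have h1 := hm1 m (by omega)
  have h2 := hm2 m (by omega)
  have hlt : kStar n < K := by
    apply kStar_lt_of_ineq (s := 2425 * m) (d := m - 2424)
    · omega
    · omega
    · omega
    · omega
    · omega
    · -- 4 n^2 ≤ 2^(m-2424)
      have h3 : 4 * 20000 ^ 2 * E' * m ^ 3 * 10 ^ m ≤ 2 ^ m * 10 ^ m := by
        refine h2.trans ?_
        rw [← mul_pow]
        exact Nat.pow_le_pow_left (by norm_num) m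
      have h4 : 4 * 20000 ^ 2 * E' * m ^ 3 ≤ 2 ^ m :=
        Nat.le_of_mul_le_mul_right h3 (by positivity)
      have h5 : 2 ^ m = 2 ^ (m - 2424) * E' := by
        rw [hE', ← pow_add]
        congr 1
        omega
      have hE'pos : 0 < E' := by rw [hE']; exact Nat.pow_pos (by norm_num)
      have h6 : 4 * n ^ 2 * E' ≤ 2 ^ (m - 2424) * E' := by
        rw [← h5]
        refine le_trans ?_ h4
        have h7 : n ^ 2 ≤ 20000 ^ 2 * m ^ 2 := by
          rw [← mul_pow]; exact Nat.pow_le_pow_left hn20 2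
        have h8 : m ^ 2 ≤ m ^ 3 := Nat.pow_le_pow_right (by omega) (by norm_num)
        calc 4 * n ^ 2 * E' ≤ 4 * (20000 ^ 2 * m ^ 2) * E' :=
              Nat.mul_le_mul_right _ (Nat.mul_le_mul_left _ h7)
          _ = 4 * 20000 ^ 2 * E' * m ^ 2 := by ring
          _ ≤ 4 * 20000 ^ 2 * E' * m ^ 3 := Nat.mul_le_mul_left _ h8
      exact Nat.le_of_mul_le_mul_right h6 hE'pos
    · have hP : 32 * n ^ 2 * E * ((2425 + 1363) * m + 1) * 10 ^ m ≤ 14 ^ m := by
        refine le_trans ?_ h1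
        apply Nat.mul_le_mul_right
        have h7 : n ^ 2 ≤ 20000 ^ 2 * m ^ 2 := by
          rw [← mul_pow]; exact Nat.pow_le_pow_left hn20 2
        have h8 : (2425 + 1363) * m + 1 ≤ 3789 * m := by omega
        calc 32 * n ^ 2 * E * ((2425 + 1363) * m + 1)
            ≤ 32 * (20000 ^ 2 * m ^ 2) * E * (3789 * m) :=
              Nat.mul_le_mul (Nat.mul_le_mul_right _ (Nat.mul_le_mul_left _ h7)) h8
          _ = 32 * 20000 ^ 2 * E * 3789 * m ^ 3 := by ring
      have hcore := core_ineq 2425 1363 3787 m (32 * n ^ 2 * E) (by norm_num) (by norm_num)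
        (by norm_num) numeric hP
      have h9 : (n - K).choose (2425 * m) ≤ E * ((2425 + 3787) * m).choose (2425 * m) := by
        rw [hE]
        refine le_trans (Nat.choose_le_choose _ ?_)
          (choose_shift ((2425 + 3787) * m) (2425 * m) 6212 (by omega))
        omega
      have h10 : ((2425 + 1363) * m).choose (2425 * m) ≤ K.choose (2425 * m) :=
        Nat.choose_le_choose _ (by omega)
      calc 32 * n ^ 2 * (n - K).choose (2425 * m)
          ≤ 32 * n ^ 2 * (E * ((2425 + 3787) * m).choose (2425 * m)) :=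
            Nat.mul_le_mul_left _ h9
        _ = 32 * n ^ 2 * E * ((2425 + 3787) * m).choose (2425 * m) := by ring
        _ ≤ _ := hcore
        _ ≤ _ := Nat.mul_le_mul_right _ h10
  omega

end Pool.Agent.Work.MP_5c4cbf_co
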